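import Mathlib

set_option autoImplicit false

open MeasureTheory Set Metric Real
open scoped RealInnerProductSpace ENNReal ContDiff

namespace Pool.Agent.Helper970.Rad

/-- Three dimensional Euclidean space. -/
abbrev E3 := EuclideanSpace ℝ (Fin 3)

/-- The surface measure of the unit sphere of `E3` (total mass `4 π`). -/
noncomputable def sig : Measure (sphere (0 : E3) 1) := (volume : Measure E3).toSphere

instance instFinSig : IsFiniteMeasure sig := by unfold sig; infer_instance

instance instPosSig : Measure.IsOpenPosMeasure sig := by unfold sig; infer_instance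

/-- The infinitesimal rotation about the coordinate axis `k`: `x ↦ e_k × x`. -/
noncomputable def J : Fin 3 → (E3 →L[ℝ] E3) := fun k =>
  LinearMap.toContinuousLinearMap
    { toFun := fun x => (WithLp.toLp 2 (![![0, -(x 2), x 1], ![x 2, 0, -(x 0)],
        ![-(x 1), x 0, 0]] k) : E3)
      map_add' := fun x y => by
        ext i
        fin_cases k <;> fin_cases i <;> simp <;> ring
      map_smul' := fun c x => by
        ext i
        fin_cases k <;> fin_cases i <;> simp }

/-- The derivative along the rotation about axis `k`. -/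
noncomputable def Lk (k : Fin 3) (f : E3 → ℝ) (x : E3) : ℝ := fderiv ℝ f x (J k x)

/-- The spherical part of the Laplacian: `∑ L_k²`. -/
noncomputable def TT (f : E3 → ℝ) (x : E3) : ℝ := ∑ k, Lk k (Lk k f) x

/-- The monomial functions. -/
noncomputable def mono (a : Fin 3 → ℕ) (x : E3) : ℝ := ∏ i, x i ^ a i

/-- Polynomial functions of degree less than `n`. -/
noncomputable def PLt (n : ℕ) : Submodule ℝ (E3 → ℝ) :=
  Submodule.span ℝ (mono '' {a | ∑ i, a i < n})

/-- The integral of a product over the unit sphere. -/
noncomputable def B (f g : E3 → ℝ) : ℝ := ∫ ξ, f (ξ : E3) * g (ξ : E3) ∂sig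

/-- The function `e^{t/2} v(e^t x)`. -/
noncomputable def psi (v : E3 → ℝ) (t : ℝ) (x : E3) : ℝ := exp (t / 2) * v (exp t • x)

/-- The time derivative of `psi`. -/
noncomputable def psid (v : E3 → ℝ) (t : ℝ) (x : E3) : ℝ :=
  psi v t x / 2 + exp (t / 2) * fderiv ℝ v (exp t • x) (exp t • x)

/-- The potential in the logarithmic variable. -/
noncomputable def Wt (w : ℝ → ℝ) (t : ℝ) : ℝ := exp (2 * t) * w (exp t)

/-- Real Sobolev functions on the line: `u` with weak derivative `g`. -/
structure Sob (u g : ℝ → ℝ) : Prop where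
  memLp : MemLp u 2
  memLp_deriv : MemLp g 2
  integral_deriv : ∀ a b, u b - u a = ∫ x in a..b, g x

/-- Complex Sobolev functions on the line: `u` with weak derivative `g`. -/
structure CSob (u g : ℝ → ℂ) : Prop where
  memLp : MemLp u 2
  memLp_deriv : MemLp g 2
  integral_deriv : ∀ a b, u b - u a = ∫ x in a..b, g x

/-- The quadratic form of `-d²/dt² + κ - W` for a function `u` with derivative `g`. -/
noncomputable def q1 (W : ℝ → ℝ) (κ : ℝ) (u g : ℝ → ℝ) : ℝ :=
  (∫ t, g t ^ 2) + κ * (∫ t, u t ^ 2) - ∫ t, W t * u t ^ 2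

/-- The symmetric matrix of the form `q1` on a finite family. -/
noncomputable def qM {n : ℕ} (W : ℝ → ℝ) (κ : ℝ) (u g : Fin n → ℝ → ℝ) (a b : Fin n) : ℝ :=
  (∫ t, g a t * g b t) + κ * (∫ t, u a t * u b t) - ∫ t, W t * (u a t * u b t)

/-- The sharp constant of the one dimensional inequality. -/
noncomputable def cLT : ℝ := 4 / (3 * √3 * π)

end Pool.Agent.Helper970.Rad
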