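import Pool.Agent.Helper970.Rad.Defs

set_option autoImplicit false

open MeasureTheory Set Metric Real
open scoped RealInnerProductSpace ENNReal ContDiff

namespace Pool.Agent.Helper970.Rad



/-- the exponential as a measurable equivalence onto the half line -/
noncomputable def plE : ℝ ≃ᵐ Ioi (0 : ℝ) := Real.expOrderIso.toHomeomorph.toMeasurableEquiv

theorem plE_coe (t : ℝ) : ((plE t : Ioi (0 : ℝ)) : ℝ) = exp t := rfl

/-- the measure `e^{3t} dt` -/
noncomputable def plM : Measure ℝ :=
  (volume : Measure ℝ).withDensity (fun t => ENNReal.ofReal (exp (3 * t)))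

instance plM_sf : SFinite plM := by unfold plM; infer_instance

theorem plE_mp : MeasurePreserving plE plM (Measure.volumeIoiPow 2) := by
  refine ⟨plE.measurable, Measure.ext fun s hs => ?_⟩
  have hs' : MeasurableSet (plE ⁻¹' s) := plE.measurable hs
  have himg : Subtype.val '' s = exp '' (plE ⁻¹' s) := by
    ext r
    constructor
    · rintro ⟨x, hx, rfl⟩
      refine ⟨plE.symm x, ?_, ?_⟩
      · show plE (plE.symm x) ∈ s
        rw [plE.apply_symm_apply]; exact hx
      · rw [← plE_coe, plE.apply_symm_apply]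
    · rintro ⟨t, ht, rfl⟩
      exact ⟨plE t, ht, rfl⟩
  rw [Measure.map_apply plE.measurable hs, plM, withDensity_apply _ hs', Measure.volumeIoiPow,
    withDensity_apply _ hs,
    setLIntegral_subtype measurableSet_Ioi _ (fun a : ℝ => ENNReal.ofReal (a ^ 2)), himg,
    lintegral_image_eq_lintegral_abs_deriv_mul hs'
      (fun x _ => (Real.hasDerivAt_exp x).hasDerivWithinAt) (Real.exp_injective.injOn)]
  refine setLIntegral_congr_fun hs' (fun t _ => ?_)
  beta_reduce
  rw [← ENNReal.ofReal_mul (abs_nonneg _), abs_of_pos (exp_pos t), ← exp_nat_mul, ← exp_add]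
  congr 2
  push_cast
  ring

/-- the equivalence of the two products -/
noncomputable def plP : ℝ × sphere (0 : E3) 1 ≃ᵐ sphere (0 : E3) 1 × Ioi (0 : ℝ) :=
  (plE.prodCongr (MeasurableEquiv.refl _)).trans MeasurableEquiv.prodComm

theorem plP_mp : MeasurePreserving plP (plM.prod sig) (sig.prod (Measure.volumeIoiPow 2)) := by
  have h1 : MeasurePreserving (Prod.map plE (id : sphere (0 : E3) 1 → sphere (0 : E3) 1))
      (plM.prod sig) ((Measure.volumeIoiPow 2).prod sig) := plE_mp.prod (MeasurePreserving.id _)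
  have h2 : MeasurePreserving Prod.swap ((Measure.volumeIoiPow 2).prod sig)
      (sig.prod (Measure.volumeIoiPow 2)) := Measure.measurePreserving_swap
  exact h2.comp h1

theorem polar_log (F : E3 → ℝ) (hF : Integrable F) :
    Integrable (fun p : ℝ × sphere (0 : E3) 1 => exp (3 * p.1) * F (exp p.1 • (p.2 : E3)))
      (volume.prod sig) ∧
    ∫ x, F x = ∫ p : ℝ × sphere (0 : E3) 1, exp (3 * p.1) * F (exp p.1 • (p.2 : E3))
      ∂(volume.prod sig) := by
  have hdim : Module.finrank ℝ E3 - 1 = 2 := by simp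
  have hmp := (volume : Measure E3).measurePreserving_homeomorphUnitSphereProd
  rw [hdim] at hmp
  let G : sphere (0 : E3) 1 × Ioi (0 : ℝ) → ℝ := fun q => F ((q.2 : ℝ) • (q.1 : E3))
  have hGF : ∀ x : ({(0 : E3)}ᶜ : Set E3), G (homeomorphUnitSphereProd E3 x) = F x := by
    intro x
    have hx : (x : E3) ≠ 0 := x.2
    have hn : 0 < ‖(x : E3)‖ := norm_pos_iff.2 hx
    have h1 : ((homeomorphUnitSphereProd E3 x).2 : ℝ) = ‖(x : E3)‖ := by simp
    have h2 : ((homeomorphUnitSphereProd E3 x).1 : E3) = ‖(x : E3)‖⁻¹ • (x : E3) := by simp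
    show F (((homeomorphUnitSphereProd E3 x).2 : ℝ) •
      ((homeomorphUnitSphereProd E3 x).1 : E3)) = F x
    rw [h1, h2, smul_smul, mul_inv_cancel₀ hn.ne', one_smul]
  have hcomp : (G ∘ homeomorphUnitSphereProd E3) = fun x : ({(0 : E3)}ᶜ : Set E3) => F x :=
    funext hGF
  have hFs : Integrable (fun x : ({(0 : E3)}ᶜ : Set E3) => F x)
      ((volume : Measure E3).comap (↑)) := by
    have h1 := (integrableOn_iff_comap_subtypeVal (f := F) (μ := (volume : Measure E3))
      (measurableSet_singleton (0 : E3)).compl).1 hF.integrableOn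
    exact h1
  have hGi : Integrable G (sig.prod (Measure.volumeIoiPow 2)) := by
    rw [← hcomp] at hFs
    exact (hmp.integrable_comp_emb (Homeomorph.measurableEmbedding _)).1 hFs
  have hI1 : ∫ x, F x = ∫ q, G q ∂(sig.prod (Measure.volumeIoiPow 2)) := by
    have h1 := hmp.integral_comp (Homeomorph.measurableEmbedding _) G
    have h2 : ∫ x : ({(0 : E3)}ᶜ : Set E3), F x ∂((volume : Measure E3).comap (↑))
        = ∫ x, F x := by
      rw [integral_subtype_comap (measurableSet_singleton _).compl F, restrict_compl_singleton]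
    rw [← h2]
    refine Eq.trans ?_ h1
    exact integral_congr_ae (Filter.Eventually.of_forall (fun x => (hGF x).symm))
  have hGi2 : Integrable (G ∘ plP) (plM.prod sig) :=
    (plP_mp.integrable_comp_emb plP.measurableEmbedding).2 hGi
  have hI2 : ∫ p, G (plP p) ∂(plM.prod sig) = ∫ q, G q ∂(sig.prod (Measure.volumeIoiPow 2)) :=
    plP_mp.integral_comp plP.measurableEmbedding G
  have hmeas : Measurable (fun t : ℝ => ENNReal.ofReal (exp (3 * t))) := by fun_prop
  have hwd : plM.prod sig = ((volume : Measure ℝ).prod sig).withDensity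
      (fun p => ENNReal.ofReal (exp (3 * p.1))) := by
    unfold plM
    rw [prod_withDensity_left hmeas]
  rw [hwd] at hGi2 hI2
  have hmeas2 : Measurable (fun p : ℝ × sphere (0 : E3) 1 => ENNReal.ofReal (exp (3 * p.1))) :=
    hmeas.comp measurable_fst
  have hfun : (fun p : ℝ × sphere (0 : E3) 1 =>
      (ENNReal.ofReal (exp (3 * p.1))).toReal • (G ∘ plP) p)
      = fun p => exp (3 * p.1) * F (exp p.1 • (p.2 : E3)) := by
    funext p
    rw [ENNReal.toReal_ofReal (exp_pos _).le, smul_eq_mul]
    rfl
  rw [integrable_withDensity_iff_integrable_smul' hmeas2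
    (Filter.Eventually.of_forall (fun p => ENNReal.ofReal_lt_top)), hfun] at hGi2
  refine ⟨hGi2, ?_⟩
  rw [hI1, ← hI2, integral_withDensity_eq_integral_toReal_smul₀ hmeas2.aemeasurable
    (Filter.Eventually.of_forall (fun p => ENNReal.ofReal_lt_top))]
  exact integral_congr_ae (Filter.Eventually.of_forall (fun p => congrFun hfun p))

end Pool.Agent.Helper970.Rad
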