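import Pool.Agent.Helper970.Rad.Defs
import Pool.Agent.Helper970.Rad.P_polar_log

set_option autoImplicit false

open MeasureTheory Set Metric Real
open scoped RealInnerProductSpace ENNReal ContDiff

namespace Pool.Agent.Helper970.Rad



theorem Wt_int (w : ℝ → ℝ) (hw : Measurable w) (hw0 : ∀ r, 0 ≤ w r)
    (hi : Integrable (fun x : E3 => w ‖x‖ ^ (3 / 2 : ℝ))) :
    MemLp (Wt w) (3 / 2) ∧
    ∫ x : E3, w ‖x‖ ^ (3 / 2 : ℝ) = 4 * π * ∫ t, Wt w t ^ (3 / 2 : ℝ) := by
  obtain ⟨hp1, hp2⟩ := polar_log (fun x => w ‖x‖ ^ (3 / 2 : ℝ)) hi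
  have hpt : ∀ p : ℝ × sphere (0 : E3) 1, exp (3 * p.1) * w ‖exp p.1 • (p.2 : E3)‖ ^ (3 / 2 : ℝ) =
      Wt w p.1 ^ (3 / 2 : ℝ) := by
    intro p
    have hn : ‖exp p.1 • (p.2 : E3)‖ = exp p.1 := by
      rw [norm_smul, norm_eq_of_mem_sphere, mul_one, Real.norm_eq_abs, abs_of_pos (exp_pos _)]
    rw [hn, Wt, Real.mul_rpow (exp_pos _).le (hw0 _), ← Real.exp_mul]
    congr 2
    ring
  have hp1' : Integrable (fun p : ℝ × sphere (0 : E3) 1 => Wt w p.1 ^ (3 / 2 : ℝ))
      (volume.prod sig) := by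
    refine hp1.congr (Filter.Eventually.of_forall fun p => ?_)
    exact hpt p
  have hsig : sig.real univ = 4 * π := by
    unfold sig
    rw [Measure.toSphere_real_apply_univ, measureReal_def, EuclideanSpace.volume_ball_fin_three]
    simp [finrank_euclideanSpace]
    ring_nf
    rw [ENNReal.toReal_ofReal (by positivity)]
    ring
  have h4 : (0:ℝ) < 4 * π := by positivity
  have hin : ∀ t : ℝ, ∫ _ξ : sphere (0 : E3) 1, Wt w t ^ (3 / 2 : ℝ) ∂sig =
      (4 * π) * Wt w t ^ (3 / 2 : ℝ) := by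
    intro t
    rw [integral_const, hsig, smul_eq_mul]
  have hWt0 : ∀ t, 0 ≤ Wt w t := fun t => mul_nonneg (exp_pos _).le (hw0 _)
  have hWi : Integrable (fun t => Wt w t ^ (3 / 2 : ℝ)) := by
    have h5 := hp1'.integral_prod_left
    simp only [hin] at h5
    have h6 := h5.const_mul (4 * π)⁻¹
    refine h6.congr (Filter.Eventually.of_forall fun t => ?_)
    simp only
    rw [← mul_assoc, inv_mul_cancel₀ h4.ne', one_mul]
  have hWm : Measurable (Wt w) := by
    unfold Wt
    exact ((measurable_id.const_mul 2).exp).mul (hw.comp measurable_exp)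
  constructor
  · refine (integrable_norm_rpow_iff (μ := (volume : Measure ℝ)) hWm.aestronglyMeasurable
      (p := (3/2 : ENNReal)) (by simp) (by finiteness)).mp ?_
    refine hWi.congr (Filter.Eventually.of_forall fun t => ?_)
    simp only
    rw [Real.norm_eq_abs, abs_of_nonneg (hWt0 t)]
    congr 1
    simp
  · rw [hp2]
    rw [integral_congr_ae (Filter.Eventually.of_forall hpt), integral_prod _ hp1']
    simp only [hin]
    rw [integral_const_mul]

end Pool.Agent.Helper970.Rad
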