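import Pool.Agent.Helper970.Rad.Defs

set_option autoImplicit false

open MeasureTheory Set Metric Real
open scoped RealInnerProductSpace ENNReal ContDiff

namespace Pool.Agent.Helper970.Rad



theorem int_W_sq_bdd (u g : ℝ → ℝ) (h : Sob u g) (x : ℝ) :
    |u x| ≤ 1 + ((∫ t, u t ^ 2) + ∫ t, g t ^ 2) / 2 := by
  have hu2 : Integrable (fun t => u t ^ 2) := h.memLp.integrable_sq
  have hg2 : Integrable (fun t => g t ^ 2) := h.memLp_deriv.integrable_sq
  have hul : LocallyIntegrable u := h.memLp.locallyIntegrable (by norm_num)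
  have hgl : LocallyIntegrable g := h.memLp_deriv.locallyIntegrable (by norm_num)
  have hui : ∀ a b : ℝ, IntervalIntegrable u volume a b := fun a b =>
    (hul.integrableOn_isCompact isCompact_uIcc).intervalIntegrable
  have hgi : ∀ a b : ℝ, IntervalIntegrable g volume a b := fun a b =>
    (hgl.integrableOn_isCompact isCompact_uIcc).intervalIntegrable
  have hb : ∀ f : ℝ → ℝ, Integrable (fun t => f t ^ 2) → (∀ a b : ℝ, IntervalIntegrable f volume a b) →
      ∫ t in x..(x + 1), |f t| ≤ 1 / 2 + (∫ t, f t ^ 2) / 2 := by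
    intro f hf2 hfi
    have h1 : ∫ t in x..(x + 1), |f t| ≤ ∫ t in x..(x + 1), (1 / 2 + f t ^ 2 / 2) := by
      apply intervalIntegral.integral_mono_on (by linarith) (hfi _ _).abs
      · exact (continuous_const.intervalIntegrable _ _).add ((hf2.intervalIntegrable).div_const 2)
      · intro t _
        nlinarith [sq_nonneg (|f t| - 1), sq_abs (f t)]
    have h2 : ∫ t in x..(x + 1), (1 / 2 + f t ^ 2 / 2) = 1 / 2 + (∫ t in x..(x + 1), f t ^ 2) / 2 := by
      rw [intervalIntegral.integral_add (continuous_const.intervalIntegrable _ _)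
        ((hf2.intervalIntegrable).div_const 2), intervalIntegral.integral_const,
        intervalIntegral.integral_div]
      simp
    have h3 : ∫ t in x..(x + 1), f t ^ 2 ≤ ∫ t, f t ^ 2 := by
      rw [intervalIntegral.integral_of_le (by linarith)]
      exact setIntegral_le_integral hf2 (Filter.Eventually.of_forall fun t => sq_nonneg _)
    linarith
  have h1 := hb u hu2 hui
  have h2 := hb g hg2 hgi
  have h3 : ∀ y ∈ Icc x (x + 1), |u x| ≤ |u y| + ∫ t in x..(x + 1), |g t| := by
    intro y hy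
    have e1 := h.integral_deriv x y
    have e2 : |∫ t in x..y, g t| ≤ ∫ t in x..y, |g t| :=
      intervalIntegral.abs_integral_le_integral_abs hy.1
    have e3 : ∫ t in x..y, |g t| ≤ ∫ t in x..(x + 1), |g t| := by
      apply intervalIntegral.integral_mono_interval le_rfl hy.1 hy.2
      · exact Filter.Eventually.of_forall fun t => abs_nonneg _
      · exact (hgi _ _).abs
    have e4 : u x = u y - ∫ t in x..y, g t := by linarith
    have e5 : |u x| ≤ |u y| + |∫ t in x..y, g t| := by
      rw [e4]; exact abs_sub _ _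
    linarith
  have h4 : ∫ _t in x..(x + 1), |u x| ≤ ∫ t in x..(x + 1), (|u t| + ∫ s in x..(x + 1), |g s|) := by
    apply intervalIntegral.integral_mono_on (by linarith) (continuous_const.intervalIntegrable _ _)
    · exact (hui _ _).abs.add (continuous_const.intervalIntegrable _ _)
    · exact h3
  rw [intervalIntegral.integral_add (hui _ _).abs (continuous_const.intervalIntegrable _ _)] at h4
  simp only [intervalIntegral.integral_const, add_sub_cancel_left, one_smul] at h4
  linarith

theorem int_W_sq (W : ℝ → ℝ) (hW : MemLp W (3 / 2)) (u g : ℝ → ℝ) (h : Sob u g) :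
    Integrable (fun t => W t * u t ^ 2) := by
  set C : ℝ := 1 + ((∫ t, u t ^ 2) + ∫ t, g t ^ 2) / 2 with hC
  have hub : ∀ x, |u x| ≤ C := int_W_sq_bdd u g h
  have hu2 : Integrable (fun t => u t ^ 2) := h.memLp.integrable_sq
  have hW2 : Integrable (fun t => ‖W t‖ ^ (3 / 2 : ℝ)) := by
    have h1 := hW.integrable_norm_rpow (by norm_num) (by
      exact ENNReal.div_ne_top (by norm_num) (by norm_num))
    have h2 : (3 / 2 : ℝ≥0∞).toReal = 3 / 2 := by simp
    rwa [h2] at h1
  have hdom : Integrable (fun t => ‖W t‖ ^ (3 / 2 : ℝ) + C ^ 4 * u t ^ 2) :=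
    hW2.add (hu2.const_mul _)
  refine hdom.mono' (hW.1.mul (h.memLp.1.pow 2)) (Filter.Eventually.of_forall fun t => ?_)
  have hy := Real.young_inequality_of_nonneg (abs_nonneg (W t)) (sq_nonneg (u t))
    (show Real.HolderConjugate (3 / 2) 3 from by
      constructor <;> norm_num)
  have e1 : ‖W t * u t ^ 2‖ = |W t| * u t ^ 2 := by
    rw [norm_mul, Real.norm_eq_abs, Real.norm_eq_abs, abs_of_nonneg (sq_nonneg (u t))]
  rw [e1, Real.norm_eq_abs]
  have e2 : (u t ^ 2) ^ (3 : ℝ) = (u t ^ 2) ^ 3 := by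
    rw [← Real.rpow_natCast]; norm_num
  have e3 : (u t ^ 2) ^ 3 ≤ C ^ 4 * u t ^ 2 := by
    have e4 : u t ^ 4 ≤ C ^ 4 := by
      have := pow_le_pow_left₀ (abs_nonneg (u t)) (hub t) 4
      have e5 : |u t| ^ 4 = u t ^ 4 := by
        rw [pow_abs, abs_of_nonneg (by positivity)]
      rwa [e5] at this
    calc (u t ^ 2) ^ 3 = u t ^ 4 * u t ^ 2 := by ring
      _ ≤ C ^ 4 * u t ^ 2 := mul_le_mul_of_nonneg_right e4 (sq_nonneg _)
  have e6 : 0 ≤ |W t| ^ (3 / 2 : ℝ) := by positivity
  have e7 : 0 ≤ (u t ^ 2) ^ 3 := by positivity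
  rw [e2] at hy
  have e8 : |W t| ^ (3 / 2 : ℝ) / (3 / 2) ≤ |W t| ^ (3 / 2 : ℝ) := by linarith
  have e9 : (u t ^ 2) ^ 3 / 3 ≤ (u t ^ 2) ^ 3 := by linarith
  linarith

end Pool.Agent.Helper970.Rad
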