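import Pool.Agent.Helper970.Rad.Defs
import Pool.Agent.Helper970.Rad.P_int_W_sq

set_option autoImplicit false

open MeasureTheory Set Metric Real
open scoped RealInnerProductSpace ENNReal ContDiff

namespace Pool.Agent.Helper970.Rad



theorem cplx_ii {g : ℝ → ℝ} (hg : MemLp g 2) (a b : ℝ) : IntervalIntegrable g volume a b := by
  rw [intervalIntegrable_iff]
  exact ((hg.locallyIntegrable (by norm_num)).integrableOn_isCompact isCompact_uIcc).mono_set
    uIoc_subset_uIcc

theorem cplx_sob {n : ℕ} (u g : Fin n → ℝ → ℝ) (hs : ∀ a, Sob (u a) (g a)) (c : Fin n → ℝ) :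
    Sob (fun t => ∑ a, c a * u a t) (fun t => ∑ a, c a * g a t) := by
  refine ⟨?_, ?_, ?_⟩
  · exact memLp_finsetSum _ (fun a _ => (hs a).memLp.const_mul (c a))
  · exact memLp_finsetSum _ (fun a _ => (hs a).memLp_deriv.const_mul (c a))
  · intro x y
    rw [intervalIntegral.integral_finsetSum
      (fun a _ => (cplx_ii (hs a).memLp_deriv x y).const_mul (c a)), ← Finset.sum_sub_distrib]
    apply Finset.sum_congr rfl
    intro a _
    rw [intervalIntegral.integral_const_mul, ← (hs a).integral_deriv x y]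
    ring

theorem cplx_csob {u u' g g' : ℝ → ℝ} (h : Sob u g) (h' : Sob u' g') :
    CSob (fun t => (u t : ℂ) + Complex.I * (u' t : ℂ))
      (fun t => (g t : ℂ) + Complex.I * (g' t : ℂ)) := by
  refine ⟨?_, ?_, ?_⟩
  · exact (h.memLp.ofReal (K := ℂ)).add ((h'.memLp.ofReal (K := ℂ)).const_mul Complex.I)
  · exact (h.memLp_deriv.ofReal (K := ℂ)).add ((h'.memLp_deriv.ofReal (K := ℂ)).const_mul Complex.I)
  · intro x y
    have i1 : IntervalIntegrable (fun t => (g t : ℂ)) volume x y :=
      ⟨(cplx_ii h.memLp_deriv x y).1.ofReal, (cplx_ii h.memLp_deriv x y).2.ofReal⟩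
    have i2 : IntervalIntegrable (fun t => (g' t : ℂ)) volume x y :=
      ⟨(cplx_ii h'.memLp_deriv x y).1.ofReal, (cplx_ii h'.memLp_deriv x y).2.ofReal⟩
    rw [intervalIntegral.integral_add i1 (i2.const_mul Complex.I),
      intervalIntegral.integral_const_mul, intervalIntegral.integral_ofReal,
      intervalIntegral.integral_ofReal, ← h.integral_deriv x y, ← h'.integral_deriv x y]
    push_cast
    ring

theorem cplx_sq (x y : ℝ) : ‖(x : ℂ) + Complex.I * (y : ℂ)‖ ^ 2 = x ^ 2 + y ^ 2 := by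
  rw [← Complex.normSq_eq_norm_sq, Complex.normSq_apply]
  simp
  ring

theorem complexify {n : ℕ} (u g : Fin n → ℝ → ℝ) (hs : ∀ a, Sob (u a) (g a)) (W : ℝ → ℝ)
    (hW : MemLp W (3 / 2)) (κ : ℝ) (F : Submodule ℝ (Fin n → ℝ))
    (hF : ∀ c ∈ F, c ≠ 0 →
      q1 W κ (fun t => ∑ a, c a * u a t) (fun t => ∑ a, c a * g a t) < 0) :
    ∃ X : Submodule ℂ (ℝ → ℂ), Module.finrank ℂ X = Module.finrank ℝ F ∧
      ∀ f ∈ X, ∃ h, CSob f h ∧
        (∫ t, ‖h t‖ ^ 2) + κ * (∫ t, ‖f t‖ ^ 2) ≤ ∫ t, W t * ‖f t‖ ^ 2 := by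
  classical
  have hq : ∀ c ∈ F, q1 W κ (fun t => ∑ a, c a * u a t) (fun t => ∑ a, c a * g a t) ≤ 0 := by
    intro c hc
    by_cases h0 : c = 0
    · subst h0
      simp [q1]
    · exact (hF c hc h0).le
  have hinj : ∀ c ∈ F, (∀ t, ∑ a, c a * u a t = 0) → c = 0 := by
    intro c hc h0
    by_contra hne
    have h1 := hF c hc hne
    unfold q1 at h1
    simp only [h0] at h1
    have h2 : 0 ≤ ∫ t, (∑ a, c a * g a t) ^ 2 := integral_nonneg (fun t => sq_nonneg _)
    simp at h1
    linarith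
  let b := Module.finBasis ℝ F
  let v : Fin (Module.finrank ℝ F) → (ℝ → ℂ) := fun j t =>
    ((∑ a, (b j : Fin n → ℝ) a * u a t : ℝ) : ℂ)
  -- real and imaginary parts of a combination
  have hcomb : ∀ (z : Fin (Module.finrank ℝ F) → ℂ) (t : ℝ), (∑ j, z j • v j) t =
      ((∑ a, (((∑ j, (z j).re • b j : F) : Fin n → ℝ) a) * u a t : ℝ) : ℂ) +
      Complex.I * ((∑ a, (((∑ j, (z j).im • b j : F) : Fin n → ℝ) a) * u a t : ℝ) : ℂ) := by
    intro z t
    have e1 : ∀ w : Fin (Module.finrank ℝ F) → ℝ,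
        ∑ a, (((∑ j, w j • b j : F) : Fin n → ℝ) a) * u a t
        = ∑ j, w j * ∑ a, (b j : Fin n → ℝ) a * u a t := by
      intro w
      have e2 : ∀ a, ((∑ j, w j • b j : F) : Fin n → ℝ) a = ∑ j, w j * (b j : Fin n → ℝ) a := by
        intro a
        rw [AddSubmonoidClass.coe_finset_sum, Finset.sum_apply]
        rfl
      simp_rw [e2, Finset.sum_mul, Finset.mul_sum]
      rw [Finset.sum_comm]
      apply Finset.sum_congr rfl
      intro j _
      apply Finset.sum_congr rfl
      intro a _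
      ring
    rw [e1, e1, Finset.sum_apply]
    push_cast
    rw [Finset.mul_sum, ← Finset.sum_add_distrib]
    apply Finset.sum_congr rfl
    intro j _
    have e3 : (z j • v j) t = z j * ((∑ a, (b j : Fin n → ℝ) a * u a t : ℝ) : ℂ) := rfl
    rw [e3]
    conv_lhs => rw [← Complex.re_add_im (z j)]
    push_cast
    ring
  have hli : LinearIndependent ℂ v := by
    rw [Fintype.linearIndependent_iff]
    intro z hz
    have h1 : ∀ t, (∑ a, (((∑ j, (z j).re • b j : F) : Fin n → ℝ) a) * u a t = 0) ∧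
        (∑ a, (((∑ j, (z j).im • b j : F) : Fin n → ℝ) a) * u a t = 0) := by
      intro t
      have h2 := hcomb z t
      rw [hz] at h2
      have h3 := congrArg Complex.re h2
      have h4 := congrArg Complex.im h2
      simp only [Pi.zero_apply, Complex.zero_re, Complex.zero_im, Complex.add_re, Complex.add_im,
        Complex.ofReal_re, Complex.ofReal_im, Complex.mul_re, Complex.mul_im, Complex.I_re,
        Complex.I_im] at h3 h4
      constructor
      · linarith
      · linarith
    have h5 := hinj _ (∑ j, (z j).re • b j : F).2 (fun t => (h1 t).1)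
    have h6 := hinj _ (∑ j, (z j).im • b j : F).2 (fun t => (h1 t).2)
    have h7 : (∑ j, (z j).re • b j : F) = 0 := Subtype.ext h5
    have h8 : (∑ j, (z j).im • b j : F) = 0 := Subtype.ext h6
    have h9 := (Fintype.linearIndependent_iff.mp b.linearIndependent) _ h7
    have h10 := (Fintype.linearIndependent_iff.mp b.linearIndependent) _ h8
    intro j
    exact Complex.ext (h9 j) (h10 j)
  refine ⟨Submodule.span ℂ (Set.range v), ?_, ?_⟩
  · rw [finrank_span_eq_card hli, Fintype.card_fin]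
  · intro f hf
    rw [Submodule.mem_span_range_iff_exists_fun] at hf
    obtain ⟨z, hz⟩ := hf
    set c : F := ∑ j, (z j).re • b j with hc
    set c' : F := ∑ j, (z j).im • b j with hc'
    have hfeq : f = fun t => ((∑ a, (c : Fin n → ℝ) a * u a t : ℝ) : ℂ) +
        Complex.I * ((∑ a, (c' : Fin n → ℝ) a * u a t : ℝ) : ℂ) := by
      funext t
      rw [← hz]
      exact hcomb z t
    have s1 := cplx_sob u g hs (c : Fin n → ℝ)
    have s2 := cplx_sob u g hs (c' : Fin n → ℝ)
    refine ⟨fun t => ((∑ a, (c : Fin n → ℝ) a * g a t : ℝ) : ℂ) +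
        Complex.I * ((∑ a, (c' : Fin n → ℝ) a * g a t : ℝ) : ℂ), ?_, ?_⟩
    · rw [hfeq]
      exact cplx_csob s1 s2
    · rw [hfeq]
      simp_rw [cplx_sq, mul_add]
      rw [integral_add s1.memLp_deriv.integrable_sq s2.memLp_deriv.integrable_sq,
        integral_add s1.memLp.integrable_sq s2.memLp.integrable_sq,
        integral_add (int_W_sq W hW _ _ s1) (int_W_sq W hW _ _ s2)]
      have q1' := hq _ c.2
      have q2' := hq _ c'.2
      unfold q1 at q1' q2'
      linarith

end Pool.Agent.Helper970.Rad
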