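import Pool.Agent.Helper970.Rad.Defs

set_option autoImplicit false

open MeasureTheory Set Metric Real
open scoped RealInnerProductSpace ENNReal ContDiff

namespace Pool.Agent.Helper970.Rad

theorem const_eq : (3 * π) ^ (-(3 / 2 : ℝ)) * Real.Gamma 3 / Real.Gamma (3 / 2) =
    4 * cLT / (4 * π) := by
  have hπ := pi_pos
  have h1 : Real.Gamma 3 = 2 := by
    have h0 := Real.Gamma_nat_eq_factorial 2
    have h00 : ((2 : ℕ) : ℝ) + 1 = 3 := by norm_num
    rw [h00] at h0
    rw [h0]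
    simp [Nat.factorial]
  have h2 : Real.Gamma (3 / 2) = √π / 2 := by
    have h3 : (3 / 2 : ℝ) = 1 / 2 + 1 := by norm_num
    rw [h3, Real.Gamma_add_one (by norm_num), Real.Gamma_one_half_eq]
    ring
  have h3 : (3 * π) ^ (-(3 / 2 : ℝ)) = (3 * π * (√3 * √π))⁻¹ := by
    rw [Real.rpow_neg (by positivity)]
    congr 1
    have h4 : (3 / 2 : ℝ) = 1 + 1 / 2 := by norm_num
    rw [h4, Real.rpow_add (by positivity), Real.rpow_one, ← Real.sqrt_eq_rpow,
      Real.sqrt_mul (by norm_num)]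
  rw [h1, h2, h3, cLT]
  have h5 : √π ^ 2 = π := Real.sq_sqrt hπ.le
  have h6 : 0 < √π := Real.sqrt_pos.2 hπ
  have h7 : 0 < √3 := Real.sqrt_pos.2 (by norm_num)
  field_simp
  rw [h5]
  ring

end Pool.Agent.Helper970.Rad
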