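import Pool.Agent.Helper970.Rad.Defs
import Pool.Agent.Helper490.LTEig

set_option autoImplicit false

open MeasureTheory Set Metric Real
open scoped RealInnerProductSpace ENNReal ContDiff

namespace Pool.Agent.Helper970.Rad

open Pool.Helper490.Eig

lemma cLT_eq : cLT = L11 := rfl

lemma max_negneg {W : ℝ → ℝ} (hW0 : ∀ t, 0 ≤ W t) (t : ℝ) : max (-(fun s => -W s) t) 0 = W t := by
  simp [hW0 t]

lemma int_neg_pot (W : ℝ → ℝ) (f : ℝ → ℂ) :
    ∫ x, (fun s => -W s) x * ‖f x‖ ^ 2 = - ∫ x, W x * ‖f x‖ ^ 2 := by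
  rw [← integral_neg]
  congr 1
  funext x
  simp

/-- One normalised function. -/
lemma one_bound (W : ℝ → ℝ) (hW : MemLp W (3 / 2)) (hW0 : ∀ t, 0 ≤ W t) (u g : ℝ → ℂ)
    (h : IsSobolev u g) :
    (∫ t, W t * ‖u t‖ ^ 2) - (∫ t, ‖g t‖ ^ 2) ≤
      (L11 * ∫ t, W t ^ (3 / 2 : ℝ)) * ∫ t, ‖u t‖ ^ 2 := by
  have hI : 0 ≤ ∫ t, W t ^ (3 / 2 : ℝ) := integral_nonneg fun t => Real.rpow_nonneg (hW0 t) _
  have hL : 0 ≤ L11 := by unfold L11; positivity
  by_cases hu : u = 0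
  · subst hu
    have h0 : 0 ≤ ∫ t, ‖g t‖ ^ 2 := integral_nonneg fun t => sq_nonneg _
    simp only [Pi.zero_apply, norm_zero, ne_eq, OfNat.ofNat_ne_zero, not_false_eq_true, zero_pow,
      mul_zero, integral_zero]
    linarith
  · have hpos := h.integral_pos hu
    set m : ℝ := ∫ t, ‖u t‖ ^ 2 with hm
    set c : ℝ := (√m)⁻¹ with hc
    have hc2 : c ^ 2 = m⁻¹ := by rw [hc, inv_pow, Real.sq_sqrt hpos.le]
    have hfam := family_bound (N := 1) (fun _ => fun x => (c : ℂ) * u x)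
      (fun _ => fun x => (c : ℂ) * g x) (fun _ => h.const_mul c) (by
        intro i j
        have hij : i = j := Subsingleton.elim _ _
        rw [if_pos hij]
        have h1 : ∀ x, star ((c : ℂ) * u x) * ((c : ℂ) * u x) = ((m⁻¹ * ‖u x‖ ^ 2 : ℝ) : ℂ) := by
          intro x
          have h2 : ‖(c : ℂ) * u x‖ ^ 2 = m⁻¹ * ‖u x‖ ^ 2 := by
            rw [norm_mul, mul_pow, Complex.norm_real, Real.norm_eq_abs, sq_abs, hc2]
          rw [← h2, ← Complex.normSq_eq_norm_sq, mul_comm]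
          exact Complex.mul_conj _
        simp only [h1]
        rw [integral_complex_ofReal, integral_const_mul, ← hm, inv_mul_cancel₀ hpos.ne']
        simp) (fun s => -W s) hW.neg
    have e1 : ∀ x, ‖(c : ℂ) * u x‖ ^ 2 = m⁻¹ * ‖u x‖ ^ 2 := fun x => by
      rw [norm_mul, mul_pow, Complex.norm_real, Real.norm_eq_abs, sq_abs, hc2]
    have e2 : ∀ x, ‖(c : ℂ) * g x‖ ^ 2 = m⁻¹ * ‖g x‖ ^ 2 := fun x => by
      rw [norm_mul, mul_pow, Complex.norm_real, Real.norm_eq_abs, sq_abs, hc2]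
    simp only [Finset.univ_unique, Finset.sum_const, Finset.card_singleton, one_smul, e1, e2] at hfam
    have e3 : ∀ x, -W x * (m⁻¹ * ‖u x‖ ^ 2) = -(m⁻¹ * (W x * ‖u x‖ ^ 2)) := fun x => by ring
    simp only [e3] at hfam
    rw [integral_const_mul, integral_neg, integral_const_mul] at hfam
    have e4 : ∫ x, max (- -W x) 0 ^ ((3:ℝ) / 2) = ∫ t, W t ^ (3 / 2 : ℝ) := by
      congr 1
      funext x
      rw [neg_neg, max_eq_left (hW0 x)]
    rw [e4] at hfam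
    have h5 : m⁻¹ * ((∫ t, W t * ‖u t‖ ^ 2) - (∫ t, ‖g t‖ ^ 2)) ≤ L11 * ∫ t, W t ^ (3 / 2 : ℝ) := by
      linarith
    rw [inv_mul_le_iff₀ hpos] at h5
    linarith [mul_comm m (L11 * ∫ t, W t ^ (3 / 2 : ℝ))]

theorem scalar_pos (W : ℝ → ℝ) (hW : MemLp W (3 / 2)) (hW0 : ∀ t, 0 ≤ W t) (κ : ℝ)
    (hκ : cLT * ∫ t, W t ^ (3 / 2 : ℝ) ≤ κ) (u g : ℝ → ℝ) (h : Sob u g) :
    0 ≤ q1 W κ u g := by
  have hC : IsSobolev (fun t => (u t : ℂ)) (fun t => (g t : ℂ)) := by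
    refine ⟨h.memLp.ofReal, h.memLp_deriv.ofReal, fun a b => ?_⟩
    rw [intervalIntegral.integral_ofReal, ← h.integral_deriv]
    push_cast
    ring
  have h1 := one_bound W hW hW0 _ _ hC
  have e1 : ∀ t, ‖((u t : ℝ) : ℂ)‖ ^ 2 = u t ^ 2 := fun t => by
    rw [Complex.norm_real, Real.norm_eq_abs, sq_abs]
  have e2 : ∀ t, ‖((g t : ℝ) : ℂ)‖ ^ 2 = g t ^ 2 := fun t => by
    rw [Complex.norm_real, Real.norm_eq_abs, sq_abs]
  simp only [e1, e2] at h1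
  rw [cLT_eq] at hκ
  have h2 : 0 ≤ ∫ t, u t ^ 2 := integral_nonneg fun t => sq_nonneg _
  have h3 := mul_le_mul_of_nonneg_right hκ h2
  unfold q1
  linarith

end Pool.Agent.Helper970.Rad
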