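import Pool.Agent.Helper970.Rad.Defs
import Pool.Agent.Helper970.Rad.P_scalar_pos
import Pool.Agent.Helper490.LTEig

set_option autoImplicit false

open MeasureTheory Set Metric Real
open scoped RealInnerProductSpace ENNReal ContDiff

namespace Pool.Agent.Helper970.Rad

open Pool.Helper490.Eig

lemma minMax_bddBelow (W : ℝ → ℝ) (hW : MemLp W (3 / 2)) (hW0 : ∀ t, 0 ≤ W t) (n : ℕ) :
    BddBelow {lam : ℝ | ∃ X : Submodule ℂ (ℝ → ℂ), Module.finrank ℂ X = n + 1 ∧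
      ∀ u ∈ X, ∃ g, IsSobolev u g ∧
      (∫ x, ‖g x‖ ^ 2) + ∫ x, (fun s => -W s) x * ‖u x‖ ^ 2 ≤ lam * ∫ x, ‖u x‖ ^ 2} := by
  refine ⟨-(L11 * ∫ t, W t ^ (3 / 2 : ℝ)), ?_⟩
  rintro lam ⟨X, hX, hX2⟩
  have hne : X ≠ ⊥ := by
    intro h
    rw [h, finrank_bot] at hX
    omega
  obtain ⟨u, huX, hu0⟩ := (Submodule.ne_bot_iff _).1 hne
  obtain ⟨g, hg, hq⟩ := hX2 u huX
  have hpos := hg.integral_pos hu0
  have h1 := one_bound W hW hW0 u g hg
  rw [int_neg_pot] at hq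
  by_contra hlt
  rw [not_le] at hlt
  have := mul_lt_mul_of_pos_right hlt hpos
  linarith

lemma exists_sub (X : Submodule ℂ (ℝ → ℂ)) (n : ℕ) (hn : n < Module.finrank ℂ X) :
    ∃ Y : Submodule ℂ (ℝ → ℂ), Y ≤ X ∧ Module.finrank ℂ Y = n + 1 := by
  have hfd : FiniteDimensional ℂ X := FiniteDimensional.of_finrank_pos (by omega)
  let b := Module.finBasis ℂ X
  have hli : LinearIndependent ℂ (fun i : Fin (n + 1) => ((b (Fin.castLE hn i) : X) : ℝ → ℂ)) := by
    have h1 : LinearIndependent ℂ (fun i => ((b i : X) : ℝ → ℂ)) :=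
      b.linearIndependent.map' X.subtype (Submodule.ker_subtype X)
    exact h1.comp _ (Fin.castLE_injective hn)
  refine ⟨Submodule.span ℂ (Set.range fun i : Fin (n + 1) => ((b (Fin.castLE hn i) : X) : ℝ → ℂ)),
    ?_, ?_⟩
  · rw [Submodule.span_le]
    rintro _ ⟨i, rfl⟩
    exact (b (Fin.castLE hn i)).2
  · rw [finrank_span_eq_card hli, Fintype.card_fin]

lemma minMax_le (W : ℝ → ℝ) (hW : MemLp W (3 / 2)) (hW0 : ∀ t, 0 ≤ W t) (κ : ℝ)
    (X : Submodule ℂ (ℝ → ℂ))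
    (hX : ∀ f ∈ X, ∃ h, CSob f h ∧
        (∫ t, ‖h t‖ ^ 2) + κ * (∫ t, ‖f t‖ ^ 2) ≤ ∫ t, W t * ‖f t‖ ^ 2) (n : ℕ)
    (hn : n < Module.finrank ℂ X) : minMax (fun s => -W s) n ≤ -κ := by
  obtain ⟨Y, hYX, hY⟩ := exists_sub X n hn
  refine csInf_le (minMax_bddBelow W hW hW0 n) ⟨Y, hY, fun u hu => ?_⟩
  obtain ⟨h, hh, hq⟩ := hX u (hYX hu)
  refine ⟨h, ⟨hh.memLp, hh.memLp_deriv, hh.integral_deriv⟩, ?_⟩
  rw [int_neg_pot]
  linarith

/-- The level sum. -/
lemma level_sum (K : ℕ) (P : ℕ → Prop) [DecidablePred P] (μ : ℝ) (hμ : 0 ≤ μ)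
    (h : ∀ l < K, P l → ((l : ℝ) + 1 / 2) ^ 2 ≤ μ) :
    ∑ l ∈ Finset.range K, (if P l then (2 * (l : ℝ) + 1) else 0) ≤ 4 * μ := by
  classical
  by_cases hP : ∃ l < K, P l
  · obtain ⟨m, hm⟩ : ∃ m, m ∈ (Finset.range K).filter P ∧ ∀ l ∈ (Finset.range K).filter P, l ≤ m := by
      have hne : ((Finset.range K).filter P).Nonempty := by
        obtain ⟨l, hl, hPl⟩ := hP
        exact ⟨l, Finset.mem_filter.2 ⟨Finset.mem_range.2 hl, hPl⟩⟩
      exact ⟨_, Finset.max'_mem _ hne, fun l hl => Finset.le_max' _ l hl⟩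
    obtain ⟨hm1, hm2⟩ := hm
    have h1 : ∑ l ∈ Finset.range K, (if P l then (2 * (l : ℝ) + 1) else 0) ≤
        ∑ l ∈ Finset.range (m + 1), (2 * (l : ℝ) + 1) := by
      rw [← Finset.sum_filter]
      refine Finset.sum_le_sum_of_subset_of_nonneg ?_ ?_
      · intro l hl
        exact Finset.mem_range.2 (Nat.lt_succ_of_le (hm2 l hl))
      · intro l _ _
        positivity
    have h2 : ∀ M : ℕ, ∑ l ∈ Finset.range M, (2 * (l : ℝ) + 1) = (M : ℝ) ^ 2 := by
      intro M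
      induction M with
      | zero => simp
      | succ M ih => rw [Finset.sum_range_succ, ih]; push_cast; ring
    rw [h2] at h1
    have h3 := h m (Finset.mem_range.1 (Finset.mem_filter.1 hm1).1) (Finset.mem_filter.1 hm1).2
    push_cast at h1
    have h4 : (0:ℝ) ≤ m := Nat.cast_nonneg m
    nlinarith
  · have h1 : ∑ l ∈ Finset.range K, (if P l then (2 * (l : ℝ) + 1) else 0) = 0 := by
      refine Finset.sum_eq_zero fun l hl => ?_
      rw [if_neg]
      intro hPl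
      exact hP ⟨l, Finset.mem_range.1 hl, hPl⟩
    rw [h1]
    positivity

theorem counting (W : ℝ → ℝ) (hW : MemLp W (3 / 2)) (hW0 : ∀ t, 0 ≤ W t) (K : ℕ)
    (X : ℕ → Submodule ℂ (ℝ → ℂ))
    (hX : ∀ l < K, ∀ f ∈ X l, ∃ h, CSob f h ∧
        (∫ t, ‖h t‖ ^ 2) + ((l : ℝ) + 1 / 2) ^ 2 * (∫ t, ‖f t‖ ^ 2) ≤ ∫ t, W t * ‖f t‖ ^ 2) :
    ∑ l ∈ Finset.range K, (2 * (l : ℝ) + 1) * Module.finrank ℂ (X l) ≤
      4 * cLT * ∫ t, W t ^ (3 / 2 : ℝ) := by
  classical
  set N : ℕ := ∑ l ∈ Finset.range K, Module.finrank ℂ (X l) with hN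
  have hle : ∀ l < K, Module.finrank ℂ (X l) ≤ N := fun l hl =>
    Finset.single_le_sum (f := fun l => Module.finrank ℂ (X l)) (fun _ _ => Nat.zero_le _)
      (Finset.mem_range.2 hl)
  have hmm := minMax_bound (fun s => -W s) hW.neg N
  have e4 : ∫ x, max (-(fun s => -W s) x) 0 ^ ((3:ℝ) / 2) = ∫ t, W t ^ (3 / 2 : ℝ) := by
    congr 1
    funext x
    rw [max_negneg hW0]
  rw [e4] at hmm
  have h1 : ∀ l < K, (Module.finrank ℂ (X l) : ℝ) =
      ∑ n ∈ Finset.range N, if n < Module.finrank ℂ (X l) then (1 : ℝ) else 0 := by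
    intro l hl
    rw [Finset.sum_ite, Finset.sum_const_zero, add_zero, Finset.sum_const, nsmul_eq_mul, mul_one]
    congr 1
    have h2 : (Finset.range N).filter (fun n => n < Module.finrank ℂ (X l)) =
        Finset.range (Module.finrank ℂ (X l)) := by
      ext n
      simp only [Finset.mem_filter, Finset.mem_range]
      constructor
      · exact fun h => h.2
      · exact fun h => ⟨lt_of_lt_of_le h (hle l hl), h⟩
    rw [h2, Finset.card_range]
  calc ∑ l ∈ Finset.range K, (2 * (l : ℝ) + 1) * Module.finrank ℂ (X l)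
      = ∑ l ∈ Finset.range K, ∑ n ∈ Finset.range N,
          (if n < Module.finrank ℂ (X l) then (2 * (l : ℝ) + 1) else 0) := by
        refine Finset.sum_congr rfl fun l hl => ?_
        rw [h1 l (Finset.mem_range.1 hl), Finset.mul_sum]
        refine Finset.sum_congr rfl fun n _ => ?_
        rw [mul_ite, mul_one, mul_zero]
    _ = ∑ n ∈ Finset.range N, ∑ l ∈ Finset.range K,
          (if n < Module.finrank ℂ (X l) then (2 * (l : ℝ) + 1) else 0) := Finset.sum_comm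
    _ ≤ ∑ n ∈ Finset.range N, 4 * max (-minMax (fun s => -W s) n) 0 := by
        refine Finset.sum_le_sum fun n _ => ?_
        refine level_sum K (fun l => n < Module.finrank ℂ (X l)) _ (le_max_right _ _) ?_
        intro l hl hn
        have h5 := minMax_le W hW hW0 _ (X l) (hX l hl) n hn
        exact le_trans (by linarith) (le_max_left _ _)
    _ = 4 * ∑ n ∈ Finset.range N, max (-minMax (fun s => -W s) n) 0 := by rw [Finset.mul_sum]
    _ ≤ 4 * (L11 * ∫ t, W t ^ (3 / 2 : ℝ)) := by linarith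
    _ = 4 * cLT * ∫ t, W t ^ (3 / 2 : ℝ) := by rw [cLT_eq]; ring

end Pool.Agent.Helper970.Rad
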