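import Pool.Agent.Helper970.Rad.Defs

set_option autoImplicit false

open MeasureTheory Set Metric Real
open scoped RealInnerProductSpace ENNReal ContDiff

namespace Pool.Agent.Helper970.Rad



theorem dim_bound_aux {n : ℕ} (m : Fin n → Fin n → ℝ) (hm : ∀ a b, m a b = m b a) :
    ∃ F : Submodule ℝ (Fin n → ℝ),
      (∀ c ∈ F, c ≠ 0 → Matrix.toBilin' (Matrix.of m) c c < 0) ∧
      ∀ c : Fin n → ℝ, (∀ f ∈ F, Matrix.toBilin' (Matrix.of m) c f = 0) →
        0 ≤ Matrix.toBilin' (Matrix.of m) c c := by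
  classical
  set B := Matrix.toBilin' (Matrix.of m) with hB
  have hsymm : ∀ x y, B x y = B y x := by
    intro x y
    simp only [hB, Matrix.toBilin'_apply, Matrix.of_apply]
    rw [Finset.sum_comm]
    refine Finset.sum_congr rfl fun i _ => Finset.sum_congr rfl fun j _ => ?_
    rw [hm j i]
    ring
  let P : ℕ → Prop := fun k => ∃ F : Submodule ℝ (Fin n → ℝ),
    (∀ c ∈ F, c ≠ 0 → B c c < 0) ∧ Module.finrank ℝ F = k
  have hP0 : P 0 := ⟨⊥, fun c hc h0 => absurd ((Submodule.mem_bot ℝ).1 hc) h0, by simp⟩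
  have hPn : ∀ k, P k → k ≤ n := by
    rintro k ⟨F, _, rfl⟩
    have := Submodule.finrank_le F
    simpa using this
  have hmax := Nat.findGreatest_spec (P := P) (Nat.zero_le n) hP0
  obtain ⟨F, hF, hFk⟩ := hmax
  refine ⟨F, hF, ?_⟩
  intro c hc
  by_contra hlt
  push Not at hlt
  have hcF : c ∉ F := fun h => by
    have := hc c h
    linarith
  have hlt' : F < F ⊔ Submodule.span ℝ {c} := by
    refine lt_of_le_of_ne le_sup_left fun h => hcF ?_
    rw [h]
    exact Submodule.mem_sup_right (Submodule.mem_span_singleton_self c)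
  have hfr := Submodule.finrank_lt_finrank_of_lt hlt'
  have hP' : P (Module.finrank ℝ ↥(F ⊔ Submodule.span ℝ {c})) := by
    refine ⟨F ⊔ Submodule.span ℝ {c}, ?_, rfl⟩
    intro x hx hx0
    obtain ⟨f, hf, y, hy, rfl⟩ := Submodule.mem_sup.1 hx
    obtain ⟨t, rfl⟩ := Submodule.mem_span_singleton.1 hy
    have e : B (f + t • c) (f + t • c) = B f f + t ^ 2 * B c c := by
      simp only [map_add, map_smul, LinearMap.add_apply, LinearMap.smul_apply, smul_eq_mul]
      rw [hsymm f c, hc f hf]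
      ring
    rw [e]
    by_cases hf0 : f = 0
    · subst hf0
      have ht : t ≠ 0 := by
        rintro rfl
        simp at hx0
      have : 0 < t ^ 2 := by positivity
      simp only [map_zero]
      nlinarith
    · have h1 := hF f hf hf0
      have : 0 ≤ t ^ 2 := sq_nonneg t
      nlinarith
  have := Nat.le_findGreatest (P := P) (hPn _ hP') hP'
  rw [← hFk] at this
  omega

theorem dim_bound {n : ℕ} {ι : Type} [Fintype ι] (M : ι → Fin n → Fin n → ℝ)
    (hM : ∀ i a b, M i a b = M i b a) (Q : (Fin n → ℝ) → ℝ) (hQ : ∀ c, c ≠ 0 → Q c < 0)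
    (h : ∀ c, ∑ i, ∑ a, ∑ b, c a * c b * M i a b ≤ Q c) :
    ∃ F : ι → Submodule ℝ (Fin n → ℝ),
      (∀ i, ∀ c ∈ F i, c ≠ 0 → ∑ a, ∑ b, c a * c b * M i a b < 0) ∧
      n ≤ ∑ i, Module.finrank ℝ (F i) := by
  classical
  have hap : ∀ i (c : Fin n → ℝ), Matrix.toBilin' (Matrix.of (M i)) c c =
      ∑ a, ∑ b, c a * c b * M i a b := by
    intro i c
    simp only [Matrix.toBilin'_apply, Matrix.of_apply]
    refine Finset.sum_congr rfl fun a _ => Finset.sum_congr rfl fun b _ => ?_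
    ring
  choose F hF1 hF2 using fun i => dim_bound_aux (M i) (hM i)
  refine ⟨F, fun i c hc h0 => by rw [← hap]; exact hF1 i c hc h0, ?_⟩
  by_contra hlt
  push Not at hlt
  let T : (Fin n → ℝ) →ₗ[ℝ] ((i : ι) → Module.Dual ℝ (F i)) :=
    LinearMap.pi fun i =>
      (Module.Dual.transpose (R := ℝ) (F i).subtype).comp (Matrix.toBilin' (Matrix.of (M i)))
  have hfr : Module.finrank ℝ ((i : ι) → Module.Dual ℝ (F i)) <
      Module.finrank ℝ (Fin n → ℝ) := by
    rw [Module.finrank_pi_fintype]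
    simp only [Subspace.dual_finrank_eq]
    simpa using hlt
  obtain ⟨c, hc, hc0⟩ : ∃ c : Fin n → ℝ, T c = 0 ∧ c ≠ 0 := by
    have := LinearMap.ker_ne_bot_of_finrank_lt (f := T) hfr
    obtain ⟨c, hc, hc0⟩ := (Submodule.ne_bot_iff _).1 this
    exact ⟨c, hc, hc0⟩
  have hc' : ∀ i, ∀ f ∈ F i, Matrix.toBilin' (Matrix.of (M i)) c f = 0 := by
    intro i f hf
    have h1 := congrFun hc i
    have h2 := congrArg (fun φ : Module.Dual ℝ (F i) => φ ⟨f, hf⟩) h1
    exact h2
  have h1 : 0 ≤ ∑ i, ∑ a, ∑ b, c a * c b * M i a b :=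
    Finset.sum_nonneg fun i _ => by rw [← hap]; exact hF2 i c (hc' i)
  have h2 := hQ c hc0
  have h3 := h c
  linarith

end Pool.Agent.Helper970.Rad
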