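import Pool.Agent.Helper970.Rad.Defs

set_option autoImplicit false

open MeasureTheory Set Metric Real
open scoped RealInnerProductSpace ENNReal ContDiff

namespace Pool.Agent.Helper970.Rad



theorem lagrange (x : E3) (L : E3 →L[ℝ] ℝ) :
    ‖x‖ ^ 2 * ‖L‖ ^ 2 = L x ^ 2 + ∑ k, L (J k x) ^ 2 := by
  obtain ⟨v, hv⟩ : ∃ v : E3, L = InnerProductSpace.toDual ℝ E3 v :=
    ⟨(InnerProductSpace.toDual ℝ E3).symm L, by simp⟩
  have hL : ∀ y : E3, L y = v 0 * y 0 + v 1 * y 1 + v 2 * y 2 := by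
    intro y
    rw [hv, InnerProductSpace.toDual_apply_apply, PiLp.inner_apply, Fin.sum_univ_three]
    simp only [RCLike.inner_apply, conj_trivial]
    ring
  have hn : ‖L‖ ^ 2 = v 0 ^ 2 + v 1 ^ 2 + v 2 ^ 2 := by
    rw [hv, LinearIsometryEquiv.norm_map, EuclideanSpace.norm_sq_eq, Fin.sum_univ_three]
    simp only [Real.norm_eq_abs, sq_abs]
  have hx : ‖x‖ ^ 2 = x 0 ^ 2 + x 1 ^ 2 + x 2 ^ 2 := by
    rw [EuclideanSpace.norm_sq_eq, Fin.sum_univ_three]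
    simp only [Real.norm_eq_abs, sq_abs]
  have h0 : L (J 0 x) = v 0 * 0 + v 1 * (-(x 2)) + v 2 * x 1 := by
    rw [hL]; simp [J]
  have h1 : L (J 1 x) = v 0 * x 2 + v 1 * 0 + v 2 * (-(x 0)) := by
    rw [hL]; simp [J]
  have h2 : L (J 2 x) = v 0 * (-(x 1)) + v 1 * x 0 + v 2 * 0 := by
    rw [hL]; simp [J]
  rw [hn, hx, Fin.sum_univ_three, h0, h1, h2, hL x]
  ring

end Pool.Agent.Helper970.Rad
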