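import Pool.Agent.Helper970.Rad.Defs

set_option autoImplicit false

open MeasureTheory Set Metric Real
open scoped RealInnerProductSpace ENNReal ContDiff

namespace Pool.Agent.Helper970.Rad



theorem memLp_of_exp_bound (f : ℝ → ℝ) (hf : Continuous f) (C T : ℝ)
    (hb : ∀ t, |f t| ≤ C * exp (t / 2)) (h0 : ∀ t, T < t → f t = 0) : MemLp f 2 := by
  rw [memLp_two_iff_integrable_sq hf.aestronglyMeasurable]
  have hg : Integrable ((Iic T).indicator (fun t : ℝ => C ^ 2 * exp t)) := by
    rw [integrable_indicator_iff measurableSet_Iic]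
    exact (integrableOn_exp_Iic T).const_mul (C ^ 2)
  refine hg.mono' (hf.pow 2).aestronglyMeasurable (Filter.Eventually.of_forall fun t => ?_)
  by_cases ht : t ≤ T
  · rw [indicator_of_mem (by exact ht), Real.norm_eq_abs, abs_pow]
    have h1 := hb t
    have h2 : |f t| ^ 2 ≤ (C * exp (t / 2)) ^ 2 := pow_le_pow_left₀ (abs_nonneg _) h1 2
    have h3 : (C * exp (t / 2)) ^ 2 = C ^ 2 * exp t := by
      rw [mul_pow, ← Real.exp_nat_mul]
      congr 2
      push_cast
      ring
    rwa [h3] at h2
  · rw [indicator_of_notMem (by simpa using ht), h0 t (not_le.mp ht)]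
    simp

theorem hasDerivAt_psi (v : E3 → ℝ) (hv : ContDiff ℝ ∞ v) (x : E3) (t : ℝ) :
    HasDerivAt (fun t => psi v t x) (psid v t x) t := by
  have h1 : HasDerivAt (fun t : ℝ => exp (t / 2)) (exp (t / 2) * (1 / 2)) t :=
    ((hasDerivAt_id t).div_const 2).exp
  have h2 : HasDerivAt (fun t : ℝ => exp t • x) (exp t • x) t :=
    (Real.hasDerivAt_exp t).smul_const x
  have hd : HasFDerivAt v (fderiv ℝ v (exp t • x)) (exp t • x) :=
    ((hv.differentiable (by simp)) _).hasFDerivAt
  have h3 : HasDerivAt (fun t : ℝ => v (exp t • x)) (fderiv ℝ v (exp t • x) (exp t • x)) t :=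
    hd.comp_hasDerivAt t h2
  have h4 := h1.mul h3
  have h5 : psid v t x = exp (t / 2) * (1 / 2) * v (exp t • x) +
      exp (t / 2) * fderiv ℝ v (exp t • x) (exp t • x) := by
    unfold psid psi
    ring
  rw [h5]
  exact h4

theorem sob_psi (v : E3 → ℝ) (hv : ContDiff ℝ ∞ v) (hc : HasCompactSupport v) (x : E3)
    (hx : ‖x‖ = 1) : Sob (fun t => psi v t x) (fun t => psid v t x) := by
  have hcv : Continuous v := hv.continuous
  have hcd : Continuous (fderiv ℝ v) := hv.continuous_fderiv (by simp)
  have hexp : Continuous (fun t : ℝ => exp t • x) := Real.continuous_exp.smul continuous_const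
  have hce : Continuous (fun t : ℝ => exp (t / 2)) :=
    Real.continuous_exp.comp (continuous_id.div_const 2)
  have hpc : Continuous (fun t => psi v t x) := by
    unfold psi
    exact hce.mul (hcv.comp hexp)
  have hdy : Continuous (fun y : E3 => fderiv ℝ v y y) := hcd.clm_apply continuous_id
  have hpdc : Continuous (fun t => psid v t x) := by
    unfold psid
    exact (hpc.div_const 2).add (hce.mul (hdy.comp hexp))
  -- the bounds
  obtain ⟨C1, hC1⟩ := hc.exists_bound_of_continuous hcv
  have hcs2 : HasCompactSupport (fun y : E3 => fderiv ℝ v y y) := by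
    refine (hc.fderiv (𝕜 := ℝ)).mono ?_
    intro y hy
    rw [Function.mem_support] at hy ⊢
    intro h
    apply hy
    rw [h]
    rfl
  obtain ⟨C2, hC2⟩ := hcs2.exists_bound_of_continuous hdy
  have hz1 : ∃ T1 : ℝ, ∀ t, T1 < t → v (exp t • x) = 0 := by
    obtain ⟨R, hR⟩ := hc.isCompact.isBounded.subset_closedBall (0 : E3)
    refine ⟨R, fun t ht => ?_⟩
    by_contra h
    have h1 : exp t • x ∈ closedBall (0 : E3) R := hR (subset_tsupport _ h)
    rw [mem_closedBall_zero_iff, norm_smul, hx, Real.norm_eq_abs, abs_of_pos (exp_pos t)] at h1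
    have := Real.add_one_le_exp t
    linarith
  have hz2 : ∃ T2 : ℝ, ∀ t, T2 < t → fderiv ℝ v (exp t • x) (exp t • x) = 0 := by
    obtain ⟨R, hR⟩ := hcs2.isCompact.isBounded.subset_closedBall (0 : E3)
    refine ⟨R, fun t ht => ?_⟩
    by_contra h
    have h1 : exp t • x ∈ closedBall (0 : E3) R :=
      hR (subset_tsupport (fun y : E3 => fderiv ℝ v y y) h)
    rw [mem_closedBall_zero_iff, norm_smul, hx, Real.norm_eq_abs, abs_of_pos (exp_pos t)] at h1
    have := Real.add_one_le_exp t
    linarith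
  obtain ⟨T1, hT1⟩ := hz1
  obtain ⟨T2, hT2⟩ := hz2
  have hb1 : ∀ t, |psi v t x| ≤ C1 * exp (t / 2) := by
    intro t
    unfold psi
    rw [abs_mul, abs_of_pos (exp_pos _), mul_comm]
    exact mul_le_mul_of_nonneg_right (hC1 _) (exp_pos _).le
  refine ⟨?_, ?_, ?_⟩
  · refine memLp_of_exp_bound _ hpc C1 T1 hb1 ?_
    intro t ht
    unfold psi
    rw [hT1 t ht, mul_zero]
  · refine memLp_of_exp_bound _ hpdc (C1 / 2 + C2) (max T1 T2) ?_ ?_
    · intro t
      unfold psid
      have h1 := hb1 t
      have h2 : |exp (t / 2) * fderiv ℝ v (exp t • x) (exp t • x)| ≤ C2 * exp (t / 2) := by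
        rw [abs_mul, abs_of_pos (exp_pos _), mul_comm]
        exact mul_le_mul_of_nonneg_right (hC2 _) (exp_pos _).le
      have h3 : |psi v t x / 2| ≤ C1 * exp (t / 2) / 2 := by
        rw [abs_div, abs_two]
        linarith
      calc |psi v t x / 2 + exp (t / 2) * fderiv ℝ v (exp t • x) (exp t • x)|
          ≤ |psi v t x / 2| + |exp (t / 2) * fderiv ℝ v (exp t • x) (exp t • x)| :=
            abs_add_le _ _
        _ ≤ (C1 / 2 + C2) * exp (t / 2) := by linarith
    · intro t ht
      unfold psid psi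
      rw [hT1 t (lt_of_le_of_lt (le_max_left _ _) ht),
        hT2 t (lt_of_le_of_lt (le_max_right _ _) ht)]
      simp
  · intro a b
    exact (intervalIntegral.integral_eq_sub_of_hasDerivAt
      (fun t _ => hasDerivAt_psi v hv x t) (hpdc.intervalIntegrable a b)).symm

end Pool.Agent.Helper970.Rad
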