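import Pool.Agent.Helper970.Rad.Defs
import Pool.Agent.Helper970.Rad.P_lagrange
import Pool.Agent.Helper970.Rad.P_sob_psi
import Pool.Agent.Helper970.Rad.P_polar_log

set_option autoImplicit false

open MeasureTheory Set Metric Real
open scoped RealInnerProductSpace ENNReal ContDiff

namespace Pool.Agent.Helper970.Rad



theorem lk_psi_17830 (v : E3 → ℝ) (hv : ContDiff ℝ ∞ v) (t : ℝ) (x : E3) (k : Fin 3) :
    Lk k (psi v t) x = exp (t / 2) * fderiv ℝ v (exp t • x) (J k (exp t • x)) := by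
  have hd : Differentiable ℝ v := hv.differentiable (by simp)
  have h1 : HasFDerivAt (fun x : E3 => exp t • x) (exp t • ContinuousLinearMap.id ℝ E3) x :=
    (hasFDerivAt_id x).const_smul (exp t)
  have h2 : HasFDerivAt (fun x : E3 => v (exp t • x))
      ((fderiv ℝ v (exp t • x)).comp (exp t • ContinuousLinearMap.id ℝ E3)) x :=
    (hd (exp t • x)).hasFDerivAt.comp x h1
  have h3 : HasFDerivAt (psi v t)
      (exp (t / 2) • ((fderiv ℝ v (exp t • x)).comp (exp t • ContinuousLinearMap.id ℝ E3))) x :=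
    h2.const_mul (exp (t / 2))
  unfold Lk
  rw [h3.fderiv]
  simp

theorem psid_sub_17830 (v : E3 → ℝ) (t : ℝ) (x : E3) :
    psid v t x - psi v t x / 2 = exp (t / 2) * fderiv ℝ v (exp t • x) (exp t • x) := by
  unfold psid
  ring

theorem exp_half_sq_17830 (t : ℝ) : exp (t / 2) ^ 2 = exp t := by
  rw [← Real.exp_nat_mul]
  congr 1
  push_cast
  ring

/-- the pointwise identity -/
theorem point_17830 (v : E3 → ℝ) (hv : ContDiff ℝ ∞ v) (t : ℝ) (x : E3) (hx : ‖x‖ = 1) :
    exp (3 * t) * ‖fderiv ℝ v (exp t • x)‖ ^ 2 =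
      (psid v t x - psi v t x / 2) ^ 2 + ∑ k, Lk k (psi v t) x ^ 2 := by
  rw [psid_sub_17830]
  have h1 := lagrange (exp t • x) (fderiv ℝ v (exp t • x))
  rw [norm_smul, hx, mul_one, Real.norm_eq_abs, abs_of_pos (exp_pos t)] at h1
  have h2 : ∑ k, Lk k (psi v t) x ^ 2 = exp t * ∑ k, (fderiv ℝ v (exp t • x) (J k (exp t • x))) ^ 2 := by
    rw [Finset.mul_sum]
    apply Finset.sum_congr rfl
    intro k _
    rw [lk_psi_17830 v hv, mul_pow, exp_half_sq_17830]
  rw [h2, mul_pow, exp_half_sq_17830, ← mul_add, ← h1]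
  have h3 : exp (3 * t) = exp t * exp t ^ 2 := by
    rw [← Real.exp_nat_mul, ← Real.exp_add]
    congr 1
    push_cast
    ring
  rw [h3]
  ring

theorem hasDeriv_psi_17830 (v : E3 → ℝ) (hv : ContDiff ℝ ∞ v) (t : ℝ) (x : E3) :
    HasDerivAt (fun t => psi v t x) (psid v t x) t := by
  have hd : Differentiable ℝ v := hv.differentiable (by simp)
  have h1 : HasDerivAt (fun t : ℝ => exp t • x) (exp t • x) t :=
    (Real.hasDerivAt_exp t).smul_const x
  have h2 : HasDerivAt (fun t : ℝ => v (exp t • x)) (fderiv ℝ v (exp t • x) (exp t • x)) t :=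
    (hd (exp t • x)).hasFDerivAt.comp_hasDerivAt t h1
  have h3 : HasDerivAt (fun t : ℝ => exp (t / 2)) (exp (t / 2) * (1 / 2)) t := by
    have := ((hasDerivAt_id t).div_const 2).exp
    simpa using this
  have h4 := h3.mul h2
  have e : psid v t x = exp (t / 2) * (1 / 2) * v (exp t • x) +
      exp (t / 2) * fderiv ℝ v (exp t • x) (exp t • x) := by
    unfold psid psi
    ring
  rw [e]
  exact h4

theorem form_polar (v : E3 → ℝ) (hv : ContDiff ℝ ∞ v) (hc : HasCompactSupport v)
    (w : ℝ → ℝ) (hw : Measurable w) (hw0 : ∀ r, 0 ≤ w r)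
    (hi : Integrable (fun x : E3 => w ‖x‖ ^ (3 / 2 : ℝ))) :
    Integrable (fun p : ℝ × sphere (0 : E3) 1 => psid v p.1 p.2 ^ 2) (volume.prod sig) ∧
    Integrable (fun p : ℝ × sphere (0 : E3) 1 => psi v p.1 p.2 ^ 2) (volume.prod sig) ∧
    Integrable (fun p : ℝ × sphere (0 : E3) 1 => ∑ k, Lk k (psi v p.1) p.2 ^ 2)
      (volume.prod sig) ∧
    Integrable (fun p : ℝ × sphere (0 : E3) 1 => Wt w p.1 * psi v p.1 p.2 ^ 2)
      (volume.prod sig) ∧
    ∫ x, (‖fderiv ℝ v x‖ ^ 2 - w ‖x‖ * v x ^ 2) =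
      (∫ p : ℝ × sphere (0 : E3) 1, psid v p.1 p.2 ^ 2 ∂(volume.prod sig)) +
      1 / 4 * (∫ p : ℝ × sphere (0 : E3) 1, psi v p.1 p.2 ^ 2 ∂(volume.prod sig)) +
      (∫ p : ℝ × sphere (0 : E3) 1, ∑ k, Lk k (psi v p.1) p.2 ^ 2 ∂(volume.prod sig)) -
      ∫ p : ℝ × sphere (0 : E3) 1, Wt w p.1 * psi v p.1 p.2 ^ 2 ∂(volume.prod sig) := by
  have hcv : Continuous v := hv.continuous
  have hcd : Continuous (fderiv ℝ v) := hv.continuous_fderiv (by simp)
  have hx1 : ∀ ξ : sphere (0 : E3) 1, ‖(ξ : E3)‖ = 1 := fun ξ => norm_eq_of_mem_sphere ξ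
  -- continuity in the pair
  have hsm : Continuous (fun p : ℝ × sphere (0 : E3) 1 => exp p.1 • (p.2 : E3)) :=
    (Real.continuous_exp.comp continuous_fst).smul (continuous_subtype_val.comp continuous_snd)
  have hex : Continuous (fun p : ℝ × sphere (0 : E3) 1 => exp (p.1 / 2)) :=
    Real.continuous_exp.comp (continuous_fst.div_const 2)
  have hcpsi : Continuous (fun p : ℝ × sphere (0 : E3) 1 => psi v p.1 p.2) := by
    unfold psi
    exact hex.mul (hcv.comp hsm)
  have hcrad : Continuous (fun p : ℝ × sphere (0 : E3) 1 =>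
      exp (p.1 / 2) * fderiv ℝ v (exp p.1 • (p.2 : E3)) (exp p.1 • (p.2 : E3))) :=
    hex.mul ((hcd.comp hsm).clm_apply hsm)
  have hcpsid : Continuous (fun p : ℝ × sphere (0 : E3) 1 => psid v p.1 p.2) := by
    unfold psid
    exact (hcpsi.div_const 2).add hcrad
  have hcL : Continuous (fun p : ℝ × sphere (0 : E3) 1 => ∑ k, Lk k (psi v p.1) p.2 ^ 2) := by
    apply continuous_finsetSum
    intro k _
    simp only [lk_psi_17830 v hv]
    exact (hex.mul ((hcd.comp hsm).clm_apply ((J k).continuous.comp hsm))).pow 2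
  -- the gradient term
  have hI1 : Integrable (fun x : E3 => ‖fderiv ℝ v x‖ ^ 2) := by
    apply Continuous.integrable_of_hasCompactSupport
    · exact (hcd.norm).pow 2
    · have h1 : HasCompactSupport (fderiv ℝ v) := hc.fderiv (𝕜 := ℝ)
      exact h1.comp_left (g := fun L : E3 →L[ℝ] ℝ => ‖L‖ ^ 2) (by simp)
  obtain ⟨hP1, hE1⟩ := polar_log _ hI1
  have hpt : (fun p : ℝ × sphere (0 : E3) 1 => exp (3 * p.1) * ‖fderiv ℝ v (exp p.1 • (p.2 : E3))‖ ^ 2) =
      fun p => (psid v p.1 p.2 - psi v p.1 p.2 / 2) ^ 2 + ∑ k, Lk k (psi v p.1) p.2 ^ 2 := by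
    funext p
    exact point_17830 v hv p.1 p.2 (hx1 p.2)
  rw [hpt] at hP1 hE1
  have hL0 : ∀ p : ℝ × sphere (0 : E3) 1, 0 ≤ ∑ k, Lk k (psi v p.1) p.2 ^ 2 :=
    fun p => Finset.sum_nonneg (fun k _ => sq_nonneg _)
  have hIL : Integrable (fun p : ℝ × sphere (0 : E3) 1 => ∑ k, Lk k (psi v p.1) p.2 ^ 2)
      (volume.prod sig) := by
    refine hP1.mono' hcL.aestronglyMeasurable ?_
    filter_upwards with p
    rw [Real.norm_eq_abs, abs_of_nonneg (hL0 p)]
    linarith [sq_nonneg (psid v p.1 p.2 - psi v p.1 p.2 / 2)]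
  have hIr : Integrable (fun p : ℝ × sphere (0 : E3) 1 => (psid v p.1 p.2 - psi v p.1 p.2 / 2) ^ 2)
      (volume.prod sig) := by
    refine hP1.mono' ((hcpsid.sub (hcpsi.div_const 2)).pow 2).aestronglyMeasurable ?_
    filter_upwards with p
    rw [Real.norm_eq_abs, abs_of_nonneg (sq_nonneg _)]
    linarith [hL0 p]
  -- bounds for psi
  obtain ⟨M, hM⟩ := hc.exists_bound_of_continuous hcv
  obtain ⟨R, hR0, hR⟩ : ∃ R : ℝ, 0 < R ∧ ∀ x, R < ‖x‖ → v x = 0 := by
    obtain ⟨R, hR⟩ := hc.isCompact.isBounded.exists_norm_le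
    refine ⟨max R 1, by positivity, ?_⟩
    intro x hx
    by_contra hne
    have := hR x (subset_tsupport v hne)
    exact absurd (lt_of_le_of_lt (le_max_left _ _) hx) (not_lt.2 this)
  have hpsib : ∀ (t : ℝ) (x : E3), |psi v t x| ≤ exp (t / 2) * M := by
    intro t x
    unfold psi
    rw [abs_mul, abs_of_pos (exp_pos _)]
    exact mul_le_mul_of_nonneg_left (hM _) (exp_pos _).le
  have hpsi0 : ∀ (t : ℝ) (x : E3), ‖x‖ = 1 → Real.log R < t → psi v t x = 0 := by
    intro t x hx ht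
    unfold psi
    rw [hR, mul_zero]
    rw [norm_smul, hx, mul_one, Real.norm_eq_abs, abs_of_pos (exp_pos t)]
    exact (Real.log_lt_iff_lt_exp hR0).1 ht
  have hIpsi : Integrable (fun p : ℝ × sphere (0 : E3) 1 => psi v p.1 p.2 ^ 2) (volume.prod sig) := by
    have hg : Integrable (fun t : ℝ => (Iic (Real.log R)).indicator (fun t => M ^ 2 * exp t) t) := by
      rw [integrable_indicator_iff measurableSet_Iic]
      exact (integrableOn_exp_Iic _).const_mul _
    refine (hg.comp_fst sig).mono' (hcpsi.pow 2).aestronglyMeasurable ?_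
    filter_upwards with p
    rw [Real.norm_eq_abs, abs_of_nonneg (sq_nonneg _)]
    by_cases hp : p.1 ≤ Real.log R
    · rw [indicator_of_mem (show p.1 ∈ Iic (Real.log R) from hp)]
      have h1 := hpsib p.1 p.2
      calc psi v p.1 p.2 ^ 2 = |psi v p.1 p.2| ^ 2 := (sq_abs _).symm
        _ ≤ (exp (p.1 / 2) * M) ^ 2 := by gcongr
        _ = M ^ 2 * exp p.1 := by rw [mul_pow, exp_half_sq_17830]; ring
    · rw [indicator_of_notMem (show p.1 ∉ Iic (Real.log R) from hp), hpsi0 p.1 p.2 (hx1 p.2) (not_le.1 hp)]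
      simp
  have hIpsid : Integrable (fun p : ℝ × sphere (0 : E3) 1 => psid v p.1 p.2 ^ 2) (volume.prod sig) := by
    refine ((hIr.const_mul 2).add (hIpsi.const_mul (1 / 2))).mono'
      (hcpsid.pow 2).aestronglyMeasurable ?_
    filter_upwards with p
    rw [Real.norm_eq_abs, abs_of_nonneg (sq_nonneg _)]
    simp only [Pi.add_apply]
    nlinarith [sq_nonneg (psid v p.1 p.2 - psi v p.1 p.2)]
  have hIm : Integrable (fun p : ℝ × sphere (0 : E3) 1 => psi v p.1 p.2 * psid v p.1 p.2)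
      (volume.prod sig) := by
    refine (hIpsi.add hIpsid).mono' (hcpsi.mul hcpsid).aestronglyMeasurable ?_
    filter_upwards with p
    simp only [Pi.add_apply]
    rw [Real.norm_eq_abs, abs_le]
    constructor
    · nlinarith [sq_nonneg (psid v p.1 p.2 + psi v p.1 p.2)]
    · nlinarith [sq_nonneg (psid v p.1 p.2 - psi v p.1 p.2)]
  -- the mixed term vanishes
  have hmix : ∫ p : ℝ × sphere (0 : E3) 1, psi v p.1 p.2 * psid v p.1 p.2 ∂(volume.prod sig) = 0 := by
    rw [integral_prod_symm _ hIm]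
    have : ∀ ξ : sphere (0 : E3) 1, ∫ t, psi v t ξ * psid v t ξ = 0 := by
      intro ξ
      by_cases hint : Integrable (fun t => psi v t ξ * psid v t ξ)
      · have hder : ∀ t, HasDerivAt (fun t => psi v t ξ ^ 2 / 2) (psi v t ξ * psid v t ξ) t := by
          intro t
          have h1 := ((hasDeriv_psi_17830 v hv t ξ).pow 2).div_const 2
          have e : psi v t ξ * psid v t ξ = ((2 : ℕ) : ℝ) * psi v t ξ ^ (2 - 1) * psid v t ξ / 2 := by
            push_cast
            ring
          rw [e]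
          exact h1
        have hbot : Filter.Tendsto (fun t => psi v t ξ ^ 2 / 2) Filter.atBot (nhds 0) := by
          have h1 : Filter.Tendsto (fun t => exp t * M ^ 2) Filter.atBot (nhds 0) := by
            have := Real.tendsto_exp_atBot.mul_const (M ^ 2)
            rwa [zero_mul] at this
          refine squeeze_zero (fun t => by positivity) (fun t => ?_) h1
          have h2 := hpsib t ξ
          have h3 : psi v t ξ ^ 2 ≤ exp t * M ^ 2 := by
            calc psi v t ξ ^ 2 = |psi v t ξ| ^ 2 := (sq_abs _).symm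
              _ ≤ (exp (t / 2) * M) ^ 2 := by gcongr
              _ = exp t * M ^ 2 := by rw [mul_pow, exp_half_sq_17830]
          linarith [sq_nonneg (psi v t ξ)]
        have htop : Filter.Tendsto (fun t => psi v t ξ ^ 2 / 2) Filter.atTop (nhds 0) := by
          apply tendsto_const_nhds.congr'
          filter_upwards [Filter.eventually_gt_atTop (Real.log R)] with t ht
          rw [hpsi0 t ξ (hx1 ξ) ht]
          simp
        rw [integral_of_hasDerivAt_of_tendsto hder hint hbot htop, sub_zero]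
      · exact integral_undef hint
    simp only [this, integral_zero]
  -- the potential term
  have hI3 : Integrable (fun x : E3 => w ‖x‖ * v x ^ 2) := by
    have h6 : Integrable (fun x : E3 => v x ^ 6) := by
      apply Continuous.integrable_of_hasCompactSupport (hcv.pow 6)
      refine hc.mono ?_
      intro x hx hx0
      apply hx
      have h0 : v x = 0 := hx0
      show v x ^ 6 = 0
      rw [h0]
      norm_num
    refine (hi.add h6).mono' ?_ ?_
    · exact ((hw.comp measurable_norm).mul (hcv.measurable.pow_const 2)).aestronglyMeasurable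
    · filter_upwards with x
      simp only [Pi.add_apply]
      rw [Real.norm_eq_abs, abs_of_nonneg (mul_nonneg (hw0 _) (sq_nonneg _))]
      have hconj : (3 / 2 : ℝ).HolderConjugate 3 := by
        rw [Real.holderConjugate_iff]
        norm_num
      have hy := Real.young_inequality_of_nonneg (hw0 ‖x‖) (sq_nonneg (v x)) hconj
      have h7 : (v x ^ 2) ^ (3 : ℝ) = v x ^ 6 := by
        rw [show (3 : ℝ) = ((3 : ℕ) : ℝ) by norm_num, Real.rpow_natCast]
        ring
      rw [h7] at hy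
      have h8 : 0 ≤ w ‖x‖ ^ (3 / 2 : ℝ) := Real.rpow_nonneg (hw0 _) _
      have h9 : 0 ≤ v x ^ 6 := by positivity
      have h10 : w ‖x‖ ^ (3 / 2 : ℝ) / (3 / 2) ≤ w ‖x‖ ^ (3 / 2 : ℝ) := by linarith
      have h11 : v x ^ 6 / 3 ≤ v x ^ 6 := by linarith
      linarith
  obtain ⟨hP3, hE3⟩ := polar_log _ hI3
  have hpt3 : (fun p : ℝ × sphere (0 : E3) 1 => exp (3 * p.1) *
      (w ‖exp p.1 • (p.2 : E3)‖ * v (exp p.1 • (p.2 : E3)) ^ 2)) =
      fun p => Wt w p.1 * psi v p.1 p.2 ^ 2 := by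
    funext p
    rw [norm_smul, hx1, mul_one, Real.norm_eq_abs, abs_of_pos (exp_pos _)]
    unfold Wt psi
    rw [mul_pow, exp_half_sq_17830]
    have h3 : exp (3 * p.1) = exp (2 * p.1) * exp p.1 := by
      rw [← Real.exp_add]
      congr 1
      ring
    rw [h3]
    ring
  rw [hpt3] at hP3 hE3
  refine ⟨hIpsid, hIpsi, hIL, hP3, ?_⟩
  rw [integral_sub hI1 hI3, hE1, hE3, integral_add hIr hIL]
  have h12 : ∫ p : ℝ × sphere (0 : E3) 1, (psid v p.1 p.2 - psi v p.1 p.2 / 2) ^ 2 ∂(volume.prod sig) =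
      (∫ p : ℝ × sphere (0 : E3) 1, psid v p.1 p.2 ^ 2 ∂(volume.prod sig)) -
      (∫ p : ℝ × sphere (0 : E3) 1, psi v p.1 p.2 * psid v p.1 p.2 ∂(volume.prod sig)) +
      1 / 4 * (∫ p : ℝ × sphere (0 : E3) 1, psi v p.1 p.2 ^ 2 ∂(volume.prod sig)) := by
    have hsI : Integrable (fun p : ℝ × sphere (0 : E3) 1 =>
        psid v p.1 p.2 ^ 2 - psi v p.1 p.2 * psid v p.1 p.2) (volume.prod sig) := hIpsid.sub hIm
    rw [← integral_const_mul, ← integral_sub hIpsid hIm, ← integral_add hsI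
      (hIpsi.const_mul (1 / 4))]
    apply integral_congr_ae
    filter_upwards with p
    ring
  rw [h12, hmix]
  ring

end Pool.Agent.Helper970.Rad
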