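import Pool.Agent.Helper970.Rad.Defs

set_option autoImplicit false

open MeasureTheory Set Metric Real
open scoped RealInnerProductSpace ENNReal ContDiff

namespace Pool.Agent.Helper970.Rad



theorem sp_cont_uncurry (w : E3 → ℝ) (hw : Continuous w) (Y : E3 → ℝ) (hY : Continuous Y) :
    Continuous (Function.uncurry (fun (t : ℝ) (ξ : sphere (0 : E3) 1) =>
      psi w t (ξ : E3) * Y (ξ : E3))) := by
  unfold psi Function.uncurry
  dsimp only
  fun_prop

theorem sp_B_cont (w : E3 → ℝ) (hw : Continuous w) (Y : E3 → ℝ) (hY : Continuous Y) :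
    Continuous (fun t : ℝ => B (psi w t) Y) := by
  have h := continuous_parametric_integral_of_continuous (μ := sig)
    (sp_cont_uncurry w hw Y hY) (isCompact_univ : IsCompact (univ : Set (sphere (0 : E3) 1)))
  simpa only [B, Measure.restrict_univ] using h

theorem sp_bound (w : E3 → ℝ) (hw : Continuous w) (hc : HasCompactSupport w) (Y : E3 → ℝ)
    (hY : Continuous Y) : ∃ C R : ℝ, 0 ≤ C ∧ 0 < R ∧ (∀ (t : ℝ) (ξ : sphere (0 : E3) 1),
      |psi w t (ξ : E3) * Y (ξ : E3)| ≤ C * exp (t / 2)) ∧
      ∀ (t : ℝ) (ξ : sphere (0 : E3) 1), R < exp t → psi w t (ξ : E3) = 0 := by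
  obtain ⟨M, hM⟩ := hw.bounded_above_of_compact_support hc
  obtain ⟨K, hK⟩ := (isCompact_sphere (0 : E3) 1).exists_bound_of_continuousOn hY.continuousOn
  obtain ⟨R, hR⟩ := hc.isCompact.isBounded.subset_closedBall (0 : E3)
  have hM0 : 0 ≤ M := le_trans (norm_nonneg _) (hM 0)
  refine ⟨M * |K|, max R 1, by positivity, by positivity, ?_, ?_⟩
  · intro t ξ
    have h1 : |w (exp t • (ξ : E3))| ≤ M := hM _
    have h2 : |Y (ξ : E3)| ≤ |K| := le_trans (hK _ ξ.2) (le_abs_self K)
    unfold psi
    rw [abs_mul, abs_mul, abs_of_pos (exp_pos _)]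
    calc exp (t / 2) * |w (exp t • (ξ : E3))| * |Y (ξ : E3)|
        ≤ exp (t / 2) * M * |K| := by gcongr
      _ = M * |K| * exp (t / 2) := by ring
  · intro t ξ ht
    have hn : ‖exp t • (ξ : E3)‖ = exp t := by
      rw [norm_smul, norm_eq_of_mem_sphere ξ, mul_one, Real.norm_eq_abs, abs_of_pos (exp_pos _)]
    have : exp t • (ξ : E3) ∉ tsupport w := by
      intro hmem
      have h3 := hR hmem
      rw [mem_closedBall_zero_iff, hn] at h3
      have h4 := le_max_left R 1
      linarith
    unfold psi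
    rw [image_eq_zero_of_notMem_tsupport this, mul_zero]

theorem sp_memLp (w : E3 → ℝ) (hw : Continuous w) (hc : HasCompactSupport w) (Y : E3 → ℝ)
    (hY : Continuous Y) : MemLp (fun t : ℝ => B (psi w t) Y) 2 := by
  obtain ⟨C, R, hC, hR, h1, h2⟩ := sp_bound w hw hc Y hY
  set D : ℝ := C * sig.real univ with hD
  have hD0 : 0 ≤ D := mul_nonneg hC measureReal_nonneg
  have hg : MemLp (fun t : ℝ => (Iic (Real.log R)).indicator (fun t => D * exp (t / 2)) t) 2 := by
    have hmeas : AEStronglyMeasurable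
        (fun t : ℝ => (Iic (Real.log R)).indicator (fun t => D * exp (t / 2)) t) volume := by
      apply AEStronglyMeasurable.indicator _ measurableSet_Iic
      exact (by fun_prop : Continuous (fun t : ℝ => D * exp (t / 2))).aestronglyMeasurable
    rw [memLp_two_iff_integrable_sq hmeas]
    have heq : (fun t : ℝ => (Iic (Real.log R)).indicator (fun t => D * exp (t / 2)) t ^ 2)
        = (Iic (Real.log R)).indicator (fun t => D ^ 2 * exp t) := by
      funext t
      by_cases ht : t ∈ Iic (Real.log R)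
      · rw [indicator_of_mem ht, indicator_of_mem ht, mul_pow, ← exp_nat_mul]
        congr 2
        push_cast
        ring
      · rw [indicator_of_notMem ht, indicator_of_notMem ht]
        norm_num
    rw [heq, integrable_indicator_iff measurableSet_Iic]
    exact (integrableOn_exp_Iic _).const_mul _
  refine hg.of_le (sp_B_cont w hw Y hY).aestronglyMeasurable (Filter.Eventually.of_forall ?_)
  intro t
  by_cases ht : t ∈ Iic (Real.log R)
  · rw [indicator_of_mem ht]
    have h3 : ‖B (psi w t) Y‖ ≤ C * exp (t / 2) * sig.real univ := by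
      unfold B
      exact norm_integral_le_of_norm_le_const (Filter.Eventually.of_forall (fun ξ => h1 t ξ))
    calc ‖B (psi w t) Y‖ ≤ C * exp (t / 2) * sig.real univ := h3
      _ = D * exp (t / 2) := by rw [hD]; ring
      _ ≤ ‖D * exp (t / 2)‖ := Real.le_norm_self _
  · rw [indicator_of_notMem ht]
    have ht' : R < exp t := by
      rw [mem_Iic, not_le] at ht
      rwa [← Real.log_lt_iff_lt_exp hR]
    have : B (psi w t) Y = 0 := by
      unfold B
      rw [← integral_zero (sphere (0 : E3) 1) ℝ (μ := sig)]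
      congr 1
      funext ξ
      rw [h2 t ξ ht', zero_mul]
    rw [this]

theorem sp_psid_eq (v : E3 → ℝ) (t : ℝ) :
    psid v t = psi (fun x => v x / 2 + fderiv ℝ v x x) t := by
  funext x
  unfold psid psi
  ring

theorem sp_w_cont (v : E3 → ℝ) (hv : ContDiff ℝ ∞ v) :
    Continuous (fun x => v x / 2 + fderiv ℝ v x x) := by
  have h1 : Continuous (fun x => fderiv ℝ v x) := hv.continuous_fderiv (by simp)
  have h2 := hv.continuous
  exact (h2.div_const 2).add (h1.clm_apply continuous_id)

theorem sp_w_supp (v : E3 → ℝ) (hc : HasCompactSupport v) :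
    HasCompactSupport (fun x => v x / 2 + fderiv ℝ v x x) := by
  apply hc.mono'
  intro x hx
  by_contra hnot
  apply hx
  have h1 : v x = 0 := image_eq_zero_of_notMem_tsupport hnot
  have h2 : fderiv ℝ v x = 0 := by
    have : x ∉ tsupport (fderiv ℝ v) := fun h => hnot (tsupport_fderiv_subset ℝ h)
    exact image_eq_zero_of_notMem_tsupport this
  simp only [h1, h2]
  simp

theorem sp_hasDerivAt (v : E3 → ℝ) (hv : ContDiff ℝ ∞ v) (x : E3) (t : ℝ) :
    HasDerivAt (fun t => psi v t x) (psid v t x) t := by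
  unfold psid psi
  have h1 : HasDerivAt (fun t : ℝ => exp (t / 2)) (exp (t / 2) * (1 / 2)) t :=
    ((hasDerivAt_id t).div_const 2).exp
  have h2 : HasDerivAt (fun t : ℝ => exp t • x) (exp t • x) t :=
    (Real.hasDerivAt_exp t).smul_const x
  have h3 : HasFDerivAt v (fderiv ℝ v (exp t • x)) (exp t • x) :=
    (hv.differentiable (by simp) _).hasFDerivAt
  have h4 := h3.comp_hasDerivAt t h2
  refine (h1.mul h4).congr_deriv ?_
  show exp (t / 2) * (1 / 2) * v (exp t • x) + exp (t / 2) * fderiv ℝ v (exp t • x) (exp t • x)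
    = exp (t / 2) * v (exp t • x) / 2 + exp (t / 2) * fderiv ℝ v (exp t • x) (exp t • x)
  ring

theorem sp_B_deriv (v : E3 → ℝ) (hv : ContDiff ℝ ∞ v) (hc : HasCompactSupport v) (Y : E3 → ℝ)
    (hY : Continuous Y) (t : ℝ) :
    HasDerivAt (fun t => B (psi v t) Y) (B (psid v t) Y) t := by
  have hw := sp_w_cont v hv
  have hcw := sp_w_supp v hc
  obtain ⟨C, R, hC, hR, h1, h2⟩ := sp_bound _ hw hcw Y hY
  have hcont : ∀ (w : E3 → ℝ), Continuous w → ∀ t : ℝ, Continuous
      (fun ξ : sphere (0 : E3) 1 => psi w t (ξ : E3) * Y (ξ : E3)) := by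
    intro w hw t
    unfold psi
    fun_prop
  have hint : ∀ (w : E3 → ℝ), Continuous w → ∀ t : ℝ, Integrable
      (fun ξ : sphere (0 : E3) 1 => psi w t (ξ : E3) * Y (ξ : E3)) sig := by
    intro w hw t
    exact (hcont w hw t).integrable_of_hasCompactSupport (HasCompactSupport.of_compactSpace _)
  unfold B
  refine (hasDerivAt_integral_of_dominated_loc_of_deriv_le (μ := sig)
    (F := fun t (ξ : sphere (0 : E3) 1) => psi v t (ξ : E3) * Y (ξ : E3))
    (F' := fun t (ξ : sphere (0 : E3) 1) => psid v t (ξ : E3) * Y (ξ : E3))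
    (s := Iio (t + 1)) (bound := fun _ => C * exp ((t + 1) / 2))
    (Iio_mem_nhds (by linarith)) ?_ ?_ ?_ ?_ ?_ ?_).2
  · exact Filter.Eventually.of_forall (fun s => (hcont v hv.continuous s).aestronglyMeasurable)
  · exact hint v hv.continuous t
  · rw [sp_psid_eq]
    exact (hcont _ hw t).aestronglyMeasurable
  · refine Filter.Eventually.of_forall (fun ξ s hs => ?_)
    rw [sp_psid_eq]
    refine (h1 s ξ).trans ?_
    have : s / 2 ≤ (t + 1) / 2 := by
      have := mem_Iio.mp hs
      linarith
    have := Real.exp_le_exp.mpr this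
    gcongr
  · exact integrable_const _
  · refine Filter.Eventually.of_forall (fun ξ s hs => ?_)
    exact (sp_hasDerivAt v hv (ξ : E3) s).mul_const _

theorem sob_phi (v : E3 → ℝ) (hv : ContDiff ℝ ∞ v) (hc : HasCompactSupport v) (Y : E3 → ℝ)
    (hY : Continuous Y) : Sob (fun t => B (psi v t) Y) (fun t => B (psid v t) Y) := by
  have hw := sp_w_cont v hv
  have hcw := sp_w_supp v hc
  have hcont : Continuous (fun t => B (psid v t) Y) := by
    simp only [sp_psid_eq]
    exact sp_B_cont _ hw Y hY
  refine ⟨sp_memLp v hv.continuous hc Y hY, ?_, ?_⟩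
  · simp only [sp_psid_eq]
    exact sp_memLp _ hw hcw Y hY
  · intro a b
    rw [intervalIntegral.integral_eq_sub_of_hasDerivAt (f := fun t => B (psi v t) Y)]
    · intro t _
      exact sp_B_deriv v hv hc Y hY t
    · exact hcont.intervalIntegrable _ _

end Pool.Agent.Helper970.Rad
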