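import Pool.Agent.Helper970.Rad.Defs
import Pool.Agent.Helper970.Rad.P_sob_psi
import Pool.Agent.Helper970.Rad.P_sob_phi
import Pool.Agent.Helper970.Rad.P_Wt_int
import Pool.Agent.Helper970.Rad.P_int_W_sq
import Pool.Agent.Helper970.Rad.P_form_polar
import Pool.Agent.Helper970.Rad.P_scalar_pos

set_option autoImplicit false

open MeasureTheory Set Metric Real
open scoped RealInnerProductSpace ENNReal ContDiff

namespace Pool.Agent.Helper970.Rad



theorem FL_integ {f : sphere (0 : E3) 1 → ℝ} (hf : Continuous f) : Integrable f sig :=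
  hf.integrable_of_hasCompactSupport (HasCompactSupport.of_compactSpace f)

theorem FL_orth {ι : Type} [Fintype ι] [DecidableEq ι] (Y : ι → E3 → ℝ)
    (hY : ∀ i, Continuous (Y i)) (horth : ∀ i j, B (Y i) (Y j) = if i = j then 1 else 0)
    (F : E3 → ℝ) (hF : Continuous F) :
    ∫ ξ : sphere (0 : E3) 1, (F ξ - ∑ i, B F (Y i) * Y i ξ) ^ 2 ∂sig =
      B F F - ∑ i, B F (Y i) ^ 2 := by
  have hF' : Continuous (fun ξ : sphere (0 : E3) 1 => F ξ) := hF.comp continuous_subtype_val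
  have hY' : ∀ i, Continuous (fun ξ : sphere (0 : E3) 1 => Y i ξ) :=
    fun i => (hY i).comp continuous_subtype_val
  have e : ∀ ξ : sphere (0 : E3) 1, (F ξ - ∑ i, B F (Y i) * Y i ξ) ^ 2 =
      (F ξ * F ξ - ∑ i, 2 * B F (Y i) * (F ξ * Y i ξ)) +
        ∑ i, ∑ j, B F (Y i) * B F (Y j) * (Y i ξ * Y j ξ) := by
    intro ξ
    have e1 : (∑ i, B F (Y i) * Y i ξ) ^ 2 =
        ∑ i, ∑ j, B F (Y i) * B F (Y j) * (Y i ξ * Y j ξ) := by
      rw [sq, Finset.sum_mul_sum]
      refine Finset.sum_congr rfl fun i _ => Finset.sum_congr rfl fun j _ => ?_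
      ring
    have e2 : ∑ i, 2 * B F (Y i) * (F ξ * Y i ξ) = 2 * F ξ * ∑ i, B F (Y i) * Y i ξ := by
      rw [Finset.mul_sum]
      refine Finset.sum_congr rfl fun i _ => ?_
      ring
    rw [← e1, e2]
    ring
  have i1 : Integrable (fun ξ : sphere (0 : E3) 1 => F ξ * F ξ) sig := FL_integ (hF'.mul hF')
  have i2 : ∀ i, Integrable (fun ξ : sphere (0 : E3) 1 => 2 * B F (Y i) * (F ξ * Y i ξ)) sig :=
    fun i => FL_integ (continuous_const.mul (hF'.mul (hY' i)))
  have i3 : ∀ i j, Integrable (fun ξ : sphere (0 : E3) 1 =>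
      B F (Y i) * B F (Y j) * (Y i ξ * Y j ξ)) sig :=
    fun i j => FL_integ (continuous_const.mul ((hY' i).mul (hY' j)))
  have i4 : Integrable (fun ξ : sphere (0 : E3) 1 =>
      ∑ i, 2 * B F (Y i) * (F ξ * Y i ξ)) sig := integrable_finsetSum _ fun i _ => i2 i
  have i5 : ∀ i, Integrable (fun ξ : sphere (0 : E3) 1 =>
      ∑ j, B F (Y i) * B F (Y j) * (Y i ξ * Y j ξ)) sig :=
    fun i => integrable_finsetSum _ fun j _ => i3 i j
  simp_rw [e]
  have i14 : Integrable (fun ξ : sphere (0 : E3) 1 =>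
      F ξ * F ξ - ∑ i, 2 * B F (Y i) * (F ξ * Y i ξ)) sig := i1.sub i4
  have i6 : Integrable (fun ξ : sphere (0 : E3) 1 =>
      ∑ i, ∑ j, B F (Y i) * B F (Y j) * (Y i ξ * Y j ξ)) sig :=
    integrable_finsetSum _ fun i _ => i5 i
  rw [integral_add i14 i6, integral_sub i1 i4,
    integral_finsetSum _ (fun i _ => i2 i), integral_finsetSum _ (fun i _ => i5 i)]
  have e3 : ∀ i, ∫ ξ : sphere (0 : E3) 1, 2 * B F (Y i) * (F ξ * Y i ξ) ∂sig =
      2 * B F (Y i) ^ 2 := by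
    intro i
    rw [integral_const_mul]
    change 2 * B F (Y i) * B F (Y i) = _
    ring
  have e4 : ∀ i, ∫ ξ : sphere (0 : E3) 1, ∑ j, B F (Y i) * B F (Y j) * (Y i ξ * Y j ξ) ∂sig =
      B F (Y i) ^ 2 := by
    intro i
    rw [integral_finsetSum _ (fun j _ => i3 i j)]
    have e5 : ∀ j, ∫ ξ : sphere (0 : E3) 1, B F (Y i) * B F (Y j) * (Y i ξ * Y j ξ) ∂sig =
        if i = j then B F (Y i) * B F (Y j) else 0 := by
      intro j
      rw [integral_const_mul]
      change B F (Y i) * B F (Y j) * B (Y i) (Y j) = _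
      rw [horth]
      split_ifs <;> simp
    simp_rw [e5]
    rw [Finset.sum_ite_eq]
    simp [sq]
  simp_rw [e3, e4]
  rw [← Finset.mul_sum]
  change B F F - _ + _ = _
  ring

theorem FL_sob_add {u₁ g₁ u₂ g₂ : ℝ → ℝ} (h1 : Sob u₁ g₁) (h2 : Sob u₂ g₂) :
    Sob (fun t => u₁ t + u₂ t) (fun t => g₁ t + g₂ t) := by
  refine ⟨h1.memLp.add h2.memLp, h1.memLp_deriv.add h2.memLp_deriv, ?_⟩
  intro a b
  have k1 : IntervalIntegrable g₁ volume a b :=
    ((h1.memLp_deriv.locallyIntegrable (by norm_num)).integrableOn_isCompact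
      isCompact_uIcc).intervalIntegrable
  have k2 : IntervalIntegrable g₂ volume a b :=
    ((h2.memLp_deriv.locallyIntegrable (by norm_num)).integrableOn_isCompact
      isCompact_uIcc).intervalIntegrable
  rw [intervalIntegral.integral_add k1 k2, ← h1.integral_deriv, ← h2.integral_deriv]
  ring

theorem FL_sob_mul (c : ℝ) {u g : ℝ → ℝ} (h : Sob u g) :
    Sob (fun t => c * u t) (fun t => c * g t) := by
  refine ⟨h.memLp.const_mul c, h.memLp_deriv.const_mul c, ?_⟩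
  intro a b
  rw [intervalIntegral.integral_const_mul, ← h.integral_deriv]
  ring

theorem FL_sob_sum {ι : Type} (s : Finset ι) (c : ι → ℝ) (u g : ι → ℝ → ℝ)
    (h : ∀ i, Sob (u i) (g i)) :
    Sob (fun t => ∑ i ∈ s, c i * u i t) (fun t => ∑ i ∈ s, c i * g i t) := by
  classical
  induction s using Finset.induction_on with
  | empty =>
    simp only [Finset.sum_empty]
    refine ⟨MemLp.zero, MemLp.zero, ?_⟩
    intro a b
    simp
  | insert a s ha ih =>
    simp only [Finset.sum_insert ha]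
    exact FL_sob_add (FL_sob_mul (c a) (h a)) ih

/-- the remainder after subtracting the projections -/
noncomputable def FL_rho {ι : Type} [Fintype ι] (Y : ι → E3 → ℝ) (F : ℝ → E3 → ℝ)
    (t : ℝ) (x : E3) : ℝ := F t x - ∑ i, B (F t) (Y i) * Y i x

theorem FL_main {ι : Type} [Fintype ι] [DecidableEq ι] (Y : ι → E3 → ℝ)
    (hY : ∀ i, Continuous (Y i)) (horth : ∀ i j, B (Y i) (Y j) = if i = j then 1 else 0)
    (F : ℝ → E3 → ℝ) (hF : Continuous (fun p : ℝ × E3 => F p.1 p.2))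
    (s : ℝ → ℝ) (hs : Measurable s) (hφm : ∀ i, AEStronglyMeasurable (fun t => B (F t) (Y i)))
    (hF2 : Integrable (fun p : ℝ × sphere (0 : E3) 1 => (s p.1 * F p.1 p.2) ^ 2)
      (volume.prod sig))
    (hφ : ∀ i, Integrable (fun t => (s t * B (F t) (Y i)) ^ 2)) :
    Integrable (fun p : ℝ × sphere (0 : E3) 1 => (s p.1 * FL_rho Y F p.1 p.2) ^ 2)
      (volume.prod sig) ∧
    ∫ p : ℝ × sphere (0 : E3) 1, (s p.1 * FL_rho Y F p.1 p.2) ^ 2 ∂(volume.prod sig) =
      (∫ p : ℝ × sphere (0 : E3) 1, (s p.1 * F p.1 p.2) ^ 2 ∂(volume.prod sig)) -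
        ∑ i, ∫ t, (s t * B (F t) (Y i)) ^ 2 := by
  have hFc : Continuous (fun p : ℝ × sphere (0 : E3) 1 => F p.1 p.2) :=
    hF.comp (continuous_fst.prodMk (continuous_subtype_val.comp continuous_snd))
  have hY' : ∀ i, Continuous (fun ξ : sphere (0 : E3) 1 => Y i ξ) :=
    fun i => (hY i).comp continuous_subtype_val
  have hsm : AEStronglyMeasurable (fun p : ℝ × sphere (0 : E3) 1 => s p.1) (volume.prod sig) :=
    (hs.comp measurable_fst).aestronglyMeasurable
  have m1 : AEStronglyMeasurable (fun p : ℝ × sphere (0 : E3) 1 => s p.1 * F p.1 p.2)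
      (volume.prod sig) := hsm.mul hFc.aestronglyMeasurable
  have m2 : ∀ i, AEStronglyMeasurable (fun t => s t * B (F t) (Y i)) :=
    fun i => hs.aestronglyMeasurable.mul (hφm i)
  have l1 : MemLp (fun p : ℝ × sphere (0 : E3) 1 => s p.1 * F p.1 p.2) 2 (volume.prod sig) :=
    (memLp_two_iff_integrable_sq m1).2 hF2
  have l2 : ∀ i, MemLp (fun p : ℝ × sphere (0 : E3) 1 => (s p.1 * B (F p.1) (Y i)) * Y i p.2) 2
      (volume.prod sig) := by
    intro i
    have m3 : AEStronglyMeasurable (fun p : ℝ × sphere (0 : E3) 1 =>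
        (s p.1 * B (F p.1) (Y i)) * Y i p.2) (volume.prod sig) :=
      ((m2 i).comp_fst).mul ((hY' i).aestronglyMeasurable.comp_snd)
    rw [memLp_two_iff_integrable_sq m3]
    have : (fun p : ℝ × sphere (0 : E3) 1 => ((s p.1 * B (F p.1) (Y i)) * Y i p.2) ^ 2) =
        fun p : ℝ × sphere (0 : E3) 1 => (fun t => (s t * B (F t) (Y i)) ^ 2) p.1 *
          (fun ξ : sphere (0 : E3) 1 => Y i ξ ^ 2) p.2 := by
      funext p
      simp only
      ring
    rw [this]
    exact (hφ i).mul_prod (FL_integ ((hY' i).pow 2))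
  have erho : (fun p : ℝ × sphere (0 : E3) 1 => s p.1 * FL_rho Y F p.1 p.2) =
      fun p : ℝ × sphere (0 : E3) 1 => s p.1 * F p.1 p.2 -
        ∑ i, (s p.1 * B (F p.1) (Y i)) * Y i p.2 := by
    funext p
    unfold FL_rho
    rw [mul_sub, Finset.mul_sum]
    congr 1
    refine Finset.sum_congr rfl fun i _ => ?_
    ring
  have l3 : MemLp (fun p : ℝ × sphere (0 : E3) 1 => s p.1 * FL_rho Y F p.1 p.2) 2
      (volume.prod sig) := by
    rw [erho]
    exact l1.sub (memLp_finsetSum _ fun i _ => l2 i)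
  have hI : Integrable (fun p : ℝ × sphere (0 : E3) 1 => (s p.1 * FL_rho Y F p.1 p.2) ^ 2)
      (volume.prod sig) := l3.integrable_sq
  refine ⟨hI, ?_⟩
  have hFt : ∀ t, Continuous (F t) := fun t => hF.comp (continuous_const.prodMk continuous_id)
  rw [integral_prod _ hI, integral_prod _ hF2]
  have e1 : ∀ t, ∫ ξ : sphere (0 : E3) 1, (s t * FL_rho Y F t ξ) ^ 2 ∂sig =
      (∫ ξ : sphere (0 : E3) 1, (s t * F t ξ) ^ 2 ∂sig) - ∑ i, (s t * B (F t) (Y i)) ^ 2 := by
    intro t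
    simp_rw [mul_pow]
    rw [integral_const_mul, integral_const_mul]
    have := FL_orth Y hY horth (F t) (hFt t)
    unfold FL_rho
    rw [this, mul_sub, Finset.mul_sum]
    have e2 : B (F t) (F t) = ∫ ξ : sphere (0 : E3) 1, F t ξ ^ 2 ∂sig := by
      unfold B
      simp_rw [sq]
    rw [e2]
  simp only [e1]
  rw [integral_sub hF2.integral_prod_left (integrable_finsetSum _ fun i _ => hφ i),
    integral_finsetSum _ fun i _ => hφ i]

theorem FL_psi_cont (v : E3 → ℝ) (hv : ContDiff ℝ ∞ v) :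
    Continuous (fun p : ℝ × E3 => psi v p.1 p.2) := by
  have h1 := hv.continuous
  unfold psi
  fun_prop

theorem FL_psid_cont (v : E3 → ℝ) (hv : ContDiff ℝ ∞ v) :
    Continuous (fun p : ℝ × E3 => psid v p.1 p.2) := by
  have h1 := FL_psi_cont v hv
  have h2 : Continuous (fderiv ℝ v) := hv.continuous_fderiv (by simp)
  have h3 : Continuous (fun p : ℝ × E3 => exp p.1 • p.2) := by fun_prop
  have h4 : Continuous (fun p : ℝ × E3 => fderiv ℝ v (exp p.1 • p.2) (exp p.1 • p.2)) :=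
    (h2.comp h3).clm_apply h3
  unfold psid
  exact (h1.div_const 2).add ((by fun_prop : Continuous (fun p : ℝ × E3 => exp (p.1 / 2))).mul h4)

theorem FL_psi_smooth (v : E3 → ℝ) (hv : ContDiff ℝ ∞ v) (t : ℝ) : ContDiff ℝ ∞ (psi v t) := by
  unfold psi
  exact contDiff_const.mul (hv.comp (contDiff_const_smul _))

theorem FL_Lk_cont (k : Fin 3) (f : E3 → ℝ) (hf : ContDiff ℝ ∞ f) : Continuous (Lk k f) := by
  have h2 : Continuous (fderiv ℝ f) := hf.continuous_fderiv (by simp)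
  unfold Lk
  exact h2.clm_apply (J k).continuous

theorem form_lower {ι : Type} [Fintype ι] [DecidableEq ι] (K : ℕ) (Y : ι → E3 → ℝ)
    (lev : ι → ℕ) (hY : ∀ i, ContDiff ℝ ∞ (Y i))
    (horth : ∀ i j, B (Y i) (Y j) = if i = j then 1 else 0)
    (hineq : ∀ f : E3 → ℝ, ContDiff ℝ ∞ f →
      (∑ i, (lev i : ℝ) * (lev i + 1) * B f (Y i) ^ 2) +
        (K : ℝ) * (K + 1) * (B f f - ∑ i, B f (Y i) ^ 2) ≤ ∑ k, B (Lk k f) (Lk k f))
    (v : E3 → ℝ) (hv : ContDiff ℝ ∞ v) (hc : HasCompactSupport v)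
    (w : ℝ → ℝ) (hw : Measurable w) (hw0 : ∀ r, 0 ≤ w r)
    (hi : Integrable (fun x : E3 => w ‖x‖ ^ (3 / 2 : ℝ)))
    (hK : cLT * ∫ t, Wt w t ^ (3 / 2 : ℝ) ≤ ((K : ℝ) + 1 / 2) ^ 2) :
    ∑ i, q1 (Wt w) (((lev i : ℝ) + 1 / 2) ^ 2) (fun t => B (psi v t) (Y i))
      (fun t => B (psid v t) (Y i)) ≤ ∫ x, (‖fderiv ℝ v x‖ ^ 2 - w ‖x‖ * v x ^ 2) := by
  have hYc : ∀ i, Continuous (Y i) := fun i => (hY i).continuous
  obtain ⟨p1, p2, p3, p4, p5⟩ := form_polar v hv hc w hw hw0 hi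
  have hWt0 : ∀ t, 0 ≤ Wt w t := fun t => mul_nonneg (exp_pos _).le (hw0 _)
  have hWtm : Measurable (Wt w) := by
    unfold Wt
    exact (measurable_exp.comp (measurable_id.const_mul 2)).mul (hw.comp measurable_exp)
  have hWtL : MemLp (Wt w) (3 / 2) := (Wt_int w hw hw0 hi).1
  have hsob : ∀ i, Sob (fun t => B (psi v t) (Y i)) (fun t => B (psid v t) (Y i)) :=
    fun i => sob_phi v hv hc (Y i) (hYc i)
  obtain ⟨s, hs⟩ : ∃ s : ℝ → ℝ, s = fun t => √(Wt w t) := ⟨_, rfl⟩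
  have hsm : Measurable s := by rw [hs]; exact hWtm.sqrt
  have hs2 : ∀ t, s t ^ 2 = Wt w t := by
    intro t
    rw [hs]
    exact Real.sq_sqrt (hWt0 t)
  obtain ⟨A1, A2⟩ := FL_main Y hYc horth (psid v) (FL_psid_cont v hv) (fun _ => 1)
    measurable_const (fun i => (hsob i).memLp_deriv.aestronglyMeasurable) (by simpa using p1)
    (fun i => by simpa using (hsob i).memLp_deriv.integrable_sq)
  obtain ⟨B1, B2⟩ := FL_main Y hYc horth (psi v) (FL_psi_cont v hv) (fun _ => 1)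
    measurable_const (fun i => (hsob i).memLp.aestronglyMeasurable) (by simpa using p2)
    (fun i => by simpa using (hsob i).memLp.integrable_sq)
  obtain ⟨C1, C2⟩ := FL_main Y hYc horth (psi v) (FL_psi_cont v hv) s
    hsm (fun i => (hsob i).memLp.aestronglyMeasurable) (by simpa [mul_pow, hs2] using p4)
    (fun i => by simpa [mul_pow, hs2] using int_W_sq (Wt w) hWtL _ _ (hsob i))
  simp only [one_mul] at A1 A2 B1 B2
  simp only [mul_pow, hs2] at C1 C2
  obtain ⟨κ, hκ⟩ : ∃ κ : ℝ, κ = ((K : ℝ) + 1 / 2) ^ 2 := ⟨_, rfl⟩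
  rw [← hκ] at hK
  have hpos : 0 ≤ (∫ p : ℝ × sphere (0 : E3) 1, FL_rho Y (psid v) p.1 p.2 ^ 2
        ∂(volume.prod sig)) +
      κ * (∫ p : ℝ × sphere (0 : E3) 1, FL_rho Y (psi v) p.1 p.2 ^ 2 ∂(volume.prod sig)) -
      ∫ p : ℝ × sphere (0 : E3) 1, Wt w p.1 * FL_rho Y (psi v) p.1 p.2 ^ 2
        ∂(volume.prod sig) := by
    have B1' := B1.const_mul κ
    have AB : Integrable (fun p : ℝ × sphere (0 : E3) 1 => FL_rho Y (psid v) p.1 p.2 ^ 2 +
      κ * FL_rho Y (psi v) p.1 p.2 ^ 2) (volume.prod sig) := A1.add B1'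
    have ABC : Integrable (fun p : ℝ × sphere (0 : E3) 1 => FL_rho Y (psid v) p.1 p.2 ^ 2 +
      κ * FL_rho Y (psi v) p.1 p.2 ^ 2 - Wt w p.1 * FL_rho Y (psi v) p.1 p.2 ^ 2)
      (volume.prod sig) := AB.sub C1
    rw [← integral_const_mul, ← integral_add A1 B1', ← integral_sub AB C1,
      integral_prod_symm _ ABC]
    apply integral_nonneg
    intro ξ
    have hξ : ‖(ξ : E3)‖ = 1 := by simp
    have hS : Sob (fun t => FL_rho Y (psi v) t ξ) (fun t => FL_rho Y (psid v) t ξ) := by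
      have h1 := sob_psi v hv hc ξ hξ
      have h2 := FL_sob_mul (-1) (FL_sob_sum Finset.univ (fun i => Y i ξ) _ _ hsob)
      have h3 := FL_sob_add h1 h2
      have e1 : (fun t => FL_rho Y (psi v) t ξ) = fun t => psi v t ξ +
          -1 * ∑ i, Y i ξ * B (psi v t) (Y i) := by
        funext t
        unfold FL_rho
        have : ∑ i, B (psi v t) (Y i) * Y i ξ = ∑ i, Y i ξ * B (psi v t) (Y i) :=
          Finset.sum_congr rfl fun i _ => mul_comm _ _
        rw [this]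
        ring
      have e2 : (fun t => FL_rho Y (psid v) t ξ) = fun t => psid v t ξ +
          -1 * ∑ i, Y i ξ * B (psid v t) (Y i) := by
        funext t
        unfold FL_rho
        have : ∑ i, B (psid v t) (Y i) * Y i ξ = ∑ i, Y i ξ * B (psid v t) (Y i) :=
          Finset.sum_congr rfl fun i _ => mul_comm _ _
        rw [this]
        ring
      rw [e1, e2]
      exact h3
    have hq := scalar_pos (Wt w) hWtL hWt0 κ hK _ _ hS
    unfold q1 at hq
    have j1 := hS.memLp_deriv.integrable_sq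
    have j2 := hS.memLp.integrable_sq.const_mul κ
    have j3 := int_W_sq (Wt w) hWtL _ _ hS
    have j12 : Integrable (fun t => FL_rho Y (psid v) t ξ ^ 2 +
      κ * FL_rho Y (psi v) t ξ ^ 2) := j1.add j2
    change 0 ≤ ∫ t, (FL_rho Y (psid v) t ξ ^ 2 + κ * FL_rho Y (psi v) t ξ ^ 2 -
      Wt w t * FL_rho Y (psi v) t ξ ^ 2)
    rw [integral_sub j12 j3, integral_add j1 j2, integral_const_mul]
    exact hq
  have hint2 : ∀ i, Integrable (fun t => B (psi v t) (Y i) ^ 2) :=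
    fun i => (hsob i).memLp.integrable_sq
  have hC : (∑ i, (lev i : ℝ) * (lev i + 1) * ∫ t, B (psi v t) (Y i) ^ 2) +
      (K : ℝ) * (K + 1) * ((∫ p : ℝ × sphere (0 : E3) 1, psi v p.1 p.2 ^ 2
        ∂(volume.prod sig)) - ∑ i, ∫ t, B (psi v t) (Y i) ^ 2) ≤
      ∫ p : ℝ × sphere (0 : E3) 1, ∑ k, Lk k (psi v p.1) p.2 ^ 2 ∂(volume.prod sig) := by
    have k1 : ∀ i, Integrable (fun t => (lev i : ℝ) * (lev i + 1) * B (psi v t) (Y i) ^ 2) :=
      fun i => (hint2 i).const_mul _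
    have k2 : Integrable (fun t => ∑ i, (lev i : ℝ) * (lev i + 1) * B (psi v t) (Y i) ^ 2) :=
      integrable_finsetSum _ fun i _ => k1 i
    have k3 : Integrable (fun t => ∫ ξ : sphere (0 : E3) 1, psi v t ξ ^ 2 ∂sig) :=
      p2.integral_prod_left
    have k4 : Integrable (fun t => ∑ i, B (psi v t) (Y i) ^ 2) :=
      integrable_finsetSum _ fun i _ => hint2 i
    have k5 : Integrable (fun t => (∫ ξ : sphere (0 : E3) 1, psi v t ξ ^ 2 ∂sig) -
      ∑ i, B (psi v t) (Y i) ^ 2) := k3.sub k4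
    have k6 := k5.const_mul ((K : ℝ) * (K + 1))
    have e : (∑ i, (lev i : ℝ) * (lev i + 1) * ∫ t, B (psi v t) (Y i) ^ 2) +
      (K : ℝ) * (K + 1) * ((∫ p : ℝ × sphere (0 : E3) 1, psi v p.1 p.2 ^ 2
        ∂(volume.prod sig)) - ∑ i, ∫ t, B (psi v t) (Y i) ^ 2) =
      ∫ t, ((∑ i, (lev i : ℝ) * (lev i + 1) * B (psi v t) (Y i) ^ 2) +
        (K : ℝ) * (K + 1) * ((∫ ξ : sphere (0 : E3) 1, psi v t ξ ^ 2 ∂sig) -
          ∑ i, B (psi v t) (Y i) ^ 2)) := by
      rw [integral_add k2 k6, integral_finsetSum _ fun i _ => k1 i, integral_const_mul,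
        integral_sub k3 k4, integral_finsetSum _ fun i _ => hint2 i, integral_prod _ p2]
      congr 1
      refine Finset.sum_congr rfl fun i _ => ?_
      rw [integral_const_mul]
    rw [e, integral_prod _ p3]
    refine integral_mono (k2.add k6) p3.integral_prod_left ?_
    intro t
    change (∑ i, (lev i : ℝ) * (lev i + 1) * B (psi v t) (Y i) ^ 2) +
        (K : ℝ) * (K + 1) * ((∫ ξ : sphere (0 : E3) 1, psi v t ξ ^ 2 ∂sig) -
          ∑ i, B (psi v t) (Y i) ^ 2) ≤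
        ∫ ξ : sphere (0 : E3) 1, ∑ k, Lk k (psi v t) ξ ^ 2 ∂sig
    have h1 := hineq (psi v t) (FL_psi_smooth v hv t)
    have e1 : B (psi v t) (psi v t) = ∫ ξ : sphere (0 : E3) 1, psi v t ξ ^ 2 ∂sig := by
      unfold B
      simp_rw [sq]
    have hLc : ∀ k, Continuous (fun ξ : sphere (0 : E3) 1 => Lk k (psi v t) ξ) :=
      fun k => (FL_Lk_cont k _ (FL_psi_smooth v hv t)).comp continuous_subtype_val
    have e2 : ∑ k, B (Lk k (psi v t)) (Lk k (psi v t)) =
        ∫ ξ : sphere (0 : E3) 1, ∑ k, Lk k (psi v t) ξ ^ 2 ∂sig := by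
      have hLi : ∀ k, Integrable (fun ξ : sphere (0 : E3) 1 => Lk k (psi v t) ξ ^ 2) sig :=
        fun k => FL_integ ((hLc k).pow 2)
      rw [integral_finsetSum _ fun k _ => hLi k]
      refine Finset.sum_congr rfl fun k _ => ?_
      unfold B
      simp_rw [sq]
    rw [← e1, ← e2]
    exact h1
  rw [p5]
  unfold q1
  rw [A2, B2, C2] at hpos
  have hsum : ∑ i, ((∫ t, B (psid v t) (Y i) ^ 2) +
      ((lev i : ℝ) + 1 / 2) ^ 2 * (∫ t, B (psi v t) (Y i) ^ 2) -
      ∫ t, Wt w t * B (psi v t) (Y i) ^ 2) =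
      (∑ i, ∫ t, B (psid v t) (Y i) ^ 2) +
      ((∑ i, (lev i : ℝ) * (lev i + 1) * ∫ t, B (psi v t) (Y i) ^ 2) +
        1 / 4 * ∑ i, ∫ t, B (psi v t) (Y i) ^ 2) -
      ∑ i, ∫ t, Wt w t * B (psi v t) (Y i) ^ 2 := by
    rw [Finset.sum_sub_distrib]
    congr 1
    rw [Finset.mul_sum, ← Finset.sum_add_distrib, ← Finset.sum_add_distrib]
    refine Finset.sum_congr rfl fun i _ => ?_
    ring
  rw [hsum]
  have hκ2 : κ = (K : ℝ) * (K + 1) + 1 / 4 := by rw [hκ]; ring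
  rw [hκ2] at hpos
  linarith

end Pool.Agent.Helper970.Rad
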