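import Pool.Agent.Helper970.Rad.Defs

set_option autoImplicit false

open MeasureTheory Set Metric Real
open scoped RealInnerProductSpace ENNReal ContDiff

namespace Pool.Agent.Helper970.Rad



theorem phi_sum {n : ℕ} (u : Fin n → E3 → ℝ) (hu : ∀ a, ContDiff ℝ ∞ (u a)) (c : Fin n → ℝ)
    (Y : E3 → ℝ) (hY : Continuous Y) (t : ℝ) :
    B (psi (fun y => ∑ a, c a * u a y) t) Y = ∑ a, c a * B (psi (u a) t) Y ∧
    B (psid (fun y => ∑ a, c a * u a y) t) Y = ∑ a, c a * B (psid (u a) t) Y := by
  have hcu : ∀ a, Continuous (u a) := fun a => (hu a).continuous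
  have hdu : ∀ a, Differentiable ℝ (u a) := fun a => (hu a).differentiable (by simp)
  have hfd : ∀ a, Continuous (fun x => fderiv ℝ (u a) x) :=
    fun a => (hu a).continuous_fderiv (by simp)
  have hpsi : ∀ x, psi (fun y => ∑ a, c a * u a y) t x = ∑ a, c a * psi (u a) t x := by
    intro x
    simp only [psi, Finset.mul_sum]
    refine Finset.sum_congr rfl fun a _ => ?_
    ring
  have hfs : ∀ x v, fderiv ℝ (fun y => ∑ a, c a * u a y) x v = ∑ a, c a * fderiv ℝ (u a) x v := by
    intro x v
    have h : HasFDerivAt (fun y => ∑ a, c a * u a y) (∑ a, c a • fderiv ℝ (u a) x) x := by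
      refine HasFDerivAt.fun_sum fun a _ => ?_
      exact ((hdu a) x).hasFDerivAt.const_mul (c a)
    rw [h.fderiv]
    simp
  have hpsid : ∀ x, psid (fun y => ∑ a, c a * u a y) t x = ∑ a, c a * psid (u a) t x := by
    intro x
    simp only [psid]
    rw [hpsi, hfs, Finset.sum_div, Finset.mul_sum, ← Finset.sum_add_distrib]
    refine Finset.sum_congr rfl fun a _ => ?_
    ring
  have hcpsi : ∀ a, Continuous (psi (u a) t) := by
    intro a
    unfold psi
    have := hcu a
    fun_prop
  have hcpsid : ∀ a, Continuous (psid (u a) t) := by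
    intro a
    unfold psid
    have h1 := hcpsi a
    have h2 := hfd a
    have h3 : Continuous (fun x : E3 => fderiv ℝ (u a) (exp t • x) (exp t • x)) := by
      exact (h2.comp (continuous_const_smul (exp t))).clm_apply (continuous_const_smul (exp t))
    fun_prop
  have hint : ∀ f : E3 → ℝ, Continuous f →
      Integrable (fun ξ : sphere (0 : E3) 1 => f (ξ : E3)) sig := by
    intro f hf
    have hc : Continuous (fun ξ : sphere (0 : E3) 1 => f (ξ : E3)) :=
      hf.comp continuous_subtype_val
    exact hc.integrable_of_hasCompactSupport (HasCompactSupport.of_compactSpace _)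
  have key : ∀ F : Fin n → E3 → ℝ, (∀ a, Continuous (F a)) → ∀ G : E3 → ℝ,
      (∀ x, G x = ∑ a, c a * F a x) → B G Y = ∑ a, c a * B (F a) Y := by
    intro F hF G hG
    unfold B
    have h1 : ∀ ξ : sphere (0 : E3) 1, G (ξ : E3) * Y (ξ : E3)
        = ∑ a, c a * (F a (ξ : E3) * Y (ξ : E3)) := by
      intro ξ
      rw [hG, Finset.sum_mul]
      refine Finset.sum_congr rfl fun a _ => ?_
      ring
    rw [integral_congr_ae (Filter.Eventually.of_forall h1), integral_finsetSum]
    · refine Finset.sum_congr rfl fun a _ => ?_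
      rw [integral_const_mul]
    · intro a _
      exact (hint (fun x => F a x * Y x) ((hF a).mul hY)).const_mul (c a)
  exact ⟨key _ hcpsi _ hpsi, key _ hcpsid _ hpsid⟩

end Pool.Agent.Helper970.Rad
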