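import Pool.Agent.Helper970.Rad.Defs
import Pool.Agent.Helper970.Rad.P_int_W_sq

set_option autoImplicit false

open MeasureTheory Set Metric Real
open scoped RealInnerProductSpace ENNReal ContDiff

namespace Pool.Agent.Helper970.Rad



theorem q1_expand_aux {n : ℕ} (w : ℝ → ℝ) (f : Fin n → ℝ → ℝ) (c : Fin n → ℝ)
    (h : ∀ a b, Integrable (fun t => w t * (f a t * f b t))) :
    ∫ t, w t * (∑ a, c a * f a t) ^ 2 = ∑ a, ∑ b, c a * c b * ∫ t, w t * (f a t * f b t) := by
  have e : ∀ t, w t * (∑ a, c a * f a t) ^ 2 =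
      ∑ a, ∑ b, (c a * c b) * (w t * (f a t * f b t)) := by
    intro t
    rw [sq, Finset.sum_mul_sum, Finset.mul_sum]
    refine Finset.sum_congr rfl fun a _ => ?_
    rw [Finset.mul_sum]
    refine Finset.sum_congr rfl fun b _ => ?_
    ring
  simp only [e]
  rw [integral_finsetSum _ (fun a _ => integrable_finsetSum _
    fun b _ => (h a b).const_mul (c a * c b))]
  refine Finset.sum_congr rfl fun a _ => ?_
  rw [integral_finsetSum _ (fun b _ => (h a b).const_mul (c a * c b))]
  refine Finset.sum_congr rfl fun b _ => ?_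
  rw [integral_const_mul]

theorem q1_expand_add {u g u' g' : ℝ → ℝ} (h : Sob u g) (h' : Sob u' g') :
    Sob (fun t => u t + u' t) (fun t => g t + g' t) := by
  refine ⟨h.memLp.add h'.memLp, h.memLp_deriv.add h'.memLp_deriv, fun a b => ?_⟩
  have i1 : IntervalIntegrable g volume a b :=
    intervalIntegrable_iff.2 (((h.memLp_deriv.locallyIntegrable
      (by norm_num)).integrableOn_isCompact isCompact_uIcc).mono_set uIoc_subset_uIcc)
  have i2 : IntervalIntegrable g' volume a b :=
    intervalIntegrable_iff.2 (((h'.memLp_deriv.locallyIntegrable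
      (by norm_num)).integrableOn_isCompact isCompact_uIcc).mono_set uIoc_subset_uIcc)
  rw [intervalIntegral.integral_add i1 i2, ← h.integral_deriv a b, ← h'.integral_deriv a b]
  ring

theorem q1_expand {n : ℕ} (u g : Fin n → ℝ → ℝ) (hs : ∀ a, Sob (u a) (g a)) (W : ℝ → ℝ)
    (hW : MemLp W (3 / 2)) (κ : ℝ) (c : Fin n → ℝ) :
    q1 W κ (fun t => ∑ a, c a * u a t) (fun t => ∑ a, c a * g a t) =
      ∑ a, ∑ b, c a * c b * qM W κ u g a b := by
  have hg : ∀ a b, Integrable (fun t => (1 : ℝ) * (g a t * g b t)) := by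
    intro a b
    simp only [one_mul]
    exact (hs a).memLp_deriv.integrable_mul (hs b).memLp_deriv
  have hu : ∀ a b, Integrable (fun t => (1 : ℝ) * (u a t * u b t)) := by
    intro a b
    simp only [one_mul]
    exact (hs a).memLp.integrable_mul (hs b).memLp
  have hWu : ∀ a b, Integrable (fun t => W t * (u a t * u b t)) := by
    intro a b
    have h1 := int_W_sq W hW _ _ (q1_expand_add (hs a) (hs b))
    have h2 := int_W_sq W hW _ _ (hs a)
    have h3 := int_W_sq W hW _ _ (hs b)
    have h4 := (((h1.sub h2).sub h3).const_mul (1 / 2 : ℝ))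
    refine h4.congr (Filter.Eventually.of_forall fun t => ?_)
    simp only [Pi.sub_apply]
    ring
  have e1 := q1_expand_aux (fun _ => 1) g c hg
  have e2 := q1_expand_aux (fun _ => 1) u c hu
  have e3 := q1_expand_aux W u c hWu
  simp only [one_mul] at e1 e2
  unfold q1 qM
  rw [e1, e2, e3, Finset.mul_sum, ← Finset.sum_add_distrib, ← Finset.sum_sub_distrib]
  refine Finset.sum_congr rfl fun a _ => ?_
  rw [Finset.mul_sum, ← Finset.sum_add_distrib, ← Finset.sum_sub_distrib]
  refine Finset.sum_congr rfl fun b _ => ?_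
  ring

end Pool.Agent.Helper970.Rad
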