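import Pool.Agent.Helper970.Rad.P_sphere_system
import Pool.Agent.Helper970.Rad.P_sob_phi
import Pool.Agent.Helper970.Rad.P_Wt_int
import Pool.Agent.Helper970.Rad.P_form_lower
import Pool.Agent.Helper970.Rad.P_dim_bound
import Pool.Agent.Helper970.Rad.P_q1_expand
import Pool.Agent.Helper970.Rad.P_complexify
import Pool.Agent.Helper970.Rad.P_counting
import Pool.Agent.Helper970.Rad.P_phi_sum
import Pool.Agent.Helper970.Rad.P_const_eq
import Pool.Agent.Helper970.Rad.P_sharp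

set_option autoImplicit false

open MeasureTheory Set Metric Real
open scoped RealInnerProductSpace ENNReal ContDiff

namespace Pool.Agent.Helper970.Rad

/-- The upper bound, with the potential given through its profile. -/
theorem upper (w : ℝ → ℝ) (hw : Measurable w) (hw0 : ∀ r, 0 ≤ w r)
    (hi : Integrable (fun x : E3 => w ‖x‖ ^ (3 / 2 : ℝ)))
    (n : ℕ) (u : Fin n → E3 → ℝ) (hu : ∀ i, ContDiff ℝ ∞ (u i) ∧ HasCompactSupport (u i))
    (hneg : ∀ c : Fin n → ℝ, c ≠ 0 →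
      ∫ x, (‖fderiv ℝ (fun y => ∑ i, c i * u i y) x‖ ^ 2
        - w ‖x‖ * (∑ i, c i * u i x) ^ 2) < 0) :
    (n : ℝ) ≤ (3 * π) ^ (-(3 / 2 : ℝ)) * Real.Gamma 3 / Real.Gamma (3 / 2) *
      ∫ x : E3, w ‖x‖ ^ (3 / 2 : ℝ) := by
  classical
  obtain ⟨hWm, hWi⟩ := Wt_int w hw hw0 hi
  have hWt0 : ∀ t, 0 ≤ Wt w t := fun t => mul_nonneg (exp_pos _).le (hw0 _)
  obtain ⟨d, Y, hd, hY, ho, ho', hineq⟩ := sphere_system
  -- choose K large
  obtain ⟨K, hK⟩ := exists_nat_ge (cLT * ∫ t, Wt w t ^ (3 / 2 : ℝ))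
  have hK' : cLT * ∫ t, Wt w t ^ (3 / 2 : ℝ) ≤ ((K : ℝ) + 1 / 2) ^ 2 := by
    have hK0 : (0 : ℝ) ≤ K := Nat.cast_nonneg K
    nlinarith
  let ι := Σ l : Fin K, Fin (d l)
  let Z : ι → E3 → ℝ := fun i => Y i.1 i.2
  let lev : ι → ℕ := fun i => i.1
  have hZ : ∀ i, ContDiff ℝ ∞ (Z i) := fun i => hY _ _
  have hZo : ∀ i j, B (Z i) (Z j) = if i = j then 1 else 0 := by
    rintro ⟨l, i⟩ ⟨l', j⟩
    by_cases hl : l = l'
    · subst hl
      show B (Y l i) (Y l j) = _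
      rw [ho]
      by_cases hij : i = j
      · subst hij
        rw [if_pos rfl, if_pos rfl]
      · rw [if_neg hij, if_neg]
        intro h
        apply hij
        have h2 := Sigma.mk.inj_iff.1 h
        exact eq_of_heq h2.2
    · have h1 : (l : ℕ) ≠ (l' : ℕ) := fun h => hl (Fin.ext h)
      show B (Y l i) (Y l' j) = _
      rw [ho' _ _ _ _ h1, if_neg]
      intro h
      exact hl (congrArg Sigma.fst h)
  have hsum : ∀ (G : (l : ℕ) → Fin (d l) → ℝ), ∑ i : ι, G i.1 i.2 =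
      ∑ l ∈ Finset.range K, ∑ j, G l j := by
    intro G
    rw [Fintype.sum_sigma, ← Fin.sum_univ_eq_sum_range (fun l => ∑ j, G l j)]
  have hZineq : ∀ f : E3 → ℝ, ContDiff ℝ ∞ f →
      (∑ i, (lev i : ℝ) * (lev i + 1) * B f (Z i) ^ 2) +
        (K : ℝ) * (K + 1) * (B f f - ∑ i, B f (Z i) ^ 2) ≤ ∑ k, B (Lk k f) (Lk k f) := by
    intro f hf
    have h1 := hineq K f hf
    have h2 := hsum (fun l j => (l : ℝ) * (l + 1) * B f (Y l j) ^ 2)
    have h3 := hsum (fun l j => B f (Y l j) ^ 2)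
    simp only [← Finset.mul_sum] at h2
    calc _ = (∑ l ∈ Finset.range K, (l : ℝ) * (l + 1) * ∑ j, B f (Y l j) ^ 2) +
        (K : ℝ) * (K + 1) * (B f f - ∑ l ∈ Finset.range K, ∑ j, B f (Y l j) ^ 2) := by
          rw [← h2, ← h3]
      _ ≤ _ := h1
  -- the quadratic forms
  let U : ι → Fin n → ℝ → ℝ := fun i a t => B (psi (u a) t) (Z i)
  let U' : ι → Fin n → ℝ → ℝ := fun i a t => B (psid (u a) t) (Z i)
  have hUs : ∀ i a, Sob (U i a) (U' i a) := fun i a =>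
    sob_phi (u a) (hu a).1 (hu a).2 (Z i) (hZ i).continuous
  let M : ι → Fin n → Fin n → ℝ := fun i => qM (Wt w) (((lev i : ℝ) + 1 / 2) ^ 2) (U i) (U' i)
  have hMs : ∀ i a b, M i a b = M i b a := by
    intro i a b
    show qM _ _ _ _ _ _ = qM _ _ _ _ _ _
    unfold qM
    simp only [mul_comm]
  let Q : (Fin n → ℝ) → ℝ := fun c => ∫ x, (‖fderiv ℝ (fun y => ∑ i, c i * u i y) x‖ ^ 2
        - w ‖x‖ * (∑ i, c i * u i x) ^ 2)
  have hQ : ∀ c, c ≠ 0 → Q c < 0 := hneg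
  have hcd : ∀ c : Fin n → ℝ, ContDiff ℝ ∞ (fun y => ∑ i, c i * u i y) := fun c =>
    ContDiff.sum fun i _ => contDiff_const.mul (hu i).1
  have hcs : ∀ c : Fin n → ℝ, HasCompactSupport (fun y => ∑ i, c i * u i y) := by
    intro c
    have h1 : ∀ s : Finset (Fin n), HasCompactSupport (fun y => ∑ i ∈ s, c i * u i y) := by
      intro s
      induction s using Finset.induction_on with
      | empty =>
        simp only [Finset.sum_empty]
        exact HasCompactSupport.zero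
      | insert a s ha ih =>
        simp only [Finset.sum_insert ha]
        exact ((hu a).2.mul_left (f := fun _ => c a)).add ih
    exact h1 _
  have hq : ∀ c : Fin n → ℝ, ∀ i, q1 (Wt w) (((lev i : ℝ) + 1 / 2) ^ 2) (fun t => ∑ a, c a * U i a t)
      (fun t => ∑ a, c a * U' i a t) = ∑ a, ∑ b, c a * c b * M i a b := fun c i =>
    q1_expand (U i) (U' i) (hUs i) (Wt w) hWm _ c
  have hlow : ∀ c, ∑ i, ∑ a, ∑ b, c a * c b * M i a b ≤ Q c := by
    intro c
    have h1 := form_lower K Z lev hZ hZo hZineq (fun y => ∑ i, c i * u i y) (hcd c) (hcs c) w hw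
      hw0 hi hK'
    have h2 : ∀ i, (fun t => B (psi (fun y => ∑ a, c a * u a y) t) (Z i)) =
        fun t => ∑ a, c a * U i a t := fun i => by
      funext t
      exact (phi_sum u (fun a => (hu a).1) c (Z i) (hZ i).continuous t).1
    have h3 : ∀ i, (fun t => B (psid (fun y => ∑ a, c a * u a y) t) (Z i)) =
        fun t => ∑ a, c a * U' i a t := fun i => by
      funext t
      exact (phi_sum u (fun a => (hu a).1) c (Z i) (hZ i).continuous t).2
    simp only [h2, h3, hq] at h1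
    exact h1
  obtain ⟨F, hF, hFn⟩ := dim_bound M hMs Q hQ hlow
  have hX : ∀ i, ∃ X : Submodule ℂ (ℝ → ℂ), Module.finrank ℂ X = Module.finrank ℝ (F i) ∧
      ∀ f ∈ X, ∃ h, CSob f h ∧ (∫ t, ‖h t‖ ^ 2) + ((lev i : ℝ) + 1 / 2) ^ 2 * (∫ t, ‖f t‖ ^ 2) ≤
        ∫ t, Wt w t * ‖f t‖ ^ 2 := fun i =>
    complexify (U i) (U' i) (hUs i) (Wt w) hWm _ (F i) (fun c hc hc0 => by
      rw [hq]; exact hF i c hc hc0)
  choose X hXf hXq using hX
  -- the largest space at each level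
  have hbest : ∀ l : ℕ, ∃ G : Submodule ℂ (ℝ → ℂ),
      (∀ i : ι, lev i = l → Module.finrank ℂ (X i) ≤ Module.finrank ℂ G) ∧
      (l < K → ∀ f ∈ G, ∃ h, CSob f h ∧ (∫ t, ‖h t‖ ^ 2) + ((l : ℝ) + 1 / 2) ^ 2 *
        (∫ t, ‖f t‖ ^ 2) ≤ ∫ t, Wt w t * ‖f t‖ ^ 2) := by
    intro l
    by_cases hne : (Finset.univ.filter fun i : ι => lev i = l).Nonempty
    · obtain ⟨i, hi1, hi2⟩ := Finset.exists_max_image _ (fun i => Module.finrank ℂ (X i)) hne
      refine ⟨X i, fun j hj => hi2 j (Finset.mem_filter.2 ⟨Finset.mem_univ _, hj⟩), fun _ => ?_⟩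
      have h1 : lev i = l := (Finset.mem_filter.1 hi1).2
      have h2 := hXq i
      rw [h1] at h2
      exact h2
    · refine ⟨⊥, fun i hi => absurd ⟨i, Finset.mem_filter.2 ⟨Finset.mem_univ _, hi⟩⟩ hne,
        fun _ f hf => ?_⟩
      rw [Submodule.mem_bot] at hf
      subst hf
      refine ⟨0, ⟨MemLp.zero, MemLp.zero, fun a b => by simp⟩, by simp⟩
  choose G hG1 hG2 using hbest
  have hcount := counting (Wt w) hWm hWt0 K G (fun l hl => hG2 l hl)
  have h5 : (∑ i, (Module.finrank ℝ (F i) : ℝ)) ≤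
      ∑ l ∈ Finset.range K, (2 * (l : ℝ) + 1) * Module.finrank ℂ (G l) := by
    calc (∑ i, (Module.finrank ℝ (F i) : ℝ)) ≤ ∑ i : ι, (Module.finrank ℂ (G i.1) : ℝ) := by
          refine Finset.sum_le_sum fun i _ => ?_
          rw [← hXf i]
          exact_mod_cast hG1 _ i rfl
      _ = ∑ l ∈ Finset.range K, ∑ _j : Fin (d l), (Module.finrank ℂ (G l) : ℝ) :=
          hsum (fun l _ => (Module.finrank ℂ (G l) : ℝ))
      _ ≤ _ := by
          refine Finset.sum_le_sum fun l _ => ?_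
          rw [Finset.sum_const, Finset.card_univ, Fintype.card_fin, nsmul_eq_mul]
          refine mul_le_mul_of_nonneg_right ?_ (Nat.cast_nonneg _)
          exact_mod_cast hd l
  have h6 : (n : ℝ) ≤ ∑ i, (Module.finrank ℝ (F i) : ℝ) := by exact_mod_cast hFn
  rw [const_eq, hWi]
  have hπ := pi_pos
  calc (n : ℝ) ≤ 4 * cLT * ∫ t, Wt w t ^ (3 / 2 : ℝ) := h6.trans (h5.trans hcount)
    _ = 4 * cLT / (4 * π) * (4 * π * ∫ t, Wt w t ^ (3 / 2 : ℝ)) := by field_simp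

end Pool.Agent.Helper970.Rad
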