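import Pool.Agent.Helper970.Rad.Defs

set_option autoImplicit false

open MeasureTheory Set Metric Real
open scoped RealInnerProductSpace ENNReal ContDiff

namespace Pool.Agent.Helper970.Rad



/-- rotation about the axis `k` by the angle `t` -/
noncomputable def ilR (k : Fin 3) (t : ℝ) : E3 →ₗ[ℝ] E3 :=
  LinearMap.id + Real.sin t • (J k : E3 →ₗ[ℝ] E3)
    + (1 - Real.cos t) • ((J k : E3 →ₗ[ℝ] E3) ∘ₗ (J k : E3 →ₗ[ℝ] E3))

theorem ilR_apply (k : Fin 3) (t : ℝ) (x : E3) :
    ilR k t x = x + Real.sin t • J k x + (1 - Real.cos t) • J k (J k x) := rfl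

theorem il_J_apply (k : Fin 3) (x : E3) : J k x =
    (WithLp.toLp 2 (![![0, -(x 2), x 1], ![x 2, 0, -(x 0)], ![-(x 1), x 0, 0]] k) : E3) := rfl

theorem ilR_norm (k : Fin 3) (t : ℝ) (x : E3) : ‖ilR k t x‖ = ‖x‖ := by
  rw [EuclideanSpace.norm_eq, EuclideanSpace.norm_eq]
  congr 1
  have h := Real.sin_sq_add_cos_sq t
  rw [ilR_apply, il_J_apply, il_J_apply]
  simp only [Real.norm_eq_abs, sq_abs, Fin.sum_univ_three]
  fin_cases k
  · simp
    linear_combination ((x 1) ^ 2 + (x 2) ^ 2) * h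
  · simp
    linear_combination ((x 0) ^ 2 + (x 2) ^ 2) * h
  · simp
    linear_combination ((x 0) ^ 2 + (x 1) ^ 2) * h

/-- the rotation as a linear isometric automorphism -/
noncomputable def ilE (k : Fin 3) (t : ℝ) : E3 ≃ₗᵢ[ℝ] E3 :=
  LinearIsometry.toLinearIsometryEquiv ⟨ilR k t, ilR_norm k t⟩ rfl

theorem ilE_apply (k : Fin 3) (t : ℝ) (x : E3) : ilE k t x = ilR k t x := rfl

/-- the induced map of the sphere -/
noncomputable def ilS (e : E3 ≃ₗᵢ[ℝ] E3) (ξ : sphere (0 : E3) 1) : sphere (0 : E3) 1 :=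
  ⟨e ξ, by
    rw [mem_sphere_zero_iff_norm, e.norm_map]
    exact mem_sphere_zero_iff_norm.mp ξ.2⟩

theorem ilS_cont (e : E3 ≃ₗᵢ[ℝ] E3) : Continuous (ilS e) :=
  Continuous.subtype_mk (e.continuous.comp continuous_subtype_val) _

open scoped Pointwise in
theorem ilS_mp (e : E3 ≃ₗᵢ[ℝ] E3) : MeasurePreserving (ilS e) sig sig := by
  refine ⟨(ilS_cont e).measurable, ?_⟩
  ext s hs
  rw [Measure.map_apply (ilS_cont e).measurable hs]
  unfold sig
  rw [Measure.toSphere_apply' _ hs, Measure.toSphere_apply' _ ((ilS_cont e).measurable hs)]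
  congr 1
  have h1 : Ioo (0 : ℝ) 1 • ((↑) '' (ilS e ⁻¹' s) : Set E3)
      = e ⁻¹' (Ioo (0 : ℝ) 1 • ((↑) '' s : Set E3)) := by
    ext x
    constructor
    · rintro ⟨r, hr, _, ⟨ξ, hξ, rfl⟩, rfl⟩
      refine ⟨r, hr, (ilS e ξ : E3), ⟨ilS e ξ, hξ, rfl⟩, ?_⟩
      show r • e ξ = e (r • (ξ : E3))
      rw [map_smul]
    · rintro ⟨r, hr, _, ⟨ξ, hξ, rfl⟩, hx⟩
      have hx' : r • (ξ : E3) = e x := hx
      refine ⟨r, hr, e.symm (ξ : E3), ⟨ilS e.symm ξ, ?_, rfl⟩, ?_⟩
      · show ilS e (ilS e.symm ξ) ∈ s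
        have : ilS e (ilS e.symm ξ) = ξ := by
          apply Subtype.ext
          exact e.apply_symm_apply _
        rw [this]
        exact hξ
      · show r • e.symm (ξ : E3) = x
        rw [← map_smul, hx', e.symm_apply_apply]
  rw [h1]
  exact e.measurePreserving.measure_preimage_emb e.toHomeomorph.measurableEmbedding _

theorem il_rot (k : Fin 3) (f : E3 → ℝ) (hf : Continuous f) (t : ℝ) :
    ∫ ξ, f (ilR k t (ξ : E3)) ∂sig = ∫ ξ, f (ξ : E3) ∂sig := by
  have h := ilS_mp (ilE k t)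
  have h2 : ∫ ξ, f (ξ : E3) ∂(Measure.map (ilS (ilE k t)) sig)
      = ∫ ξ, f ((ilS (ilE k t) ξ : sphere (0 : E3) 1) : E3) ∂sig := by
    apply integral_map h.measurable.aemeasurable
    exact (hf.comp continuous_subtype_val).aestronglyMeasurable
  rw [h.map_eq] at h2
  rw [h2]
  rfl

theorem int_Lk (k : Fin 3) (f : E3 → ℝ) (hf : ContDiff ℝ 1 f) :
    ∫ ξ, Lk k f (ξ : E3) ∂sig = 0 := by
  have hfc : Continuous f := hf.continuous
  have hfd : Continuous (fderiv ℝ f) := hf.continuous_fderiv one_ne_zero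
  obtain ⟨C, hC⟩ := (isCompact_closedBall (0 : E3) 1).exists_bound_of_continuousOn
    hfd.continuousOn
  have hR : ∀ x : E3, ∀ t : ℝ, HasDerivAt (fun t => ilR k t x)
      (Real.cos t • J k x + Real.sin t • J k (J k x)) t := by
    intro x t
    have h1 : HasDerivAt (fun t : ℝ => x + Real.sin t • J k x
        + (1 - Real.cos t) • J k (J k x))
        (0 + Real.cos t • J k x + (0 - (-Real.sin t)) • J k (J k x)) t :=
      ((hasDerivAt_const t x).add ((Real.hasDerivAt_sin t).smul_const (J k x))).add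
        (((hasDerivAt_const t (1 : ℝ)).sub (Real.hasDerivAt_cos t)).smul_const (J k (J k x)))
    have e : 0 + Real.cos t • J k x + (0 - (-Real.sin t)) • J k (J k x)
        = Real.cos t • J k x + Real.sin t • J k (J k x) := by
      rw [zero_add, zero_sub, neg_neg]
    rw [e] at h1
    exact h1
  have hcR : ∀ t : ℝ, Continuous (fun x : E3 => ilR k t x) := fun t =>
    (ilE k t).continuous
  have key := hasDerivAt_integral_of_dominated_loc_of_deriv_le (𝕜 := ℝ) (μ := sig)
    (F := fun (t : ℝ) (ξ : sphere (0 : E3) 1) => f (ilR k t (ξ : E3)))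
    (F' := fun (t : ℝ) (ξ : sphere (0 : E3) 1) => fderiv ℝ f (ilR k t (ξ : E3))
      (Real.cos t • J k (ξ : E3) + Real.sin t • J k (J k (ξ : E3))))
    (x₀ := 0) (s := Set.univ) (bound := fun _ => C * (‖J k‖ + ‖J k‖ * ‖J k‖))
    Filter.univ_mem
    (Filter.Eventually.of_forall fun t =>
      (hfc.comp ((hcR t).comp continuous_subtype_val)).aestronglyMeasurable)
    (by
      have hc : Continuous (fun ξ : sphere (0 : E3) 1 => f (ilR k 0 (ξ : E3))) :=
        hfc.comp ((hcR 0).comp continuous_subtype_val)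
      exact hc.integrable_of_hasCompactSupport (HasCompactSupport.of_compactSpace _))
    (by
      apply Continuous.aestronglyMeasurable
      have hv : Continuous (fun ξ : sphere (0 : E3) 1 =>
          Real.cos 0 • J k (ξ : E3) + Real.sin 0 • J k (J k (ξ : E3))) := by fun_prop
      exact (hfd.comp ((hcR 0).comp continuous_subtype_val)).clm_apply hv)
    (Filter.Eventually.of_forall fun ξ t _ => by
      have hξ : ‖(ξ : E3)‖ = 1 := mem_sphere_zero_iff_norm.mp ξ.2
      have h1 : ‖fderiv ℝ f (ilR k t (ξ : E3))‖ ≤ C := by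
        apply hC
        rw [mem_closedBall_zero_iff, ilR_norm, hξ]
      have h2 : ‖Real.cos t • J k (ξ : E3) + Real.sin t • J k (J k (ξ : E3))‖
          ≤ ‖J k‖ + ‖J k‖ * ‖J k‖ := by
        have a1 : ‖J k (ξ : E3)‖ ≤ ‖J k‖ := by
          have := (J k).le_opNorm (ξ : E3)
          rwa [hξ, mul_one] at this
        have a2 : ‖J k (J k (ξ : E3))‖ ≤ ‖J k‖ * ‖J k‖ :=
          ((J k).le_opNorm _).trans (mul_le_mul_of_nonneg_left a1 (norm_nonneg _))
        refine (norm_add_le _ _).trans (add_le_add ?_ ?_)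
        · rw [norm_smul, Real.norm_eq_abs]
          calc |Real.cos t| * ‖J k (ξ : E3)‖ ≤ 1 * ‖J k (ξ : E3)‖ :=
                mul_le_mul_of_nonneg_right (Real.abs_cos_le_one t) (norm_nonneg _)
            _ ≤ ‖J k‖ := by rw [one_mul]; exact a1
        · rw [norm_smul, Real.norm_eq_abs]
          calc |Real.sin t| * ‖J k (J k (ξ : E3))‖ ≤ 1 * ‖J k (J k (ξ : E3))‖ :=
                mul_le_mul_of_nonneg_right (Real.abs_sin_le_one t) (norm_nonneg _)
            _ ≤ ‖J k‖ * ‖J k‖ := by rw [one_mul]; exact a2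
      refine (ContinuousLinearMap.le_opNorm _ _).trans ?_
      exact mul_le_mul h1 h2 (norm_nonneg _) ((norm_nonneg _).trans h1))
    (integrable_const _)
    (Filter.Eventually.of_forall fun ξ t _ => by
      have hfx : HasFDerivAt f (fderiv ℝ f (ilR k t (ξ : E3))) (ilR k t (ξ : E3)) :=
        (hf.differentiable one_ne_zero _).hasFDerivAt
      exact hfx.comp_hasDerivAt t (hR (ξ : E3) t))
  have hconst : (fun t : ℝ => ∫ ξ, f (ilR k t (ξ : E3)) ∂sig)
      = fun _ => ∫ ξ, f (ξ : E3) ∂sig := by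
    funext t
    exact il_rot k f hfc t
  have h1 := key.2
  rw [hconst] at h1
  have h2 := h1.unique (hasDerivAt_const (0 : ℝ) (∫ ξ, f (ξ : E3) ∂sig))
  rw [← h2]
  apply integral_congr_ae
  refine Filter.Eventually.of_forall fun ξ => ?_
  show fderiv ℝ f (ξ : E3) (J k (ξ : E3)) = fderiv ℝ f (ilR k 0 (ξ : E3))
      (Real.cos 0 • J k (ξ : E3) + Real.sin 0 • J k (J k (ξ : E3)))
  have e0 : ilR k 0 (ξ : E3) = (ξ : E3) := by
    rw [ilR_apply, Real.sin_zero, Real.cos_zero, zero_smul, sub_self, zero_smul, add_zero, add_zero]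
  rw [e0, Real.cos_zero, Real.sin_zero, one_smul, zero_smul, add_zero]

end Pool.Agent.Helper970.Rad
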