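import Pool.Agent.Helper970.Rad.Defs
import Pool.Agent.Helper970.Rad.P_int_Lk

set_option autoImplicit false

open MeasureTheory Set Metric Real
open scoped RealInnerProductSpace ENNReal ContDiff

namespace Pool.Agent.Helper970.Rad



theorem Lk_cont849 (k : Fin 3) (f : E3 → ℝ) (hf : ContDiff ℝ 1 f) : Continuous (Lk k f) := by
  unfold Lk
  exact (hf.continuous_fderiv (by norm_num)).clm_apply (J k).continuous

theorem B_Lk (k : Fin 3) (f g : E3 → ℝ) (hf : ContDiff ℝ 1 f) (hg : ContDiff ℝ 1 g) :
    B (Lk k f) g = - B f (Lk k g) := by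
  have h1 := int_Lk k (fun x => f x * g x) (hf.mul hg)
  have h2 : ∀ x, Lk k (fun x => f x * g x) x = Lk k f x * g x + f x * Lk k g x := by
    intro x
    have hfd : DifferentiableAt ℝ f x := (hf.differentiable (by norm_num)) x
    have hgd : DifferentiableAt ℝ g x := (hg.differentiable (by norm_num)) x
    have h3 : fderiv ℝ (fun x => f x * g x) x = f x • fderiv ℝ g x + g x • fderiv ℝ f x :=
      (hfd.hasFDerivAt.mul hgd.hasFDerivAt).fderiv
    unfold Lk
    rw [h3]
    simp only [ContinuousLinearMap.add_apply, ContinuousLinearMap.smul_apply, smul_eq_mul]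
    ring
  haveI : CompactSpace (sphere (0 : E3) 1) := isCompact_iff_compactSpace.mp (isCompact_sphere 0 1)
  have hi : ∀ F : E3 → ℝ, Continuous F → Integrable (fun ξ : sphere (0 : E3) 1 => F (ξ : E3)) sig :=
    fun F hF => (hF.comp continuous_subtype_val).integrable_of_hasCompactSupport
      (HasCompactSupport.of_compactSpace _)
  have i1 := hi (fun x => Lk k f x * g x) ((Lk_cont849 k f hf).mul hg.continuous)
  have i2 := hi (fun x => f x * Lk k g x) (hf.continuous.mul (Lk_cont849 k g hg))
  simp only [h2] at h1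
  rw [integral_add i1 i2] at h1
  unfold B
  linarith

end Pool.Agent.Helper970.Rad
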