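import Pool.Agent.Helper970.Rad.Defs

set_option autoImplicit false

open MeasureTheory Set Metric Real
open scoped RealInnerProductSpace ENNReal ContDiff

namespace Pool.Agent.Helper970.Rad


theorem mono_contDiff (a : Fin 3 → ℕ) : ContDiff ℝ ∞ (mono a) := by
  unfold mono
  refine contDiff_prod fun i _ => ContDiff.pow ?_ _
  exact (EuclideanSpace.proj (𝕜 := ℝ) i).contDiff

theorem PLt_contDiff (n : ℕ) (f : E3 → ℝ) (hf : f ∈ PLt n) : ContDiff ℝ ∞ f := by
  unfold PLt at hf
  induction hf using Submodule.span_induction with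
  | mem f hf =>
    obtain ⟨a, -, rfl⟩ := hf
    exact mono_contDiff a
  | zero => exact contDiff_const
  | add f g _ _ hf hg => exact hf.add hg
  | smul c f _ hf => exact hf.const_smul c

end Pool.Agent.Helper970.Rad
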