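import Pool.Agent.Helper970.Rad.Defs

set_option autoImplicit false

open MeasureTheory Set Metric Real
open scoped RealInnerProductSpace ENNReal ContDiff

namespace Pool.Agent.Helper970.Rad



/-- the functions with the required representation on the sphere -/
def RepPLt (n : ℕ) (b : Fin (2 * n + 1) → E3 → ℝ) (f : E3 → ℝ) : Prop :=
  ∃ g ∈ PLt n, ∃ c : Fin (2 * n + 1) → ℝ, ∀ x : E3, ‖x‖ = 1 → f x = g x + ∑ j, c j * b j x

theorem RepPLt.zero {n : ℕ} {b : Fin (2 * n + 1) → E3 → ℝ} : RepPLt n b 0 :=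
  ⟨0, Submodule.zero_mem _, 0, fun x _ => by simp⟩

theorem RepPLt.add {n : ℕ} {b : Fin (2 * n + 1) → E3 → ℝ} {f f' : E3 → ℝ}
    (h : RepPLt n b f) (h' : RepPLt n b f') : RepPLt n b (f + f') := by
  obtain ⟨g, hg, c, hc⟩ := h
  obtain ⟨g', hg', c', hc'⟩ := h'
  refine ⟨g + g', Submodule.add_mem _ hg hg', c + c', fun x hx => ?_⟩
  simp only [Pi.add_apply, add_mul, Finset.sum_add_distrib]
  rw [hc x hx, hc' x hx]
  ring

theorem RepPLt.smul {n : ℕ} {b : Fin (2 * n + 1) → E3 → ℝ} {f : E3 → ℝ} (r : ℝ)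
    (h : RepPLt n b f) : RepPLt n b (r • f) := by
  obtain ⟨g, hg, c, hc⟩ := h
  refine ⟨r • g, Submodule.smul_mem _ r hg, r • c, fun x hx => ?_⟩
  simp only [Pi.smul_apply, smul_eq_mul]
  rw [hc x hx, mul_add, Finset.mul_sum]
  simp only [mul_assoc]

theorem RepPLt.congr {n : ℕ} {b : Fin (2 * n + 1) → E3 → ℝ} {f f' : E3 → ℝ}
    (h : RepPLt n b f) (e : ∀ x : E3, ‖x‖ = 1 → f' x = f x) : RepPLt n b f' := by
  obtain ⟨g, hg, c, hc⟩ := h
  exact ⟨g, hg, c, fun x hx => by rw [e x hx, hc x hx]⟩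

theorem mono_vec (i j k : ℕ) (x : E3) : mono ![i, j, k] x = x 0 ^ i * x 1 ^ j * x 2 ^ k := by
  simp [mono, Fin.prod_univ_three]

theorem mono_eta (a : Fin 3 → ℕ) : mono a = mono ![a 0, a 1, a 2] := by
  congr 1
  funext i
  fin_cases i <;> rfl

/-- the generators -/
noncomputable def bPLt (n : ℕ) (j : Fin (2 * n + 1)) : E3 → ℝ :=
  if (j : ℕ) ≤ n then mono ![j, n - j, 0] else mono ![j - (n + 1), n - 1 - (j - (n + 1)), 1]

theorem mono_mem_PLt {i j k m : ℕ} (h : i + j + k < m) : mono ![i, j, k] ∈ PLt m := by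
  apply Submodule.subset_span
  refine ⟨![i, j, k], ?_, rfl⟩
  show ∑ l, (![i, j, k] : Fin 3 → ℕ) l < m
  simp [Fin.sum_univ_three]
  omega

theorem bPLt_mem (n : ℕ) (j : Fin (2 * n + 1)) : bPLt n j ∈ PLt (n + 1) := by
  have hj := j.2
  unfold bPLt
  split_ifs with h
  · apply mono_mem_PLt; omega
  · apply mono_mem_PLt; omega

theorem RepPLt.gen (n : ℕ) (j : Fin (2 * n + 1)) : RepPLt n (bPLt n) (bPLt n j) := by
  classical
  refine ⟨0, Submodule.zero_mem _, fun l => if l = j then 1 else 0, fun x _ => ?_⟩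
  simp

theorem sphere_sq {x : E3} (hx : ‖x‖ = 1) : x 0 ^ 2 + x 1 ^ 2 + x 2 ^ 2 = 1 := by
  have h := EuclideanSpace.norm_sq_eq x
  rw [hx, Fin.sum_univ_three] at h
  simp only [Real.norm_eq_abs, sq_abs] at h
  linarith

theorem RepPLt.mono (n : ℕ) : ∀ k i j : ℕ, i + j + k ≤ n →
    RepPLt n (bPLt n) (mono ![i, j, k]) := by
  intro k
  induction k using Nat.strong_induction_on with
  | _ k ih =>
    intro i j hn
    rcases Nat.lt_or_ge (i + j + k) n with h | h
    · exact ⟨Rad.mono ![i, j, k], mono_mem_PLt h, 0, fun x _ => by simp⟩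
    · have hn' : i + j + k = n := le_antisymm hn h
      rcases Nat.lt_or_ge k 2 with hk | hk
      · interval_cases k
        · have h1 : RepPLt n (bPLt n) (bPLt n ⟨i, by omega⟩) := RepPLt.gen n _
          have h2 : bPLt n ⟨i, by omega⟩ = Rad.mono ![i, j, 0] := by
            unfold bPLt
            have h3 : n - i = j := by omega
            simp only []
            rw [if_pos (by omega), h3]
          rw [h2] at h1
          exact h1
        · have h1 : RepPLt n (bPLt n) (bPLt n ⟨n + 1 + i, by omega⟩) := RepPLt.gen n _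
          have h2 : bPLt n ⟨n + 1 + i, by omega⟩ = Rad.mono ![i, j, 1] := by
            unfold bPLt
            have h3 : n + 1 + i - (n + 1) = i := by omega
            have h4 : n - 1 - i = j := by omega
            simp only []
            rw [if_neg (by omega), h3, h4]
          rw [h2] at h1
          exact h1
      · have r1 := ih (k - 2) (by omega) i j (by omega)
        have r2 := ih (k - 2) (by omega) (i + 2) j (by omega)
        have r3 := ih (k - 2) (by omega) i (j + 2) (by omega)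
        refine ((r1.add (r2.smul (-1))).add (r3.smul (-1))).congr ?_
        intro x hx
        have h1 := sphere_sq hx
        simp only [Pi.add_apply, Pi.smul_apply, smul_eq_mul, mono_vec]
        obtain ⟨m, rfl⟩ : ∃ m, k = m + 2 := ⟨k - 2, by omega⟩
        have h2 : m + 2 - 2 = m := by omega
        rw [h2]
        have h3 : x 2 ^ 2 = 1 - x 0 ^ 2 - x 1 ^ 2 := by linarith
        rw [pow_add (x 2), h3, pow_add (x 0), pow_add (x 1)]
        ring

theorem PLt_gen (n : ℕ) : ∃ b : Fin (2 * n + 1) → E3 → ℝ, (∀ j, b j ∈ PLt (n + 1)) ∧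
    ∀ f ∈ PLt (n + 1), ∃ g ∈ PLt n, ∃ c : Fin (2 * n + 1) → ℝ,
      ∀ x : E3, ‖x‖ = 1 → f x = g x + ∑ j, c j * b j x := by
  refine ⟨bPLt n, bPLt_mem n, fun f hf => ?_⟩
  have key : RepPLt n (bPLt n) f := by
    unfold PLt at hf
    induction hf using Submodule.span_induction with
    | mem x hx =>
      obtain ⟨a, ha, rfl⟩ := hx
      rw [mono_eta a]
      have h1 : ∑ i, a i < n + 1 := ha
      rw [Fin.sum_univ_three] at h1
      exact RepPLt.mono n _ _ _ (by omega)
    | zero => exact RepPLt.zero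
    | add x y _ _ hx hy => exact hx.add hy
    | smul r x _ hx => exact hx.smul r
  exact key

end Pool.Agent.Helper970.Rad
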