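import Pool.Agent.Helper970.Rad.Defs

set_option autoImplicit false

open MeasureTheory Set Metric Real
open scoped RealInnerProductSpace ENNReal ContDiff

namespace Pool.Agent.Helper970.Rad



theorem mon_fd_17526 (r : ℝ) (a b c : ℕ) (x : E3) :
    HasFDerivAt (fun y : E3 => r * (y 0 ^ a * y 1 ^ b * y 2 ^ c))
      ((r * (a * x 0 ^ (a - 1)) * x 1 ^ b * x 2 ^ c) • (EuclideanSpace.proj 0 : E3 →L[ℝ] ℝ) +
       (r * x 0 ^ a * (b * x 1 ^ (b - 1)) * x 2 ^ c) • (EuclideanSpace.proj 1 : E3 →L[ℝ] ℝ) +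
       (r * x 0 ^ a * x 1 ^ b * (c * x 2 ^ (c - 1))) • (EuclideanSpace.proj 2 : E3 →L[ℝ] ℝ)) x := by
  have h0 : HasFDerivAt (fun y : E3 => y 0) (EuclideanSpace.proj 0 : E3 →L[ℝ] ℝ) x :=
    (EuclideanSpace.proj 0 : E3 →L[ℝ] ℝ).hasFDerivAt
  have h1 : HasFDerivAt (fun y : E3 => y 1) (EuclideanSpace.proj 1 : E3 →L[ℝ] ℝ) x :=
    (EuclideanSpace.proj 1 : E3 →L[ℝ] ℝ).hasFDerivAt
  have h2 : HasFDerivAt (fun y : E3 => y 2) (EuclideanSpace.proj 2 : E3 →L[ℝ] ℝ) x :=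
    (EuclideanSpace.proj 2 : E3 →L[ℝ] ℝ).hasFDerivAt
  have h := (((h0.pow a).mul (h1.pow b)).mul (h2.pow c)).const_mul r
  refine h.congr_fderiv ?_
  ext v
  simp
  ring

theorem TTgen_17526 (f : E3 → ℝ) (g : Fin 3 → E3 → ℝ) (h : Fin 3 → Fin 3 → E3 → ℝ)
    (hf : ∀ x, HasFDerivAt f (g 0 x • (EuclideanSpace.proj 0 : E3 →L[ℝ] ℝ) +
      g 1 x • (EuclideanSpace.proj 1 : E3 →L[ℝ] ℝ) +
      g 2 x • (EuclideanSpace.proj 2 : E3 →L[ℝ] ℝ)) x)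
    (hg : ∀ i x, HasFDerivAt (g i) (h i 0 x • (EuclideanSpace.proj 0 : E3 →L[ℝ] ℝ) +
      h i 1 x • (EuclideanSpace.proj 1 : E3 →L[ℝ] ℝ) +
      h i 2 x • (EuclideanSpace.proj 2 : E3 →L[ℝ] ℝ)) x) (k : Fin 3) (x : E3) :
    Lk k (Lk k f) x = (J k x) 0 * (h 0 0 x * (J k x) 0 + h 0 1 x * (J k x) 1 + h 0 2 x * (J k x) 2) +
      (J k x) 1 * (h 1 0 x * (J k x) 0 + h 1 1 x * (J k x) 1 + h 1 2 x * (J k x) 2) +
      (J k x) 2 * (h 2 0 x * (J k x) 0 + h 2 1 x * (J k x) 1 + h 2 2 x * (J k x) 2) +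
      (g 0 x * (J k (J k x)) 0 + g 1 x * (J k (J k x)) 1 + g 2 x * (J k (J k x)) 2) := by
  have h1 : Lk k f = fun y => g 0 y * (J k y) 0 + g 1 y * (J k y) 1 + g 2 y * (J k y) 2 := by
    funext y
    unfold Lk
    rw [(hf y).fderiv]
    simp
  have hJ : ∀ i : Fin 3, HasFDerivAt (fun y : E3 => (J k y) i)
      ((EuclideanSpace.proj i : E3 →L[ℝ] ℝ).comp (J k)) x := fun i =>
    ((EuclideanSpace.proj i : E3 →L[ℝ] ℝ).comp (J k)).hasFDerivAt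
  have h2 := (((hg 0 x).mul (hJ 0)).add ((hg 1 x).mul (hJ 1))).add ((hg 2 x).mul (hJ 2))
  rw [h1]
  unfold Lk
  have h3 : fderiv ℝ (fun y => g 0 y * (J k y) 0 + g 1 y * (J k y) 1 + g 2 y * (J k y) 2) x = _ :=
    h2.fderiv
  rw [h3]
  simp
  ring

theorem J_val_17526 (x : E3) :
    ((J 0 x) 0 = 0 ∧ (J 0 x) 1 = - x 2 ∧ (J 0 x) 2 = x 1) ∧
    ((J 1 x) 0 = x 2 ∧ (J 1 x) 1 = 0 ∧ (J 1 x) 2 = - x 0) ∧
    ((J 2 x) 0 = - x 1 ∧ (J 2 x) 1 = x 0 ∧ (J 2 x) 2 = 0) := by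
  refine ⟨⟨?_, ?_, ?_⟩, ⟨?_, ?_, ?_⟩, ⟨?_, ?_, ?_⟩⟩ <;> rfl

theorem pw1_17526 (u : ℝ) (n : ℕ) : u * (n * u ^ (n - 1)) = n * u ^ n := by
  cases n with
  | zero => simp
  | succ n => rw [Nat.add_sub_cancel]; push_cast; ring

theorem pw2_17526 (u : ℝ) (n : ℕ) : u * u * (n * ((n : ℝ) - 1) * u ^ (n - 2)) =
    n * ((n : ℝ) - 1) * u ^ n := by
  match n with
  | 0 => simp
  | 1 => simp
  | n + 2 => rw [Nat.add_sub_cancel]; push_cast; ring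

theorem pw3_17526 (u : ℝ) (n : ℕ) : (n : ℝ) * (((n - 1 : ℕ) : ℝ) * u ^ (n - 1 - 1)) =
    n * ((n : ℝ) - 1) * u ^ (n - 2) := by
  match n with
  | 0 => simp
  | 1 => simp
  | n + 2 =>
    have e : n + 2 - 1 - 1 = n := by omega
    have e2 : n + 2 - 1 = n + 1 := by omega
    rw [Nat.add_sub_cancel, e, e2]
    push_cast
    ring

theorem TT_mono (a : Fin 3 → ℕ) (x : E3) :
    TT (mono a) x = ‖x‖ ^ 2 * (∑ i, (a i : ℝ) * (a i - 1) * mono (Function.update a i (a i - 2)) x)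
      - (∑ i, (a i : ℝ)) * ((∑ i, (a i : ℝ)) + 1) * mono a x := by
  have hm : mono a = fun y => 1 * (y 0 ^ a 0 * y 1 ^ a 1 * y 2 ^ a 2) := by
    funext y
    unfold mono
    rw [Fin.prod_univ_three, one_mul]
  have hnorm : ‖x‖ ^ 2 = x 0 ^ 2 + x 1 ^ 2 + x 2 ^ 2 := by
    have h2 := EuclideanSpace.norm_sq_eq x
    rw [Fin.sum_univ_three] at h2
    simpa only [Real.norm_eq_abs, sq_abs] using h2
  have hu0 : mono (Function.update a 0 (a 0 - 2)) x = x 0 ^ (a 0 - 2) * x 1 ^ a 1 * x 2 ^ a 2 := by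
    unfold mono
    rw [Fin.prod_univ_three]
    simp
  have hu1 : mono (Function.update a 1 (a 1 - 2)) x = x 0 ^ a 0 * x 1 ^ (a 1 - 2) * x 2 ^ a 2 := by
    unfold mono
    rw [Fin.prod_univ_three]
    simp
  have hu2 : mono (Function.update a 2 (a 2 - 2)) x = x 0 ^ a 0 * x 1 ^ a 1 * x 2 ^ (a 2 - 2) := by
    unfold mono
    rw [Fin.prod_univ_three]
    simp
  -- first and second derivatives
  set p := a 0 with hp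
  set q := a 1 with hq
  set s := a 2 with hs
  set g : Fin 3 → E3 → ℝ := ![fun y => (p : ℝ) * (y 0 ^ (p - 1) * y 1 ^ q * y 2 ^ s),
    fun y => (q : ℝ) * (y 0 ^ p * y 1 ^ (q - 1) * y 2 ^ s),
    fun y => (s : ℝ) * (y 0 ^ p * y 1 ^ q * y 2 ^ (s - 1))] with hg
  set h : Fin 3 → Fin 3 → E3 → ℝ := ![
    ![fun y => (p : ℝ) * (((p - 1 : ℕ) : ℝ) * y 0 ^ (p - 1 - 1)) * y 1 ^ q * y 2 ^ s,
      fun y => (p : ℝ) * y 0 ^ (p - 1) * ((q : ℝ) * y 1 ^ (q - 1)) * y 2 ^ s,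
      fun y => (p : ℝ) * y 0 ^ (p - 1) * y 1 ^ q * ((s : ℝ) * y 2 ^ (s - 1))],
    ![fun y => (q : ℝ) * ((p : ℝ) * y 0 ^ (p - 1)) * y 1 ^ (q - 1) * y 2 ^ s,
      fun y => (q : ℝ) * y 0 ^ p * (((q - 1 : ℕ) : ℝ) * y 1 ^ (q - 1 - 1)) * y 2 ^ s,
      fun y => (q : ℝ) * y 0 ^ p * y 1 ^ (q - 1) * ((s : ℝ) * y 2 ^ (s - 1))],
    ![fun y => (s : ℝ) * ((p : ℝ) * y 0 ^ (p - 1)) * y 1 ^ q * y 2 ^ (s - 1),
      fun y => (s : ℝ) * y 0 ^ p * ((q : ℝ) * y 1 ^ (q - 1)) * y 2 ^ (s - 1),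
      fun y => (s : ℝ) * y 0 ^ p * y 1 ^ q * (((s - 1 : ℕ) : ℝ) * y 2 ^ (s - 1 - 1))]] with hh
  have hf1 : ∀ y : E3, HasFDerivAt (mono a) (g 0 y • (EuclideanSpace.proj 0 : E3 →L[ℝ] ℝ) +
      g 1 y • (EuclideanSpace.proj 1 : E3 →L[ℝ] ℝ) +
      g 2 y • (EuclideanSpace.proj 2 : E3 →L[ℝ] ℝ)) y := by
    intro y
    rw [hm]
    refine (mon_fd_17526 1 p q s y).congr_fderiv ?_
    have e0 : g 0 y = (p : ℝ) * (y 0 ^ (p - 1) * y 1 ^ q * y 2 ^ s) := rfl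
    have e1 : g 1 y = (q : ℝ) * (y 0 ^ p * y 1 ^ (q - 1) * y 2 ^ s) := rfl
    have e2 : g 2 y = (s : ℝ) * (y 0 ^ p * y 1 ^ q * y 2 ^ (s - 1)) := rfl
    rw [e0, e1, e2]
    congr 1
    · congr 1
      · congr 1
        ring
      · congr 1
        ring
    · congr 1
      ring
  have hg1 : ∀ i (y : E3), HasFDerivAt (g i) (h i 0 y • (EuclideanSpace.proj 0 : E3 →L[ℝ] ℝ) +
      h i 1 y • (EuclideanSpace.proj 1 : E3 →L[ℝ] ℝ) +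
      h i 2 y • (EuclideanSpace.proj 2 : E3 →L[ℝ] ℝ)) y := by
    intro i y
    fin_cases i
    · exact mon_fd_17526 p (p - 1) q s y
    · exact mon_fd_17526 q p (q - 1) s y
    · exact mon_fd_17526 s p q (s - 1) y
  have key := fun k => TTgen_17526 (mono a) g h hf1 hg1 k x
  obtain ⟨⟨j00, j01, j02⟩, ⟨j10, j11, j12⟩, ⟨j20, j21, j22⟩⟩ := J_val_17526 x
  obtain ⟨⟨a00, a01, a02⟩, _, _⟩ := J_val_17526 (J 0 x)
  obtain ⟨_, ⟨b10, b11, b12⟩, _⟩ := J_val_17526 (J 1 x)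
  obtain ⟨_, _, ⟨c20, c21, c22⟩⟩ := J_val_17526 (J 2 x)
  have k0 := key 0
  have k1 := key 1
  have k2 := key 2
  rw [j00, j01, j02, a00, a01, a02, j01, j02] at k0
  rw [j10, j11, j12, b10, b11, b12, j10, j12] at k1
  rw [j20, j21, j22, c20, c21, c22, j20, j21] at k2
  unfold TT
  rw [Fin.sum_univ_three, k0, k1, k2, Fin.sum_univ_three, Fin.sum_univ_three, hu0, hu1, hu2, hnorm]
  have e0 : g 0 x = (p : ℝ) * (x 0 ^ (p - 1) * x 1 ^ q * x 2 ^ s) := rfl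
  have e1 : g 1 x = (q : ℝ) * (x 0 ^ p * x 1 ^ (q - 1) * x 2 ^ s) := rfl
  have e2 : g 2 x = (s : ℝ) * (x 0 ^ p * x 1 ^ q * x 2 ^ (s - 1)) := rfl
  have h00 : h 0 0 x = (p : ℝ) * (((p - 1 : ℕ) : ℝ) * x 0 ^ (p - 1 - 1)) * x 1 ^ q * x 2 ^ s := rfl
  have h01 : h 0 1 x = (p : ℝ) * x 0 ^ (p - 1) * ((q : ℝ) * x 1 ^ (q - 1)) * x 2 ^ s := rfl
  have h02 : h 0 2 x = (p : ℝ) * x 0 ^ (p - 1) * x 1 ^ q * ((s : ℝ) * x 2 ^ (s - 1)) := rfl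
  have h10 : h 1 0 x = (q : ℝ) * ((p : ℝ) * x 0 ^ (p - 1)) * x 1 ^ (q - 1) * x 2 ^ s := rfl
  have h11 : h 1 1 x = (q : ℝ) * x 0 ^ p * (((q - 1 : ℕ) : ℝ) * x 1 ^ (q - 1 - 1)) * x 2 ^ s := rfl
  have h12 : h 1 2 x = (q : ℝ) * x 0 ^ p * x 1 ^ (q - 1) * ((s : ℝ) * x 2 ^ (s - 1)) := rfl
  have h20 : h 2 0 x = (s : ℝ) * ((p : ℝ) * x 0 ^ (p - 1)) * x 1 ^ q * x 2 ^ (s - 1) := rfl
  have h21 : h 2 1 x = (s : ℝ) * x 0 ^ p * ((q : ℝ) * x 1 ^ (q - 1)) * x 2 ^ (s - 1) := rfl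
  have h22 : h 2 2 x = (s : ℝ) * x 0 ^ p * x 1 ^ q * (((s - 1 : ℕ) : ℝ) * x 2 ^ (s - 1 - 1)) := rfl
  have m0 : mono a x = x 0 ^ p * x 1 ^ q * x 2 ^ s := by
    rw [hm]
    show 1 * (x 0 ^ p * x 1 ^ q * x 2 ^ s) = _
    rw [one_mul]
  have hu := pw1_17526 (x 0) p
  have hv := pw1_17526 (x 1) q
  have hw := pw1_17526 (x 2) s
  have hu' := pw2_17526 (x 0) p
  have hv' := pw2_17526 (x 1) q
  have hw' := pw2_17526 (x 2) s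
  have hu3 := pw3_17526 (x 0) p
  have hv3 := pw3_17526 (x 1) q
  have hw3 := pw3_17526 (x 2) s
  have h00' : h 0 0 x = (p * ((p : ℝ) - 1) * x 0 ^ (p - 2)) * x 1 ^ q * x 2 ^ s := by rw [h00, hu3]
  have h11' : h 1 1 x = (q * ((q : ℝ) - 1) * x 1 ^ (q - 2)) * x 0 ^ p * x 2 ^ s := by
    rw [h11, ← hv3]; ring
  have h22' : h 2 2 x = (s * ((s : ℝ) - 1) * x 2 ^ (s - 2)) * x 0 ^ p * x 1 ^ q := by
    rw [h22, ← hw3]; ring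
  rw [e0, e1, e2, h00', h01, h02, h10, h11', h12, h20, h21, h22', m0]
  generalize x 0 ^ (p - 1) = A1 at *
  generalize x 1 ^ (q - 1) = B1 at *
  generalize x 2 ^ (s - 1) = C1 at *
  generalize x 0 ^ (p - 2) = A2 at *
  generalize x 1 ^ (q - 2) = B2 at *
  generalize x 2 ^ (s - 2) = C2 at *
  generalize x 0 ^ p = A0 at *
  generalize x 1 ^ q = B0 at *
  generalize x 2 ^ s = C0 at *
  linear_combination (-2 * B0 * C0) * hu + (-2 * A0 * C0) * hv + (-2 * A0 * B0) * hw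
    - (B0 * C0) * hu' - (A0 * C0) * hv' - (A0 * B0) * hw'
    - 2 * (x 1 * (q * B1) * C0) * hu - 2 * (p * A0 * C0) * hv
    - 2 * (x 2 * (s * C1) * B0) * hu - 2 * (p * A0 * B0) * hw
    - 2 * (x 2 * (s * C1) * A0) * hv - 2 * (q * B0 * A0) * hw

end Pool.Agent.Helper970.Rad
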