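import Pool.Agent.Helper970.Rad.Defs
import Pool.Agent.Helper970.Rad.P_PLt_contDiff
import Pool.Agent.Helper970.Rad.P_TT_mono

set_option autoImplicit false

open MeasureTheory Set Metric Real
open scoped RealInnerProductSpace ENNReal ContDiff

namespace Pool.Agent.Helper970.Rad



theorem j17524_smooth (k : Fin 3) {f : E3 → ℝ} (hf : ContDiff ℝ ∞ f) :
    ContDiff ℝ ∞ (Lk k f) := by
  have h1 : ContDiff ℝ ∞ (fderiv ℝ f) := hf.fderiv_right (by simp)
  exact h1.clm_apply (J k).contDiff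

theorem j17524_Lk_add (k : Fin 3) {f g : E3 → ℝ} (hf : ContDiff ℝ ∞ f)
    (hg : ContDiff ℝ ∞ g) : Lk k (f + g) = Lk k f + Lk k g := by
  funext x
  have h1 : DifferentiableAt ℝ f x := (hf.differentiable (by simp)) x
  have h2 : DifferentiableAt ℝ g x := (hg.differentiable (by simp)) x
  change fderiv ℝ (f + g) x (J k x) = fderiv ℝ f x (J k x) + fderiv ℝ g x (J k x)
  rw [fderiv_add h1 h2]
  rfl

theorem j17524_Lk_smul (k : Fin 3) (c : ℝ) {f : E3 → ℝ} (hf : ContDiff ℝ ∞ f) :
    Lk k (c • f) = c • Lk k f := by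
  funext x
  have h1 : DifferentiableAt ℝ f x := (hf.differentiable (by simp)) x
  change fderiv ℝ (c • f) x (J k x) = c • fderiv ℝ f x (J k x)
  rw [fderiv_const_smul h1]
  rfl

theorem j17524_TT_add {f g : E3 → ℝ} (hf : ContDiff ℝ ∞ f) (hg : ContDiff ℝ ∞ g) (x : E3) :
    TT (f + g) x = TT f x + TT g x := by
  unfold TT
  rw [← Finset.sum_add_distrib]
  refine Finset.sum_congr rfl fun k _ => ?_
  rw [j17524_Lk_add k hf hg, j17524_Lk_add k (j17524_smooth k hf) (j17524_smooth k hg)]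
  rfl

theorem j17524_TT_smul (c : ℝ) {f : E3 → ℝ} (hf : ContDiff ℝ ∞ f) (x : E3) :
    TT (c • f) x = c * TT f x := by
  unfold TT
  rw [Finset.mul_sum]
  refine Finset.sum_congr rfl fun k _ => ?_
  rw [j17524_Lk_smul k c hf, j17524_Lk_smul k c (j17524_smooth k hf)]
  rfl

theorem j17524_zero (x : E3) : TT (0 : E3 → ℝ) x = 0 := by
  have h := j17524_TT_smul 0 (contDiff_const (c := (0 : ℝ)) : ContDiff ℝ ∞ (fun _ : E3 => (0 : ℝ))) x
  rw [zero_mul, zero_smul] at h
  exact h

theorem j17524_upd (n : ℕ) (a : Fin 3 → ℕ) (ha : ∑ i, a i < n + 1) (i : Fin 3) :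
    ((a i : ℝ) * (a i - 1)) • mono (Function.update a i (a i - 2)) ∈ PLt n := by
  by_cases h2 : 2 ≤ a i
  · refine Submodule.smul_mem _ _ (Submodule.subset_span ⟨_, ?_, rfl⟩)
    change ∑ j, Function.update a i (a i - 2) j < n
    rw [Finset.sum_update_of_mem (Finset.mem_univ i)]
    have h3 : ∑ j, a j = a i + ∑ j ∈ Finset.univ \ {i}, a j := by
      rw [Finset.sdiff_singleton_eq_erase, Finset.add_sum_erase _ _ (Finset.mem_univ i)]
    omega
  · have h3 : (a i : ℝ) * (a i - 1) = 0 := by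
      have : a i = 0 ∨ a i = 1 := by omega
      rcases this with h | h <;> rw [h] <;> norm_num
    rw [h3, zero_smul]
    exact Submodule.zero_mem _

theorem TT_poly (n : ℕ) (f : E3 → ℝ) (hf : f ∈ PLt (n + 1)) :
    ∃ g ∈ PLt n, ∀ x : E3, ‖x‖ = 1 → TT f x = -((n : ℝ) * (n + 1)) * f x + g x := by
  unfold PLt at hf
  induction hf using Submodule.span_induction with
  | mem f hf =>
    obtain ⟨a, ha, rfl⟩ := hf
    have ha' : ∑ i, a i < n + 1 := ha
    set s : ℝ := ∑ i, (a i : ℝ) with hs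
    refine ⟨(∑ i, ((a i : ℝ) * (a i - 1)) • mono (Function.update a i (a i - 2))) +
      ((n : ℝ) * (n + 1) - s * (s + 1)) • mono a, ?_, ?_⟩
    · refine Submodule.add_mem _ (Submodule.sum_mem _ fun i _ => j17524_upd n a ha' i) ?_
      by_cases hsn : ∑ i, a i < n
      · exact Submodule.smul_mem _ _ (Submodule.subset_span ⟨a, hsn, rfl⟩)
      · have h1 : ∑ i, a i = n := by omega
        have h2 : s = n := by
          rw [hs, ← h1]
          push_cast
          rfl
        rw [h2, sub_self, zero_smul]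
        exact Submodule.zero_mem _
    · intro x hx
      rw [TT_mono, hx, one_pow, one_mul, Pi.add_apply, Pi.smul_apply, Finset.sum_apply,
        smul_eq_mul]
      have : ∑ i, ((((a i : ℝ) * (a i - 1)) • mono (Function.update a i (a i - 2))) : E3 → ℝ) x =
          ∑ i, (a i : ℝ) * (a i - 1) * mono (Function.update a i (a i - 2)) x := rfl
      rw [this]
      ring
  | zero =>
    refine ⟨0, Submodule.zero_mem _, fun x _ => ?_⟩
    rw [j17524_zero]
    simp
  | add f g hf hg ihf ihg =>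
    obtain ⟨g1, h1, e1⟩ := ihf
    obtain ⟨g2, h2, e2⟩ := ihg
    refine ⟨g1 + g2, Submodule.add_mem _ h1 h2, fun x hx => ?_⟩
    rw [j17524_TT_add (PLt_contDiff _ _ hf) (PLt_contDiff _ _ hg), e1 x hx, e2 x hx,
      Pi.add_apply, Pi.add_apply]
    ring
  | smul c f hf ihf =>
    obtain ⟨g1, h1, e1⟩ := ihf
    refine ⟨c • g1, Submodule.smul_mem _ c h1, fun x hx => ?_⟩
    rw [j17524_TT_smul c (PLt_contDiff _ _ hf), e1 x hx, Pi.smul_apply, Pi.smul_apply,
      smul_eq_mul, smul_eq_mul]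
    ring

end Pool.Agent.Helper970.Rad
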