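import Pool.Agent.Helper970.Rad.Defs
import Pool.Agent.Helper970.Rad.P_B_Lk
import Pool.Agent.Helper970.Rad.P_PLt_contDiff
import Pool.Agent.Helper970.Rad.P_TT_poly

set_option autoImplicit false

open MeasureTheory Set Metric Real
open scoped RealInnerProductSpace ENNReal ContDiff

namespace Pool.Agent.Helper970.Rad



theorem eigen_sm (k : Fin 3) (f : E3 → ℝ) (hf : ContDiff ℝ ∞ f) : ContDiff ℝ ∞ (Lk k f) := by
  show ContDiff ℝ ∞ (fun x => fderiv ℝ f x (J k x))
  exact (hf.fderiv_right (by simp)).clm_apply (J k).contDiff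

theorem eigen_TTsm (f : E3 → ℝ) (hf : ContDiff ℝ ∞ f) : ContDiff ℝ ∞ (TT f) := by
  show ContDiff ℝ ∞ (fun x => ∑ k, Lk k (Lk k f) x)
  exact ContDiff.sum (fun k _ => eigen_sm k _ (eigen_sm k f hf))

theorem eigen_int (f g : E3 → ℝ) (hf : Continuous f) (hg : Continuous g) :
    Integrable (fun ξ : sphere (0 : E3) 1 => f (ξ : E3) * g (ξ : E3)) sig := by
  haveI : CompactSpace (sphere (0 : E3) 1) := isCompact_iff_compactSpace.1 (isCompact_sphere _ _)
  exact ((hf.comp continuous_subtype_val).mul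
    (hg.comp continuous_subtype_val)).integrable_of_hasCompactSupport
      (HasCompactSupport.of_compactSpace _)

theorem eigen_comm (f g : E3 → ℝ) : B f g = B g f := by
  unfold B
  congr 1
  funext ξ
  ring

theorem eigen_add (f g h : E3 → ℝ) (hf : Continuous f) (hg : Continuous g) (hh : Continuous h) :
    B f (fun x => g x + h x) = B f g + B f h := by
  unfold B
  rw [← integral_add (eigen_int f g hf hg) (eigen_int f h hf hh)]
  congr 1
  funext ξ
  ring

theorem eigen_smul (c : ℝ) (f g : E3 → ℝ) : B f (fun x => c * g x) = c * B f g := by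
  unfold B
  rw [← integral_const_mul]
  congr 1
  funext ξ
  ring

theorem eigen_congr (f g h : E3 → ℝ) (hgh : ∀ x : E3, ‖x‖ = 1 → g x = h x) : B f g = B f h := by
  unfold B
  congr 1
  funext ξ
  have h1 : ‖(ξ : E3)‖ = 1 := by
    have := ξ.2
    rwa [mem_sphere_zero_iff_norm] at this
  rw [hgh _ h1]

theorem eigen_sum (f : E3 → ℝ) (G : Fin 3 → E3 → ℝ) (hf : Continuous f)
    (hG : ∀ k, Continuous (G k)) : B f (fun x => ∑ k, G k x) = ∑ k, B f (G k) := by
  unfold B
  rw [← integral_finsetSum _ (fun k _ => eigen_int f (G k) hf (hG k))]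
  congr 1
  funext ξ
  rw [Finset.mul_sum]

theorem eigen_TT (f g : E3 → ℝ) (hf : ContDiff ℝ ∞ f) (hg : ContDiff ℝ ∞ g) :
    ∑ k, B (Lk k f) (Lk k g) = - B f (TT g) := by
  have h1 : B f (TT g) = ∑ k, B f (Lk k (Lk k g)) :=
    eigen_sum f (fun k => Lk k (Lk k g)) hf.continuous
      (fun k => (eigen_sm k _ (eigen_sm k g hg)).continuous)
  rw [h1, ← Finset.sum_neg_distrib]
  refine Finset.sum_congr rfl (fun k _ => ?_)
  exact B_Lk k f (Lk k g) (hf.of_le (by exact_mod_cast le_top))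
    ((eigen_sm k g hg).of_le (by exact_mod_cast le_top))

theorem eigen_symm (f g : E3 → ℝ) (hf : ContDiff ℝ ∞ f) (hg : ContDiff ℝ ∞ g) :
    B (TT f) g = B f (TT g) := by
  have h1 := eigen_TT f g hf hg
  have h2 := eigen_TT g f hg hf
  have h3 : ∑ k, B (Lk k f) (Lk k g) = ∑ k, B (Lk k g) (Lk k f) :=
    Finset.sum_congr rfl (fun k _ => eigen_comm _ _)
  rw [eigen_comm (TT f) g]
  linarith

theorem eigen_mono (l : ℕ) : PLt l ≤ PLt (l + 1) := by
  apply Submodule.span_mono
  apply Set.image_mono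
  intro a ha
  exact Nat.lt_succ_of_lt ha

theorem eigen_zero (f g : E3 → ℝ) (hg : Continuous g) (h : B g g = 0) : B f g = 0 := by
  unfold B at h ⊢
  rw [integral_eq_zero_iff_of_nonneg (fun ξ => mul_self_nonneg _) (eigen_int g g hg hg)] at h
  apply integral_eq_zero_of_ae
  filter_upwards [h] with ξ hξ
  have h1 : g (ξ : E3) = 0 := by simpa using hξ
  simp [h1]

theorem eigen_key (l : ℕ) (Y : E3 → ℝ) (hY : Y ∈ PLt (l + 1)) (hY0 : ∀ g ∈ PLt l, B Y g = 0)
    (g' : E3 → ℝ) (hg' : g' ∈ PLt l) : B Y (TT g') = 0 := by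
  cases l with
  | zero =>
    have h0 : PLt 0 = ⊥ := by
      unfold PLt
      simp
    rw [h0, Submodule.mem_bot] at hg'
    subst hg'
    have h1 : ∀ x, TT (0 : E3 → ℝ) x = 0 := by
      intro x
      have h2 : ∀ k, Lk k (0 : E3 → ℝ) = 0 := by
        intro k
        funext y
        show fderiv ℝ (0 : E3 → ℝ) y (J k y) = 0
        rw [fderiv_zero]
        rfl
      show ∑ k, Lk k (Lk k (0 : E3 → ℝ)) x = 0
      apply Finset.sum_eq_zero
      intro k _
      rw [h2, h2]
      rfl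
    unfold B
    simp [h1]
  | succ m =>
    obtain ⟨g, hg, hg2⟩ := TT_poly m g' hg'
    rw [eigen_congr Y (TT g') (fun x => (-((m : ℝ) * (m + 1))) * g' x + g x) hg2,
      eigen_add Y (fun x => (-((m : ℝ) * (m + 1))) * g' x) g
        (PLt_contDiff _ _ hY).continuous
        (continuous_const.mul (PLt_contDiff _ _ hg').continuous)
        (PLt_contDiff _ _ hg).continuous, eigen_smul, hY0 g' hg', hY0 g (eigen_mono m hg)]
    ring

theorem eigen (l : ℕ) (Y : E3 → ℝ) (hY : Y ∈ PLt (l + 1)) (hY0 : ∀ g ∈ PLt l, B Y g = 0)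
    (f : E3 → ℝ) (hf : ContDiff ℝ ∞ f) :
    ∑ k, B (Lk k f) (Lk k Y) = (l : ℝ) * (l + 1) * B f Y := by
  have hYs := PLt_contDiff _ _ hY
  obtain ⟨g, hg, hg2⟩ := TT_poly l Y hY
  have hgs := PLt_contDiff _ _ hg
  have hexp : ∀ h : E3 → ℝ, Continuous h →
      B h (TT Y) = -((l : ℝ) * (l + 1)) * B h Y + B h g := by
    intro h hh
    rw [eigen_congr h (TT Y) (fun x => (-((l : ℝ) * (l + 1))) * Y x + g x) hg2,
      eigen_add h (fun x => (-((l : ℝ) * (l + 1))) * Y x) g hh
        (continuous_const.mul hYs.continuous) hgs.continuous, eigen_smul]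
  have hgg : B g g = 0 := by
    have h1 := hexp g hgs.continuous
    rw [eigen_comm g (TT Y), eigen_symm Y g hYs hgs, eigen_key l Y hY hY0 g hg,
      eigen_comm g Y, hY0 g hg] at h1
    linarith
  rw [eigen_TT f Y hf hYs, hexp f hf.continuous, eigen_zero f g hgs.continuous hgg]
  ring

end Pool.Agent.Helper970.Rad
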