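import Pool.Agent.Helper970.Rad.Defs
import Pool.Agent.Helper970.Rad.P_PLt_contDiff
import Pool.Agent.Helper970.Rad.P_eigen

set_option autoImplicit false

open MeasureTheory Set Metric Real
open scoped RealInnerProductSpace ENNReal ContDiff

namespace Pool.Agent.Helper970.Rad



theorem bes_B_comm (a b : E3 → ℝ) : B a b = B b a := by
  unfold B
  congr 1
  funext ξ
  ring

theorem bes_int (a b : E3 → ℝ) (ha : Continuous a) (hb : Continuous b) :
    Integrable (fun ξ : sphere (0 : E3) 1 => a (ξ : E3) * b (ξ : E3)) sig := by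
  have hc : Continuous (fun ξ : sphere (0 : E3) 1 => a (ξ : E3) * b (ξ : E3)) :=
    (ha.comp continuous_subtype_val).mul (hb.comp continuous_subtype_val)
  haveI : CompactSpace (sphere (0 : E3) 1) := isCompact_iff_compactSpace.1 (isCompact_sphere _ _)
  exact hc.integrable_of_hasCompactSupport (HasCompactSupport.of_compactSpace _)

theorem bes_B_add (g a b : E3 → ℝ) (hg : Continuous g) (ha : Continuous a) (hb : Continuous b) :
    B g (a + b) = B g a + B g b := by
  unfold B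
  rw [← integral_add (bes_int g a hg ha) (bes_int g b hg hb)]
  congr 1
  funext ξ
  simp only [Pi.add_apply]
  ring

theorem bes_B_smul (g a : E3 → ℝ) (c : ℝ) : B g (c • a) = c * B g a := by
  unfold B
  rw [← integral_const_mul]
  congr 1
  funext ξ
  simp only [Pi.smul_apply, smul_eq_mul]
  ring

theorem bes_B_nonneg (a : E3 → ℝ) : 0 ≤ B a a := by
  unfold B
  exact integral_nonneg fun ξ => mul_self_nonneg _

theorem bes_Lk_cont (k : Fin 3) (f : E3 → ℝ) (hf : ContDiff ℝ ∞ f) : Continuous (Lk k f) := by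
  unfold Lk
  exact (hf.continuous_fderiv (by simp)).clm_apply (J k).continuous

theorem bes_Lk_add (k : Fin 3) (f g : E3 → ℝ) (hf : ContDiff ℝ ∞ f) (hg : ContDiff ℝ ∞ g) :
    Lk k (f + g) = Lk k f + Lk k g := by
  funext x
  unfold Lk
  rw [fderiv_add (hf.differentiable (by simp) x) (hg.differentiable (by simp) x)]
  rfl

theorem bes_Lk_smul (k : Fin 3) (c : ℝ) (f : E3 → ℝ) (hf : ContDiff ℝ ∞ f) :
    Lk k (c • f) = c • Lk k f := by
  funext x
  unfold Lk
  rw [fderiv_const_smul (hf.differentiable (by simp) x)]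
  rfl

/-- the quadratic form -/
noncomputable def besQ (a b : E3 → ℝ) : ℝ := ∑ k, B (Lk k a) (Lk k b)

theorem besQ_comm (a b : E3 → ℝ) : besQ a b = besQ b a := by
  unfold besQ
  exact Finset.sum_congr rfl fun k _ => bes_B_comm _ _

theorem besQ_nonneg (a : E3 → ℝ) : 0 ≤ besQ a a :=
  Finset.sum_nonneg fun k _ => bes_B_nonneg _

theorem besQ_add (g a b : E3 → ℝ) (hg : ContDiff ℝ ∞ g) (ha : ContDiff ℝ ∞ a)
    (hb : ContDiff ℝ ∞ b) : besQ g (a + b) = besQ g a + besQ g b := by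
  unfold besQ
  rw [← Finset.sum_add_distrib]
  refine Finset.sum_congr rfl fun k _ => ?_
  rw [bes_Lk_add k a b ha hb, bes_B_add _ _ _ (bes_Lk_cont k g hg) (bes_Lk_cont k a ha)
    (bes_Lk_cont k b hb)]

theorem besQ_smul (g a : E3 → ℝ) (c : ℝ) (ha : ContDiff ℝ ∞ a) :
    besQ g (c • a) = c * besQ g a := by
  unfold besQ
  rw [Finset.mul_sum]
  refine Finset.sum_congr rfl fun k _ => ?_
  rw [bes_Lk_smul k c a ha, bes_B_smul]

theorem bes_smooth {ι : Type} (I : Finset ι) (c : ι → ℝ) (Y : ι → E3 → ℝ)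
    (hY : ∀ p, ContDiff ℝ ∞ (Y p)) : ContDiff ℝ ∞ (∑ p ∈ I, c p • Y p) := by
  classical
  induction I using Finset.induction_on with
  | empty =>
    rw [Finset.sum_empty]
    exact contDiff_const
  | insert p I hp ih =>
    rw [Finset.sum_insert hp]
    exact (contDiff_const.smul (hY p)).add ih

theorem besQ_sum {ι : Type} (I : Finset ι) (c : ι → ℝ) (Y : ι → E3 → ℝ)
    (hY : ∀ p, ContDiff ℝ ∞ (Y p)) (g : E3 → ℝ) (hg : ContDiff ℝ ∞ g) :
    besQ g (∑ p ∈ I, c p • Y p) = ∑ p ∈ I, c p * besQ g (Y p) := by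
  classical
  induction I using Finset.induction_on with
  | empty =>
    rw [Finset.sum_empty, Finset.sum_empty]
    have h := besQ_smul g (0 : E3 → ℝ) 0 contDiff_const
    rw [zero_smul, zero_mul] at h
    exact h
  | insert p I hp ih =>
    have hcp : ContDiff ℝ ∞ (c p • Y p) := contDiff_const.smul (hY p)
    rw [Finset.sum_insert hp, Finset.sum_insert hp, besQ_add g _ _ hg hcp
      (bes_smooth I c Y hY), besQ_smul g _ _ (hY p), ih]

theorem bes_B_sum {ι : Type} (I : Finset ι) (c : ι → ℝ) (Y : ι → E3 → ℝ)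
    (hY : ∀ p, ContDiff ℝ ∞ (Y p)) (g : E3 → ℝ) (hg : Continuous g) :
    B g (∑ p ∈ I, c p • Y p) = ∑ p ∈ I, c p * B g (Y p) := by
  classical
  induction I using Finset.induction_on with
  | empty =>
    rw [Finset.sum_empty, Finset.sum_empty]
    have h := bes_B_smul g (0 : E3 → ℝ) 0
    rw [zero_smul, zero_mul] at h
    exact h
  | insert p I hp ih =>
    rw [Finset.sum_insert hp, Finset.sum_insert hp, bes_B_add g _ _ hg
      ((hY p).continuous.const_smul (c p)) (bes_smooth I c Y hY).continuous, bes_B_smul, ih]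

theorem bes_PLt_mono {m n : ℕ} (h : m ≤ n) : PLt m ≤ PLt n := by
  unfold PLt
  apply Submodule.span_mono
  apply image_mono
  intro a ha
  exact lt_of_lt_of_le ha h

theorem bessel (d : ℕ → ℕ) (Y : (l : ℕ) → Fin (d l) → E3 → ℝ)
    (hY : ∀ l j, Y l j ∈ PLt (l + 1))
    (ho : ∀ l i j, B (Y l i) (Y l j) = if i = j then 1 else 0)
    (ho' : ∀ l j, ∀ g ∈ PLt l, B (Y l j) g = 0) (M : ℕ) (f : E3 → ℝ) (hf : ContDiff ℝ ∞ f) :
    (∑ l ∈ Finset.range M, (l : ℝ) * (l + 1) * ∑ j, B f (Y l j) ^ 2) ≤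
      ∑ k, B (Lk k f) (Lk k f) := by
  classical
  let Z : (Σ l : ℕ, Fin (d l)) → E3 → ℝ := fun p => Y p.1 p.2
  have hZ : ∀ p, ContDiff ℝ ∞ (Z p) := fun p => PLt_contDiff _ _ (hY p.1 p.2)
  have hon : ∀ p q, B (Z p) (Z q) = if p = q then 1 else 0 := by
    rintro ⟨l, i⟩ ⟨l', j⟩
    show B (Y l i) (Y l' j) = _
    rcases lt_trichotomy l l' with h | h | h
    · rw [bes_B_comm, ho' l' j _ (bes_PLt_mono h (hY l i)), if_neg]
      intro h'
      have := congrArg Sigma.fst h'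
      simp only at this
      omega
    · subst h
      rw [ho]
      simp only [Sigma.mk.injEq, heq_eq_eq, true_and]
    · rw [ho' l i _ (bes_PLt_mono h (hY l' j)), if_neg]
      intro h'
      have := congrArg Sigma.fst h'
      simp only at this
      omega
  have heig : ∀ p (g : E3 → ℝ), ContDiff ℝ ∞ g →
      besQ g (Z p) = (p.1 : ℝ) * (p.1 + 1) * B g (Z p) := fun p g hg =>
    eigen p.1 (Y p.1 p.2) (hY p.1 p.2) (ho' p.1 p.2) g hg
  let I : Finset (Σ l : ℕ, Fin (d l)) := (Finset.range M).sigma fun _ => Finset.univ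
  let c : (Σ l : ℕ, Fin (d l)) → ℝ := fun p => B f (Z p)
  let s : E3 → ℝ := ∑ p ∈ I, c p • Z p
  have hs : ContDiff ℝ ∞ s := bes_smooth I c Z hZ
  have hBs : ∀ p ∈ I, B s (Z p) = c p := by
    intro p hp
    rw [bes_B_comm, bes_B_sum I c Z hZ (Z p) (hZ p).continuous]
    simp only [hon]
    simp [hp]
  have h1 : besQ f s = ∑ p ∈ I, (p.1 : ℝ) * (p.1 + 1) * c p ^ 2 := by
    rw [besQ_sum I c Z hZ f hf]
    refine Finset.sum_congr rfl fun p _ => ?_
    rw [heig p f hf]
    ring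
  have h2 : besQ s s = ∑ p ∈ I, (p.1 : ℝ) * (p.1 + 1) * c p ^ 2 := by
    rw [besQ_sum I c Z hZ s hs]
    refine Finset.sum_congr rfl fun p hp => ?_
    rw [heig p s hs, hBs p hp]
    ring
  have h3 : ∑ l ∈ Finset.range M, (l : ℝ) * (l + 1) * ∑ j, B f (Y l j) ^ 2 =
      ∑ p ∈ I, (p.1 : ℝ) * (p.1 + 1) * c p ^ 2 := by
    simp only [Finset.mul_sum]
    rw [Finset.sum_sigma']
  have hms : ContDiff ℝ ∞ ((-1 : ℝ) • s) := contDiff_const.smul hs
  have h4 := besQ_nonneg (f + (-1 : ℝ) • s)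
  have h5 : besQ (f + (-1 : ℝ) • s) (f + (-1 : ℝ) • s) =
      besQ f f - 2 * besQ f s + besQ s s := by
    have hfs : ContDiff ℝ ∞ (f + (-1 : ℝ) • s) := hf.add hms
    rw [besQ_add _ f _ hfs hf hms, besQ_smul _ s _ hs, besQ_comm _ f, besQ_comm _ s,
      besQ_add f f _ hf hf hms, besQ_add s f _ hs hf hms, besQ_smul f s _ hs, besQ_smul s s _ hs,
      besQ_comm s f]
    ring
  rw [h5, h1, h2] at h4
  rw [h3]
  show _ ≤ besQ f f
  linarith

end Pool.Agent.Helper970.Rad
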