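import Pool.Agent.Helper970.Rad.Defs
import Pool.Agent.Helper970.Rad.P_PLt_contDiff
import Pool.Agent.Helper970.Rad.P_PLt_gen

set_option autoImplicit false

open MeasureTheory Set Metric Real
open scoped RealInnerProductSpace ENNReal ContDiff

namespace Pool.Agent.Helper970.Rad



/-- restriction of polynomial functions to the sphere, as a linear map -/
noncomputable def harmR (n : ℕ) : PLt n →ₗ[ℝ] C(sphere (0 : E3) 1, ℝ) where
  toFun f := ⟨fun ξ => f.1 (ξ : E3),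
    (PLt_contDiff n f.1 f.2).continuous.comp continuous_subtype_val⟩
  map_add' f g := by ext; rfl
  map_smul' c f := by ext; rfl

/-- the map to `L²` of the sphere -/
noncomputable def harmT (n : ℕ) : PLt n →ₗ[ℝ] Lp ℝ 2 sig :=
  (ContinuousMap.toLp (E := ℝ) 2 sig ℝ).toLinearMap ∘ₗ harmR n

theorem harmT_inner (n : ℕ) (f g : PLt n) : inner ℝ (harmT n f) (harmT n g) = B f.1 g.1 := by
  have h := ContinuousMap.inner_toLp (𝕜 := ℝ) sig (harmR n f) (harmR n g)
  refine h.trans ?_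
  unfold B
  congr 1
  funext ξ
  show g.1 (ξ : E3) * f.1 (ξ : E3) = f.1 (ξ : E3) * g.1 (ξ : E3)
  ring

theorem harmT_eq (n : ℕ) (f g : PLt n) (h : harmT n f = harmT n g) (ξ : sphere (0 : E3) 1) :
    f.1 (ξ : E3) = g.1 (ξ : E3) := by
  have h1 : harmR n f = harmR n g := ContinuousMap.toLp_injective (𝕜 := ℝ) (p := 2) sig h
  exact DFunLike.congr_fun h1 ξ

theorem harm_eq_of_sphere (n : ℕ) (f g : PLt n) (h : ∀ x : E3, ‖x‖ = 1 → f.1 x = g.1 x) :
    harmT n f = harmT n g := by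
  have h1 : harmR n f = harmR n g := by
    ext ξ
    exact h ξ (by simpa using ξ.2)
  show ContinuousMap.toLp (E := ℝ) 2 sig ℝ (harmR n f) = ContinuousMap.toLp (E := ℝ) 2 sig ℝ (harmR n g)
  rw [h1]

theorem harm_findim (n : ℕ) : FiniteDimensional ℝ (PLt n) := by
  have h : (mono '' {a | ∑ i, a i < n}).Finite := by
    apply Set.Finite.image
    apply (Set.finite_Iic (fun _ : Fin 3 => n)).subset
    intro a ha i
    have h1 : a i ≤ ∑ i, a i := Finset.single_le_sum (fun _ _ => Nat.zero_le _) (Finset.mem_univ i)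
    exact h1.trans (le_of_lt ha)
  exact FiniteDimensional.span_of_finite ℝ h

theorem harm (l : ℕ) : ∃ (d : ℕ) (Y : Fin d → E3 → ℝ), d ≤ 2 * l + 1 ∧
    (∀ j, Y j ∈ PLt (l + 1)) ∧
    (∀ i j, B (Y i) (Y j) = if i = j then 1 else 0) ∧
    (∀ j, ∀ g ∈ PLt l, B (Y j) g = 0) ∧
    (∀ f ∈ PLt (l + 1), ∃ g ∈ PLt l, ∃ c : Fin d → ℝ,
      (fun ξ : sphere (0 : E3) 1 => f (ξ : E3)) =ᵐ[sig]
        fun ξ => g (ξ : E3) + ∑ j, c j * Y j (ξ : E3)) := by
  obtain ⟨b, hb, hgen⟩ := PLt_gen l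
  have hle : PLt l ≤ PLt (l + 1) :=
    Submodule.span_mono (Set.image_mono (fun a ha => Nat.lt_succ_of_lt ha))
  haveI := harm_findim (l + 1)
  obtain ⟨U, hU⟩ : ∃ U : Submodule ℝ (Lp ℝ 2 sig),
      U = ((PLt l).comap (PLt (l + 1)).subtype).map (harmT (l + 1)) := ⟨_, rfl⟩
  obtain ⟨V, hV⟩ : ∃ V : Submodule ℝ (Lp ℝ 2 sig), V = LinearMap.range (harmT (l + 1)) := ⟨_, rfl⟩
  have hUV : U ≤ V := by
    rw [hU, hV]
    exact LinearMap.map_le_range
  haveI hVfin : FiniteDimensional ℝ V := by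
    rw [hV]
    infer_instance
  haveI hUfin : FiniteDimensional ℝ U := Submodule.finiteDimensional_of_le hUV
  have hTU : ∀ (g : E3 → ℝ) (hg : g ∈ PLt l), harmT (l + 1) ⟨g, hle hg⟩ ∈ U := by
    intro g hg
    rw [hU]
    exact Submodule.mem_map_of_mem (f := harmT (l + 1)) (show (⟨g, hle hg⟩ : PLt (l + 1)) ∈
      (PLt l).comap (PLt (l + 1)).subtype from hg)
  obtain ⟨Z, hZ⟩ : ∃ Z : Submodule ℝ (Lp ℝ 2 sig), Z = Uᗮ ⊓ V := ⟨_, rfl⟩
  have hsup : U ⊔ Z = V := by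
    rw [hZ]
    exact Submodule.sup_orthogonal_inf_of_hasOrthogonalProjection hUV
  have hdim : Module.finrank ℝ U + Module.finrank ℝ Z = Module.finrank ℝ V := by
    rw [hZ]
    exact Submodule.finrank_add_inf_finrank_orthogonal hUV
  have hZV : Z ≤ V := by
    rw [hZ]
    exact inf_le_right
  have hZU : Z ≤ Uᗮ := by
    rw [hZ]
    exact inf_le_left
  haveI hZfin : FiniteDimensional ℝ Z := Submodule.finiteDimensional_of_le hZV
  obtain ⟨S, hS⟩ : ∃ S : Submodule ℝ (Lp ℝ 2 sig),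
      S = Submodule.span ℝ (Set.range fun j => harmT (l + 1) ⟨b j, hb j⟩) := ⟨_, rfl⟩
  haveI hSfin : FiniteDimensional ℝ S := by
    rw [hS]
    exact FiniteDimensional.span_of_finite ℝ (Set.finite_range _)
  have hVS : V ≤ U ⊔ S := by
    rw [hV]
    rintro _ ⟨⟨f, hf⟩, rfl⟩
    obtain ⟨g, hg, c, hfg⟩ := hgen f hf
    have h1 : harmT (l + 1) ⟨f, hf⟩
        = harmT (l + 1) (⟨g, hle hg⟩ + ∑ j, c j • (⟨b j, hb j⟩ : PLt (l + 1))) := by
      apply harm_eq_of_sphere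
      intro x hx
      have h2 : ((⟨g, hle hg⟩ + ∑ j, c j • (⟨b j, hb j⟩ : PLt (l + 1)) : PLt (l + 1)) : E3 → ℝ) x
          = g x + ∑ j, c j * b j x := by
        rw [Submodule.coe_add, Pi.add_apply, Submodule.coe_sum, Finset.sum_apply]
        rfl
      rw [h2]
      exact hfg x hx
    rw [h1, map_add, map_sum]
    apply Submodule.add_mem_sup (hTU g hg)
    apply Submodule.sum_mem
    intro j _
    rw [map_smul, hS]
    exact Submodule.smul_mem _ _ (Submodule.subset_span ⟨j, rfl⟩)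
  have hSle : Module.finrank ℝ S ≤ 2 * l + 1 := by
    rw [hS]
    have h1 := finrank_range_le_card (R := ℝ) (fun j => harmT (l + 1) ⟨b j, hb j⟩)
    rw [Fintype.card_fin] at h1
    exact h1
  have hZle : Module.finrank ℝ Z ≤ 2 * l + 1 := by
    have h1 : Module.finrank ℝ V ≤ Module.finrank ℝ (U ⊔ S : Submodule ℝ (Lp ℝ 2 sig)) :=
      Submodule.finrank_mono hVS
    have h2 := Submodule.finrank_add_le_finrank_add_finrank U S
    omega
  have hE := (stdOrthonormalBasis ℝ Z).orthonormal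
  have hlift : ∀ j : Fin (Module.finrank ℝ Z), ∃ Y : PLt (l + 1),
      harmT (l + 1) Y = ((stdOrthonormalBasis ℝ Z j : Z) : Lp ℝ 2 sig) := by
    intro j
    have h1 := hZV (stdOrthonormalBasis ℝ Z j).2
    rw [hV] at h1
    exact h1
  choose Y hY using hlift
  refine ⟨Module.finrank ℝ Z, fun j => (Y j).1, hZle, fun j => (Y j).2, ?_, ?_, ?_⟩
  · intro i j
    rw [← harmT_inner (l + 1) (Y i) (Y j), hY, hY, ← Submodule.coe_inner]
    exact orthonormal_iff_ite.mp hE i j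
  · intro j g hg
    have h1 := harmT_inner (l + 1) (Y j) ⟨g, hle hg⟩
    rw [← h1, hY]
    have h2 : ((stdOrthonormalBasis ℝ Z j : Z) : Lp ℝ 2 sig) ∈ Uᗮ :=
      hZU (stdOrthonormalBasis ℝ Z j).2
    exact Submodule.inner_left_of_mem_orthogonal (hTU g hg) h2
  · intro f hf
    have h1 : harmT (l + 1) ⟨f, hf⟩ ∈ U ⊔ Z := by
      rw [hsup, hV]
      exact ⟨_, rfl⟩
    obtain ⟨u, hu, z, hz, huz⟩ := Submodule.mem_sup.mp h1
    rw [hU] at hu
    obtain ⟨⟨g, hg'⟩, hg, rfl⟩ := hu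
    have hg2 : g ∈ PLt l := hg
    refine ⟨g, hg2, fun j => (stdOrthonormalBasis ℝ Z).repr ⟨z, hz⟩ j, ?_⟩
    have h2 : z = ∑ j, (stdOrthonormalBasis ℝ Z).repr ⟨z, hz⟩ j • harmT (l + 1) (Y j) := by
      have h3 := (stdOrthonormalBasis ℝ Z).sum_repr ⟨z, hz⟩
      have h4 := congrArg (Subtype.val) h3
      rw [Submodule.coe_sum] at h4
      simp only [hY]
      exact h4.symm
    have h5 : harmT (l + 1) ⟨f, hf⟩ = harmT (l + 1) (⟨g, hg'⟩
        + ∑ j, (stdOrthonormalBasis ℝ Z).repr ⟨z, hz⟩ j • Y j) := by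
      rw [map_add, map_sum, ← huz]
      exact congrArg (fun y => harmT (l + 1) ⟨g, hg'⟩ + y)
        (h2.trans (Finset.sum_congr rfl fun j _ => (map_smul _ _ _).symm))
    refine Filter.Eventually.of_forall (fun ξ => ?_)
    have h6 := harmT_eq (l + 1) _ _ h5 ξ
    show f (ξ : E3) = _
    refine h6.trans ?_
    rw [Submodule.coe_add, Pi.add_apply, Submodule.coe_sum, Finset.sum_apply]
    rfl

end Pool.Agent.Helper970.Rad
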