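import Pool.Agent.Helper970.Rad.Defs

set_option autoImplicit false

open MeasureTheory Set Metric Real
open scoped RealInnerProductSpace ENNReal ContDiff

namespace Pool.Agent.Helper970.Rad



/-- coordinate functions on the sphere -/
noncomputable def swX (i : Fin 3) : C(sphere (0 : E3) 1, ℝ) :=
  ⟨fun x => (x : E3) i, by fun_prop⟩

noncomputable def swPhi : MvPolynomial (Fin 3) ℝ →ₐ[ℝ] C(sphere (0 : E3) 1, ℝ) :=
  MvPolynomial.aeval swX

theorem swPhi_apply (P : MvPolynomial (Fin 3) ℝ) (x : sphere (0 : E3) 1) :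
    swPhi P x = MvPolynomial.eval (fun i => (x : E3) i) P := by
  induction P using MvPolynomial.induction_on with
  | C a => simp [swPhi]
  | add p q hp hq => rw [map_add, map_add, ContinuousMap.add_apply, hp, hq]
  | mul_X p i hp =>
    rw [map_mul, map_mul, ContinuousMap.mul_apply, hp]
    simp [swPhi, swX]

theorem sw_mem (P : MvPolynomial (Fin 3) ℝ) :
    (fun x : E3 => MvPolynomial.eval (fun i => x i) P) ∈ PLt (P.totalDegree + 1) := by
  have h : (fun x : E3 => MvPolynomial.eval (fun i => x i) P)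
      = ∑ m ∈ P.support, P.coeff m • mono (fun i => m i) := by
    funext x
    rw [MvPolynomial.eval_eq', Finset.sum_apply]
    apply Finset.sum_congr rfl
    intro m _
    rfl
  rw [h]
  unfold PLt
  apply Submodule.sum_mem
  intro m hm
  apply Submodule.smul_mem
  apply Submodule.subset_span
  refine ⟨fun i => m i, ?_, rfl⟩
  have h1 := MvPolynomial.le_totalDegree hm
  rw [Finsupp.sum_fintype _ _ (by simp)] at h1
  exact Nat.lt_succ_of_le h1

theorem stoneW (f : E3 → ℝ) (hf : Continuous f) (ε : ℝ) (hε : 0 < ε) :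
    ∃ (n : ℕ) (p : E3 → ℝ), p ∈ PLt n ∧ ∀ x : E3, ‖x‖ = 1 → |f x - p x| < ε := by
  have hsep : (swPhi.range).SeparatesPoints := by
    intro x y hxy
    have h1 : (x : E3) ≠ (y : E3) := fun h => hxy (Subtype.ext h)
    obtain ⟨i, hi⟩ : ∃ i, (x : E3) i ≠ (y : E3) i := by
      by_contra hc
      push Not at hc
      exact h1 (by ext i; exact hc i)
    refine ⟨_, ⟨swPhi (MvPolynomial.X i), ⟨MvPolynomial.X i, rfl⟩, rfl⟩, ?_⟩
    show swPhi (MvPolynomial.X i) x ≠ swPhi (MvPolynomial.X i) y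
    rw [swPhi_apply, swPhi_apply, MvPolynomial.eval_X, MvPolynomial.eval_X]
    exact hi
  obtain ⟨⟨g, P, hP⟩, hg⟩ := ContinuousMap.exists_mem_subalgebra_near_continuous_of_separatesPoints
    swPhi.range hsep (fun x : sphere (0 : E3) 1 => f x) (by fun_prop) ε hε
  refine ⟨P.totalDegree + 1, fun x : E3 => MvPolynomial.eval (fun i => x i) P, sw_mem P, ?_⟩
  intro x hx
  have hxs : x ∈ sphere (0 : E3) 1 := by simpa using hx
  have h2 := hg ⟨x, hxs⟩
  have h3 : g ⟨x, hxs⟩ = MvPolynomial.eval (fun i => x i) P := by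
    rw [← hP]
    exact swPhi_apply P ⟨x, hxs⟩
  have h4 : ‖g ⟨x, hxs⟩ - f x‖ < ε := h2
  rw [h3, Real.norm_eq_abs, abs_sub_comm] at h4
  exact h4

end Pool.Agent.Helper970.Rad
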