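import Pool.Agent.Helper970.Rad.Defs
import Pool.Agent.Helper970.Rad.P_PLt_contDiff
import Pool.Agent.Helper970.Rad.P_stoneW

set_option autoImplicit false

open MeasureTheory Set Metric Real
open scoped RealInnerProductSpace ENNReal ContDiff

namespace Pool.Agent.Helper970.Rad



theorem pv_mono {m n : ℕ} (h : m ≤ n) : PLt m ≤ PLt n := by
  apply Submodule.span_mono
  apply Set.image_mono
  intro a ha
  exact lt_of_lt_of_le ha h

theorem pv_zero {g : E3 → ℝ} (hg : g ∈ PLt 0) : g = 0 := by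
  have h1 : {a : Fin 3 → ℕ | ∑ i, a i < 0} = ∅ := by
    ext a
    constructor
    · intro h
      exact absurd h (Nat.not_lt_zero _)
    · intro h
      exact absurd h (Set.notMem_empty a)
  rw [PLt, h1, Set.image_empty, Submodule.span_empty, Submodule.mem_bot] at hg
  exact hg

theorem pv_int {g : sphere (0 : E3) 1 → ℝ} (hg : Continuous g) : Integrable g sig :=
  hg.integrable_of_hasCompactSupport (HasCompactSupport.of_compactSpace g)

theorem pv_bessel {ι : Type*} [DecidableEq ι] (s : Finset ι) (e : ι → sphere (0 : E3) 1 → ℝ)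
    (he : ∀ i, Continuous (e i))
    (ho : ∀ i j, ∫ ξ, e i ξ * e j ξ ∂sig = if i = j then 1 else 0)
    (f : sphere (0 : E3) 1 → ℝ) (hf : Continuous f) (c : ι → ℝ) :
    ∫ ξ, f ξ * f ξ ∂sig - ∑ i ∈ s, (∫ ξ, f ξ * e i ξ ∂sig) ^ 2 ≤
      ∫ ξ, (f ξ - ∑ i ∈ s, c i * e i ξ) * (f ξ - ∑ i ∈ s, c i * e i ξ) ∂sig := by
  have h1 : ∀ ξ, (f ξ - ∑ i ∈ s, c i * e i ξ) * (f ξ - ∑ i ∈ s, c i * e i ξ) =
      (f ξ * f ξ - ∑ i ∈ s, (2 * c i) * (f ξ * e i ξ)) +
        ∑ i ∈ s, ∑ j ∈ s, (c i * c j) * (e i ξ * e j ξ) := by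
    intro ξ
    have h2 : ∑ i ∈ s, (2 * c i) * (f ξ * e i ξ) = 2 * f ξ * ∑ i ∈ s, c i * e i ξ := by
      rw [Finset.mul_sum]
      apply Finset.sum_congr rfl
      intro i _
      ring
    have h3 : ∑ i ∈ s, ∑ j ∈ s, (c i * c j) * (e i ξ * e j ξ) =
        (∑ i ∈ s, c i * e i ξ) * ∑ i ∈ s, c i * e i ξ := by
      rw [Finset.sum_mul_sum]
      apply Finset.sum_congr rfl
      intro i _
      apply Finset.sum_congr rfl
      intro j _
      ring
    rw [h2, h3]
    ring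
  have I1 : Integrable (fun ξ => f ξ * f ξ) sig := pv_int (hf.mul hf)
  have I2 : ∀ i ∈ s, Integrable (fun ξ => (2 * c i) * (f ξ * e i ξ)) sig := fun i _ =>
    pv_int (continuous_const.mul (hf.mul (he i)))
  have I3 : ∀ i ∈ s, ∀ j ∈ s, Integrable (fun ξ => (c i * c j) * (e i ξ * e j ξ)) sig :=
    fun i _ j _ => pv_int (continuous_const.mul ((he i).mul (he j)))
  have I3' : ∀ i ∈ s, Integrable (fun ξ => ∑ j ∈ s, (c i * c j) * (e i ξ * e j ξ)) sig :=
    fun i hi => integrable_finsetSum _ (I3 i hi)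
  have h4 : ∫ ξ, (f ξ - ∑ i ∈ s, c i * e i ξ) * (f ξ - ∑ i ∈ s, c i * e i ξ) ∂sig =
      (∫ ξ, f ξ * f ξ ∂sig - ∑ i ∈ s, (2 * c i) * (∫ ξ, f ξ * e i ξ ∂sig)) +
        ∑ i ∈ s, c i ^ 2 := by
    simp only [h1]
    have I12 : Integrable (fun ξ => f ξ * f ξ - ∑ i ∈ s, (2 * c i) * (f ξ * e i ξ)) sig :=
      I1.sub (integrable_finsetSum _ I2)
    rw [integral_add I12 (integrable_finsetSum _ I3'),
      integral_sub I1 (integrable_finsetSum _ I2), integral_finsetSum _ I2,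
      integral_finsetSum _ I3']
    congr 1
    · congr 1
      apply Finset.sum_congr rfl
      intro i _
      rw [integral_const_mul]
    · apply Finset.sum_congr rfl
      intro i hi
      rw [integral_finsetSum _ (I3 i hi)]
      have h5 : ∀ j ∈ s, ∫ ξ, (c i * c j) * (e i ξ * e j ξ) ∂sig =
          if i = j then c i ^ 2 else 0 := by
        intro j _
        rw [integral_const_mul, ho]
        split_ifs with h6
        · rw [← h6]
          ring
        · ring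
      rw [Finset.sum_congr rfl h5, Finset.sum_ite_eq, if_pos hi]
  rw [h4]
  have h7 : 0 ≤ ∑ i ∈ s, ((∫ ξ, f ξ * e i ξ ∂sig) - c i) ^ 2 :=
    Finset.sum_nonneg fun i _ => sq_nonneg _
  have h8 : ∑ i ∈ s, ((∫ ξ, f ξ * e i ξ ∂sig) - c i) ^ 2 =
      ∑ i ∈ s, (∫ ξ, f ξ * e i ξ ∂sig) ^ 2 - ∑ i ∈ s, (2 * c i) * (∫ ξ, f ξ * e i ξ ∂sig) +
        ∑ i ∈ s, c i ^ 2 := by
    rw [← Finset.sum_sub_distrib, ← Finset.sum_add_distrib]
    apply Finset.sum_congr rfl
    intro i _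
    ring
  linarith

theorem parseval (d : ℕ → ℕ) (Y : (l : ℕ) → Fin (d l) → E3 → ℝ)
    (hY : ∀ l j, Y l j ∈ PLt (l + 1))
    (ho : ∀ l i j, B (Y l i) (Y l j) = if i = j then 1 else 0)
    (ho' : ∀ l j, ∀ g ∈ PLt l, B (Y l j) g = 0)
    (hs : ∀ l, ∀ f ∈ PLt (l + 1), ∃ g ∈ PLt l, ∃ c : Fin (d l) → ℝ,
      (fun ξ : sphere (0 : E3) 1 => f (ξ : E3)) =ᵐ[sig]
        fun ξ => g (ξ : E3) + ∑ j, c j * Y l j (ξ : E3))
    (f : E3 → ℝ) (hf : Continuous f) (ε : ℝ) (hε : 0 < ε) :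
    ∃ M₀ : ℕ, ∀ M ≥ M₀, B f f - ε ≤ ∑ l ∈ Finset.range M, ∑ j, B f (Y l j) ^ 2 := by
  classical
  have hexp : ∀ M : ℕ, ∀ p ∈ PLt M, ∃ c : (l : ℕ) → Fin (d l) → ℝ,
      (fun ξ : sphere (0 : E3) 1 => p (ξ : E3)) =ᵐ[sig]
        fun ξ => ∑ l ∈ Finset.range M, ∑ j, c l j * Y l j (ξ : E3) := by
    intro M
    induction M with
    | zero =>
      intro p hp
      refine ⟨fun _ _ => 0, ?_⟩
      filter_upwards with ξ
      rw [pv_zero hp]
      simp
    | succ M ih =>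
      intro p hp
      obtain ⟨g, hg, c, hc⟩ := hs M p hp
      obtain ⟨c', hc'⟩ := ih g hg
      refine ⟨fun l => if h : l = M then fun j => c (Fin.cast (by rw [h]) j) else c' l, ?_⟩
      filter_upwards [hc, hc'] with ξ h1 h2
      rw [h1, h2, Finset.sum_range_succ]
      congr 1
      · apply Finset.sum_congr rfl
        intro l hl
        have hl' : l ≠ M := (Finset.mem_range.1 hl).ne
        rw [dif_neg hl']
      · rw [dif_pos rfl]
        rfl
  obtain ⟨S, hS⟩ : ∃ S, S = sig.real (Set.univ : Set (sphere (0 : E3) 1)) := ⟨_, rfl⟩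
  have hS0 : 0 ≤ S := by rw [hS]; exact measureReal_nonneg
  obtain ⟨n, p, hp, hfp⟩ := stoneW f hf (min 1 (ε / (S + 1))) (lt_min one_pos (by positivity))
  refine ⟨n, fun M hM => ?_⟩
  obtain ⟨c, hc⟩ := hexp M p (pv_mono hM hp)
  have hYc : ∀ l j, Continuous (Y l j) := fun l j => (PLt_contDiff (l + 1) _ (hY l j)).continuous
  have hcomm : ∀ u v : E3 → ℝ, B u v = B v u := by
    intro u v
    unfold B
    simp only [mul_comm]
  have horth : ∀ x y : (Σ l, Fin (d l)), B (Y x.1 x.2) (Y y.1 y.2) = if x = y then 1 else 0 := by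
    rintro ⟨l, i⟩ ⟨m, j⟩
    simp only
    rcases lt_trichotomy l m with h | h | h
    · rw [hcomm, ho' m j _ (pv_mono h (hY l i)), if_neg]
      intro h2
      exact absurd (congrArg Sigma.fst h2) h.ne
    · subst h
      rw [ho]
      by_cases hij : i = j
      · rw [if_pos hij, if_pos (by rw [hij])]
      · rw [if_neg hij, if_neg]
        intro h2
        exact hij (eq_of_heq (Sigma.mk.inj h2).2)
    · rw [ho' l i _ (pv_mono h (hY m j)), if_neg]
      intro h2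
      exact absurd (congrArg Sigma.fst h2) h.ne'
  have hb := pv_bessel ((Finset.range M).sigma (fun l => (Finset.univ : Finset (Fin (d l)))))
    (fun x ξ => Y x.1 x.2 (ξ : E3)) (fun x => (hYc x.1 x.2).comp continuous_subtype_val)
    (fun x y => horth x y) (fun ξ => f (ξ : E3)) (hf.comp continuous_subtype_val)
    (fun x => c x.1 x.2)
  rw [Finset.sum_sigma] at hb
  have e1 : ∫ ξ : sphere (0 : E3) 1, (f (ξ : E3) - ∑ x ∈ (Finset.range M).sigma
      (fun l => (Finset.univ : Finset (Fin (d l)))), c x.1 x.2 * Y x.1 x.2 (ξ : E3)) *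
      (f (ξ : E3) - ∑ x ∈ (Finset.range M).sigma
      (fun l => (Finset.univ : Finset (Fin (d l)))), c x.1 x.2 * Y x.1 x.2 (ξ : E3)) ∂sig =
      ∫ ξ : sphere (0 : E3) 1, (f (ξ : E3) - p (ξ : E3)) * (f (ξ : E3) - p (ξ : E3)) ∂sig := by
    apply integral_congr_ae
    filter_upwards [hc] with ξ h1
    rw [Finset.sum_sigma, h1]
  have hpc : Continuous p := (PLt_contDiff n p hp).continuous
  have e2 : ∫ ξ : sphere (0 : E3) 1, (f (ξ : E3) - p (ξ : E3)) * (f (ξ : E3) - p (ξ : E3)) ∂sig ≤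
      ∫ ξ : sphere (0 : E3) 1, ε / (S + 1) ∂sig := by
    apply integral_mono
    · exact pv_int (((hf.comp continuous_subtype_val).sub (hpc.comp continuous_subtype_val)).mul
        ((hf.comp continuous_subtype_val).sub (hpc.comp continuous_subtype_val)))
    · exact integrable_const _
    · intro ξ
      have h1 : ‖(ξ : E3)‖ = 1 := mem_sphere_zero_iff_norm.1 ξ.2
      have h2 := hfp (ξ : E3) h1
      have h3 : |f (ξ : E3) - p (ξ : E3)| < 1 := h2.trans_le (min_le_left _ _)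
      have h4 : |f (ξ : E3) - p (ξ : E3)| < ε / (S + 1) := h2.trans_le (min_le_right _ _)
      have h5 := abs_nonneg (f (ξ : E3) - p (ξ : E3))
      show (f (ξ : E3) - p (ξ : E3)) * (f (ξ : E3) - p (ξ : E3)) ≤ ε / (S + 1)
      rw [← abs_mul_abs_self]
      nlinarith
  have e3 : ∫ ξ : sphere (0 : E3) 1, ε / (S + 1) ∂sig ≤ ε := by
    rw [integral_const, smul_eq_mul, ← hS, mul_div_assoc', div_le_iff₀ (by positivity)]
    nlinarith
  have e4 : B f f = ∫ ξ : sphere (0 : E3) 1, f (ξ : E3) * f (ξ : E3) ∂sig := rfl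
  have e5 : ∑ l ∈ Finset.range M, ∑ j, B f (Y l j) ^ 2 = ∑ l ∈ Finset.range M,
      ∑ j, (∫ ξ : sphere (0 : E3) 1, f (ξ : E3) * Y l j (ξ : E3) ∂sig) ^ 2 := rfl
  rw [e4, e5]
  have hb' := hb.trans ((le_of_eq e1).trans (e2.trans e3))
  simp only at hb'
  linarith

end Pool.Agent.Helper970.Rad
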