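import Pool.Agent.Helper970.Rad.Defs

set_option autoImplicit false

open MeasureTheory Set Metric Real
open scoped RealInnerProductSpace ENNReal ContDiff

namespace Pool.Agent.Helper970.Rad



theorem trial_int_d1 (r : ℝ) : HasDerivAt
    (fun r : ℝ => arctan r / 8 + r / (8 * (1 + r ^ 2)) - r / (4 * (1 + r ^ 2) ^ 2))
    (r ^ 2 / (1 + r ^ 2) ^ 3) r := by
  have hu : (1 + r ^ 2) ≠ 0 := by positivity
  have h0 : HasDerivAt (fun r : ℝ => 1 + r ^ 2) (2 * r) r := by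
    have := (hasDerivAt_pow 2 r).const_add 1
    simpa using this
  have h1 := (hasDerivAt_arctan r).div_const 8
  have h2 := (hasDerivAt_id r).div (h0.const_mul 8) (by positivity)
  have h3 := (hasDerivAt_id r).div ((h0.pow 2).const_mul 4)
    (by simp only [Pi.pow_apply]; positivity)
  have h4 := (h1.add h2).sub h3
  refine h4.congr_deriv ?_
  simp only [id, Pi.pow_apply]
  field_simp
  ring

theorem trial_int_d2 (r : ℝ) : HasDerivAt
    (fun r : ℝ => 3 * arctan r / 8 - 5 * r / (8 * (1 + r ^ 2)) + r / (4 * (1 + r ^ 2) ^ 2))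
    (r ^ 4 / (1 + r ^ 2) ^ 3) r := by
  have hu : (1 + r ^ 2) ≠ 0 := by positivity
  have h0 : HasDerivAt (fun r : ℝ => 1 + r ^ 2) (2 * r) r := by
    have := (hasDerivAt_pow 2 r).const_add 1
    simpa using this
  have h1 := ((hasDerivAt_arctan r).const_mul 3).div_const 8
  have h2 := ((hasDerivAt_id r).const_mul 5).div (h0.const_mul 8) (by positivity)
  have h3 := (hasDerivAt_id r).div ((h0.pow 2).const_mul 4)
    (by simp only [Pi.pow_apply]; positivity)
  have h4 := (h1.sub h2).add h3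
  refine h4.congr_deriv ?_
  simp only [id, Pi.pow_apply]
  field_simp
  ring

theorem trial_int_lim (a b c : ℝ) : Filter.Tendsto
    (fun r : ℝ => a * arctan r + b * (r / (1 + r ^ 2)) + c * (r / (1 + r ^ 2) ^ 2)) Filter.atTop
    (nhds (a * (π / 2))) := by
  have h1 : Filter.Tendsto (fun r : ℝ => arctan r) Filter.atTop (nhds (π / 2)) :=
    tendsto_nhds_of_tendsto_nhdsWithin tendsto_arctan_atTop
  have h2 : Filter.Tendsto (fun r : ℝ => r / (1 + r ^ 2)) Filter.atTop (nhds 0) := by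
    have h : Filter.Tendsto (fun r : ℝ => r⁻¹) Filter.atTop (nhds 0) := tendsto_inv_atTop_zero
    refine squeeze_zero' ?_ ?_ h
    · filter_upwards [Filter.eventually_gt_atTop 0] with r hr
      positivity
    · filter_upwards [Filter.eventually_gt_atTop 0] with r hr
      rw [div_le_iff₀ (by positivity)]
      field_simp
      nlinarith
  have h3 : Filter.Tendsto (fun r : ℝ => r / (1 + r ^ 2) ^ 2) Filter.atTop (nhds 0) := by
    refine squeeze_zero' ?_ ?_ h2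
    · filter_upwards [Filter.eventually_gt_atTop 0] with r hr
      positivity
    · filter_upwards [Filter.eventually_gt_atTop 0] with r hr
      apply div_le_div_of_nonneg_left hr.le (by positivity)
      nlinarith [sq_nonneg r]
  have := ((h1.const_mul a).add (h2.const_mul b)).add (h3.const_mul c)
  simpa using this

theorem trial_int_1 : IntegrableOn (fun r : ℝ => r ^ 2 / (1 + r ^ 2) ^ 3) (Ioi 0) ∧
    ∫ r in Ioi (0 : ℝ), r ^ 2 / (1 + r ^ 2) ^ 3 = π / 16 := by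
  have hl : Filter.Tendsto (fun r : ℝ => arctan r / 8 + r / (8 * (1 + r ^ 2)) - r / (4 * (1 + r ^ 2) ^ 2))
      Filter.atTop (nhds (π / 16)) := by
    have h := trial_int_lim (1 / 8) (1 / 8) (-1 / 4)
    have e : (1 / 8 : ℝ) * (π / 2) = π / 16 := by ring
    rw [e] at h
    refine h.congr fun r => ?_
    have hu : (1 + r ^ 2) ≠ 0 := by positivity
    field_simp
    ring
  have hp : ∀ x ∈ Ioi (0 : ℝ), 0 ≤ x ^ 2 / (1 + x ^ 2) ^ 3 := fun x _ => by positivity
  refine ⟨integrableOn_Ioi_deriv_of_nonneg' (fun x _ => trial_int_d1 x) hp hl, ?_⟩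
  rw [integral_Ioi_of_hasDerivAt_of_nonneg' (fun x _ => trial_int_d1 x) hp hl]
  simp

theorem trial_int_2 : IntegrableOn (fun r : ℝ => r ^ 4 / (1 + r ^ 2) ^ 3) (Ioi 0) ∧
    ∫ r in Ioi (0 : ℝ), r ^ 4 / (1 + r ^ 2) ^ 3 = 3 * π / 16 := by
  have hl : Filter.Tendsto
      (fun r : ℝ => 3 * arctan r / 8 - 5 * r / (8 * (1 + r ^ 2)) + r / (4 * (1 + r ^ 2) ^ 2))
      Filter.atTop (nhds (3 * π / 16)) := by
    have h := trial_int_lim (3 / 8) (-5 / 8) (1 / 4)
    have e : (3 / 8 : ℝ) * (π / 2) = 3 * π / 16 := by ring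
    rw [e] at h
    refine h.congr fun r => ?_
    have hu : (1 + r ^ 2) ≠ 0 := by positivity
    field_simp
    ring
  have hp : ∀ x ∈ Ioi (0 : ℝ), 0 ≤ x ^ 4 / (1 + x ^ 2) ^ 3 := fun x _ => by positivity
  refine ⟨integrableOn_Ioi_deriv_of_nonneg' (fun x _ => trial_int_d2 x) hp hl, ?_⟩
  rw [integral_Ioi_of_hasDerivAt_of_nonneg' (fun x _ => trial_int_d2 x) hp hl]
  simp

theorem trial_int_vol : (volume : Measure E3).real (ball 0 1) = π * 4 / 3 := by
  rw [Measure.real, EuclideanSpace.volume_ball_fin_three]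
  simp only [ENNReal.ofReal_one, one_pow, one_mul]
  rw [ENNReal.toReal_ofReal (by positivity)]

theorem trial_int_rpow (r : ℝ) :
    (3 / (1 + r ^ 2) ^ 2) ^ (3 / 2 : ℝ) = 3 * √3 * (1 / (1 + r ^ 2) ^ 3) := by
  have hu : 0 < (1 + r ^ 2) := by positivity
  rw [Real.div_rpow (by norm_num) (by positivity)]
  have h1 : (3 : ℝ) ^ (3 / 2 : ℝ) = 3 * √3 := by
    rw [show (3 / 2 : ℝ) = 1 + 1 / 2 by norm_num, Real.rpow_add (by norm_num), Real.rpow_one,
      ← Real.sqrt_eq_rpow]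
  have h2 : ((1 + r ^ 2) ^ 2) ^ (3 / 2 : ℝ) = (1 + r ^ 2) ^ 3 := by
    rw [← Real.rpow_natCast (1 + r ^ 2) 2, ← Real.rpow_mul hu.le]
    norm_num
  rw [h1, h2]
  ring

theorem trial_int_i1 : Integrable (fun x : E3 => 1 / (1 + ‖x‖ ^ 2) ^ 3) := by
  have := (integrable_fun_norm_addHaar (volume : Measure E3)
    (f := fun r : ℝ => 1 / (1 + r ^ 2) ^ 3)).2
  apply this
  have h := trial_int_1.1
  simp only [finrank_euclideanSpace, Fintype.card_fin, smul_eq_mul]
  refine h.congr_fun (fun r _ => ?_) measurableSet_Ioi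
  simp only [Nat.add_one_sub_one, show 3 - 1 = 2 from rfl]
  ring

theorem trial_int_i2 : Integrable (fun x : E3 => ‖x‖ ^ 2 / (1 + ‖x‖ ^ 2) ^ 3) := by
  have := (integrable_fun_norm_addHaar (volume : Measure E3)
    (f := fun r : ℝ => r ^ 2 / (1 + r ^ 2) ^ 3)).2
  apply this
  have h := trial_int_2.1
  simp only [finrank_euclideanSpace, Fintype.card_fin, smul_eq_mul]
  refine h.congr_fun (fun r _ => ?_) measurableSet_Ioi
  simp only [show 3 - 1 = 2 from rfl]
  ring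

theorem trial_int_v1 : ∫ x : E3, 1 / (1 + ‖x‖ ^ 2) ^ 3 = π ^ 2 / 4 := by
  have := integral_fun_norm_addHaar (volume : Measure E3) (fun r : ℝ => 1 / (1 + r ^ 2) ^ 3)
  rw [this, trial_int_vol]
  have e : ∫ y in Ioi (0 : ℝ), y ^ (Module.finrank ℝ E3 - 1) • (1 / (1 + y ^ 2) ^ 3) = π / 16 := by
    rw [← trial_int_1.2]
    refine setIntegral_congr_fun measurableSet_Ioi (fun r _ => ?_)
    simp only [finrank_euclideanSpace, Fintype.card_fin, smul_eq_mul, show 3 - 1 = 2 from rfl]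
    ring
  rw [e]
  simp only [finrank_euclideanSpace, Fintype.card_fin, smul_eq_mul, nsmul_eq_mul]
  push_cast
  ring

theorem trial_int_v2 : ∫ x : E3, ‖x‖ ^ 2 / (1 + ‖x‖ ^ 2) ^ 3 = 3 * π ^ 2 / 4 := by
  have := integral_fun_norm_addHaar (volume : Measure E3) (fun r : ℝ => r ^ 2 / (1 + r ^ 2) ^ 3)
  rw [this, trial_int_vol]
  have e : ∫ y in Ioi (0 : ℝ), y ^ (Module.finrank ℝ E3 - 1) • (y ^ 2 / (1 + y ^ 2) ^ 3) =
      3 * π / 16 := by
    rw [← trial_int_2.2]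
    refine setIntegral_congr_fun measurableSet_Ioi (fun r _ => ?_)
    simp only [finrank_euclideanSpace, Fintype.card_fin, smul_eq_mul, show 3 - 1 = 2 from rfl]
    ring
  rw [e]
  simp only [finrank_euclideanSpace, Fintype.card_fin, smul_eq_mul, nsmul_eq_mul]
  push_cast
  ring

theorem trial_int :
    Integrable (fun x : E3 => (3 / (1 + ‖x‖ ^ 2) ^ 2) ^ (3 / 2 : ℝ)) ∧
    ∫ x : E3, (3 / (1 + ‖x‖ ^ 2) ^ 2) ^ (3 / 2 : ℝ) = 3 * √3 * π ^ 2 / 4 ∧
    Integrable (fun x : E3 => ‖x‖ ^ 2 / (1 + ‖x‖ ^ 2) ^ 3) ∧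
    Integrable (fun x : E3 => 1 / (1 + ‖x‖ ^ 2) ^ 3) ∧
    ∫ x : E3, ‖x‖ ^ 2 / (1 + ‖x‖ ^ 2) ^ 3 = 3 * ∫ x : E3, 1 / (1 + ‖x‖ ^ 2) ^ 3 := by
  have hf : (fun x : E3 => (3 / (1 + ‖x‖ ^ 2) ^ 2) ^ (3 / 2 : ℝ)) =
      fun x : E3 => 3 * √3 * (1 / (1 + ‖x‖ ^ 2) ^ 3) := by
    funext x
    exact trial_int_rpow ‖x‖
  refine ⟨?_, ?_, trial_int_i2, trial_int_i1, ?_⟩
  · rw [hf]
    exact trial_int_i1.const_mul _
  · rw [hf, integral_const_mul, trial_int_v1]
    ring
  · rw [trial_int_v1, trial_int_v2]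
    ring

end Pool.Agent.Helper970.Rad
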