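import Pool.Agent.Helper970.Rad.Defs
import Pool.Agent.Helper970.Rad.P_trial_int

set_option autoImplicit false

open MeasureTheory Set Metric Real
open scoped RealInnerProductSpace ENNReal ContDiff

namespace Pool.Agent.Helper970.Rad



/-- the trial function -/
noncomputable def trU (x : E3) : ℝ := (√(1 + ‖x‖ ^ 2))⁻¹

theorem trU_contDiff : ContDiff ℝ ∞ trU := by
  unfold trU
  apply ContDiff.inv
  · apply ContDiff.sqrt
    · exact contDiff_const.add (contDiff_norm_sq ℝ)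
    · intro x; positivity
  · intro x; positivity

theorem trU_hasFDerivAt (x : E3) :
    HasFDerivAt trU (-(1 / (√(1 + ‖x‖ ^ 2)) ^ 3) • innerSL ℝ x) x := by
  have h1 : HasFDerivAt (fun x : E3 => ‖x‖ ^ 2) (2 • (innerSL ℝ x)) x :=
    (hasStrictFDerivAt_norm_sq x).hasFDerivAt
  have hpos : 0 < 1 + ‖x‖ ^ 2 := by positivity
  have h2 : HasDerivAt (fun t : ℝ => (√(1 + t))⁻¹)
      (-(1 / (2 * √(1 + ‖x‖ ^ 2))) / (√(1 + ‖x‖ ^ 2)) ^ 2) (‖x‖ ^ 2) := by
    have h3 : HasDerivAt (fun t : ℝ => 1 + t) 1 (‖x‖ ^ 2) := (hasDerivAt_id _).const_add 1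
    exact (h3.sqrt hpos.ne').inv (by positivity)
  have h4 := h2.comp_hasFDerivAt x h1
  have h5 : (-(1 / (2 * √(1 + ‖x‖ ^ 2))) / (√(1 + ‖x‖ ^ 2)) ^ 2) • ((2 : ℕ) • (innerSL ℝ x)) =
      (-(1 / (√(1 + ‖x‖ ^ 2)) ^ 3)) • innerSL ℝ x := by
    rw [← Nat.cast_smul_eq_nsmul ℝ, smul_smul]
    congr 1
    have : √(1 + ‖x‖ ^ 2) ≠ 0 := by positivity
    push_cast
    field_simp
  rw [h5] at h4
  exact h4

theorem trU_sq (x : E3) : trU x ^ 2 = 1 / (1 + ‖x‖ ^ 2) := by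
  unfold trU
  rw [inv_pow, Real.sq_sqrt (by positivity), one_div]

theorem trU_fderiv_sq (x : E3) : ‖fderiv ℝ trU x‖ ^ 2 = ‖x‖ ^ 2 / (1 + ‖x‖ ^ 2) ^ 3 := by
  rw [(trU_hasFDerivAt x).fderiv, norm_smul, innerSL_apply_norm, mul_pow, norm_neg,
    Real.norm_of_nonneg (by positivity), div_pow, ← pow_mul, mul_comm 3 2, pow_mul,
    Real.sq_sqrt (by positivity)]
  ring

/-- the cut off trial function -/
noncomputable def trV (χ : E3 → ℝ) (a : ℝ) (x : E3) : ℝ := χ (a • x) * trU x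

theorem trV_hasFDerivAt {χ : E3 → ℝ} (hχ : ContDiff ℝ ∞ χ) (a : ℝ) (x : E3) :
    HasFDerivAt (trV χ a) (χ (a • x) • fderiv ℝ trU x + trU x • (a • fderiv ℝ χ (a • x))) x := by
  have h1 : HasFDerivAt χ (fderiv ℝ χ (a • x)) (a • x) :=
    ((hχ.differentiable (by simp)) (a • x)).hasFDerivAt
  have h2 : HasFDerivAt (fun y : E3 => a • y) (a • ContinuousLinearMap.id ℝ E3) x :=
    (hasFDerivAt_id x).const_smul a
  have h3 := h1.comp x h2
  have h4 : (fderiv ℝ χ (a • x)).comp (a • ContinuousLinearMap.id ℝ E3) =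
      a • fderiv ℝ χ (a • x) := by
    ext y
    simp
  rw [h4] at h3
  have h5 : HasFDerivAt trU (fderiv ℝ trU x) x :=
    ((trU_contDiff.differentiable (by simp)) x).hasFDerivAt
  exact h3.mul h5

theorem trV_contDiff {χ : E3 → ℝ} (hχ : ContDiff ℝ ∞ χ) (a : ℝ) : ContDiff ℝ ∞ (trV χ a) := by
  unfold trV
  exact (hχ.comp (contDiff_const_smul a)).mul trU_contDiff

theorem trV_hasCompactSupport {χ : E3 → ℝ} (hχc : HasCompactSupport χ) (a : ℝ) (ha : a ≠ 0) :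
    HasCompactSupport (trV χ a) := by
  unfold trV
  apply HasCompactSupport.mul_right
  exact hχc.comp_homeomorph (Homeomorph.smulOfNeZero a ha)

theorem trV_sq_le {χ : E3 → ℝ} (hχ1 : ∀ y, |χ y| ≤ 1) (a : ℝ) (x : E3) :
    trV χ a x ^ 2 ≤ 1 / (1 + ‖x‖ ^ 2) := by
  rw [trV, mul_pow, trU_sq]
  have h1 : χ (a • x) ^ 2 ≤ 1 := by
    rw [← sq_abs]
    exact pow_le_one₀ (abs_nonneg _) (hχ1 _)
  exact mul_le_of_le_one_left (by positivity) h1

theorem trV_fderiv_sq_le {χ : E3 → ℝ} (hχ : ContDiff ℝ ∞ χ) (hχ1 : ∀ y, |χ y| ≤ 1) {C C1 : ℝ}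
    (hC : ∀ y, ‖fderiv ℝ χ y‖ ≤ C) (hC1 : ∀ y, ‖y‖ * ‖fderiv ℝ χ y‖ ≤ C1) (a : ℝ) (ha : 0 < a)
    (ha1 : a ≤ 1) (x : E3) :
    ‖fderiv ℝ (trV χ a) x‖ ^ 2 ≤
      2 * (‖x‖ ^ 2 / (1 + ‖x‖ ^ 2) ^ 3) + 2 * (C ^ 2 + C1 ^ 2) * (1 / (1 + ‖x‖ ^ 2) ^ 2) := by
  rw [(trV_hasFDerivAt hχ a x).fderiv]
  have hpos : 0 < 1 + ‖x‖ ^ 2 := by positivity
  set p := ‖fderiv ℝ trU x‖ with hp
  set q := ‖trU x • (a • fderiv ℝ χ (a • x))‖ with hq
  have h1 : ‖χ (a • x) • fderiv ℝ trU x + trU x • (a • fderiv ℝ χ (a • x))‖ ≤ p + q := by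
    refine (norm_add_le _ _).trans ?_
    gcongr
    rw [norm_smul, Real.norm_eq_abs]
    exact mul_le_of_le_one_left (norm_nonneg _) (hχ1 _)
  have h2 : q ^ 2 ≤ (C ^ 2 + C1 ^ 2) * (1 / (1 + ‖x‖ ^ 2) ^ 2) := by
    rw [hq, norm_smul, norm_smul, mul_pow, Real.norm_eq_abs, sq_abs, trU_sq,
      Real.norm_of_nonneg ha.le]
    have hd := hC (a • x)
    have hd1 := hC1 (a • x)
    rw [norm_smul, Real.norm_of_nonneg ha.le] at hd1
    set d := ‖fderiv ℝ χ (a • x)‖ with hdd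
    have hd0 : 0 ≤ d := norm_nonneg _
    have h3 : (a * d) ^ 2 ≤ C ^ 2 := by
      apply pow_le_pow_left₀ (by positivity)
      calc a * d ≤ 1 * d := by gcongr
        _ ≤ C := by linarith
    have h4 : (a * ‖x‖ * d) ^ 2 ≤ C1 ^ 2 := by
      apply pow_le_pow_left₀ (by positivity) hd1
    have h5 : (a * d) ^ 2 * (1 + ‖x‖ ^ 2) ≤ C ^ 2 + C1 ^ 2 := by nlinarith
    calc 1 / (1 + ‖x‖ ^ 2) * (a * d) ^ 2 =
        ((a * d) ^ 2 * (1 + ‖x‖ ^ 2)) * (1 / (1 + ‖x‖ ^ 2) ^ 2) := by field_simp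
      _ ≤ _ := by gcongr
  have h3 : p ^ 2 = ‖x‖ ^ 2 / (1 + ‖x‖ ^ 2) ^ 3 := trU_fderiv_sq x
  calc ‖χ (a • x) • fderiv ℝ trU x + trU x • (a • fderiv ℝ χ (a • x))‖ ^ 2 ≤ (p + q) ^ 2 := by
        gcongr
    _ ≤ 2 * p ^ 2 + 2 * q ^ 2 := by nlinarith [sq_nonneg (p - q)]
    _ ≤ _ := by rw [h3]; nlinarith

theorem trial (ε : ℝ) (hε : 0 < ε) : ∃ v : E3 → ℝ, ContDiff ℝ ∞ v ∧ HasCompactSupport v ∧
    ∫ x : E3, (‖fderiv ℝ v x‖ ^ 2 - (1 + ε) * (3 / (1 + ‖x‖ ^ 2) ^ 2) * v x ^ 2) < 0 := by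
  classical
  obtain ⟨-, -, hi1, hi2, hi3⟩ := trial_int
  -- the cut off
  obtain ⟨χ, hχ, hχc, hχ1, hχ0⟩ : ∃ χ : E3 → ℝ, ContDiff ℝ ∞ χ ∧ HasCompactSupport χ ∧
      (∀ y, |χ y| ≤ 1) ∧ χ 0 = 1 := by
    let c : ContDiffBump (0 : E3) := ⟨1, 2, by norm_num, by norm_num⟩
    refine ⟨c, c.contDiff, c.hasCompactSupport, ?_, ?_⟩
    · intro y
      rw [abs_of_nonneg c.nonneg]
      exact c.le_one
    · exact c.one_of_mem_closedBall (by simp [c])
  have hcf : Continuous (fderiv ℝ χ) := hχ.continuous_fderiv (by simp)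
  obtain ⟨C, hC⟩ := hcf.bounded_above_of_compact_support (hχc.fderiv (𝕜 := ℝ))
  obtain ⟨C1, hC1'⟩ := (continuous_norm.smul hcf).bounded_above_of_compact_support
    ((hχc.fderiv (𝕜 := ℝ)).smul_left (f := fun y : E3 => ‖y‖))
  have hC1 : ∀ y, ‖y‖ * ‖fderiv ℝ χ y‖ ≤ C1 := by
    intro y
    have h0 : ‖‖y‖ • fderiv ℝ χ y‖ ≤ C1 := hC1' y
    rwa [norm_smul, norm_norm] at h0
  set a : ℕ → ℝ := fun n => ((n : ℝ) + 1)⁻¹ with ha
  have ha0 : ∀ n, 0 < a n := fun n => by simp only [ha]; positivity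
  have ha1 : ∀ n, a n ≤ 1 := fun n => by
    simp only [ha]
    apply inv_le_one_of_one_le₀
    have : (0 : ℝ) ≤ n := Nat.cast_nonneg n
    linarith
  have halim : Filter.Tendsto a Filter.atTop (nhds 0) := by
    have := tendsto_one_div_add_atTop_nhds_zero_nat (𝕜 := ℝ)
    simpa [ha, one_div] using this
  set F : ℕ → E3 → ℝ := fun n x => ‖fderiv ℝ (trV χ (a n)) x‖ ^ 2 -
    (1 + ε) * (3 / (1 + ‖x‖ ^ 2) ^ 2) * trV χ (a n) x ^ 2 with hF
  set f : E3 → ℝ := fun x => ‖x‖ ^ 2 / (1 + ‖x‖ ^ 2) ^ 3 - (1 + ε) * 3 * (1 / (1 + ‖x‖ ^ 2) ^ 3)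
    with hf
  set bd : E3 → ℝ := fun x => (2 * (‖x‖ ^ 2 / (1 + ‖x‖ ^ 2) ^ 3) +
    2 * (C ^ 2 + C1 ^ 2) * (1 / (1 + ‖x‖ ^ 2) ^ 2)) + (1 + ε) * 3 * (1 / (1 + ‖x‖ ^ 2) ^ 3)
    with hbd
  have hbi : Integrable bd := by
    have h4 : Integrable (fun x : E3 => 1 / (1 + ‖x‖ ^ 2) ^ 2) := by
      have h5 := integrable_rpow_neg_one_add_norm_sq (E := E3) (μ := volume) (r := 4)
        (by rw [finrank_euclideanSpace_fin]; norm_num)
      refine h5.congr (Filter.Eventually.of_forall fun x => ?_)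
      have h6 : (-4 / 2 : ℝ) = -((2 : ℕ) : ℝ) := by norm_num
      simp only
      rw [h6, Real.rpow_neg (by positivity), Real.rpow_natCast, one_div]
    exact ((hi1.const_mul 2).add (h4.const_mul _)).add (hi2.const_mul _)
  have hlim : Filter.Tendsto (fun n => ∫ x, F n x) Filter.atTop (nhds (∫ x, f x)) := by
    apply tendsto_integral_of_dominated_convergence bd
    · intro n
      apply Continuous.aestronglyMeasurable
      have h1 : Continuous (fderiv ℝ (trV χ (a n))) :=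
        (trV_contDiff hχ (a n)).continuous_fderiv (by simp)
      have h2 : Continuous (trV χ (a n)) := (trV_contDiff hχ (a n)).continuous
      refine (h1.norm.pow 2).sub ((continuous_const.mul ?_).mul (h2.pow 2))
      refine continuous_const.div (by fun_prop) ?_
      intro x
      positivity
    · exact hbi
    · intro n
      refine Filter.Eventually.of_forall fun x => ?_
      have h1 := trV_fderiv_sq_le hχ hχ1 hC hC1 (a n) (ha0 n) (ha1 n) x
      have h2 := trV_sq_le hχ1 (a n) x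
      have h3 : (1 + ε) * (3 / (1 + ‖x‖ ^ 2) ^ 2) * trV χ (a n) x ^ 2 ≤
          (1 + ε) * 3 * (1 / (1 + ‖x‖ ^ 2) ^ 3) := by
        calc (1 + ε) * (3 / (1 + ‖x‖ ^ 2) ^ 2) * trV χ (a n) x ^ 2 ≤
            (1 + ε) * (3 / (1 + ‖x‖ ^ 2) ^ 2) * (1 / (1 + ‖x‖ ^ 2)) := by gcongr
          _ = _ := by
            have : 0 < 1 + ‖x‖ ^ 2 := by positivity
            field_simp
      have h4 : 0 ≤ ‖fderiv ℝ (trV χ (a n)) x‖ ^ 2 := by positivity
      have h5 : 0 ≤ (1 + ε) * (3 / (1 + ‖x‖ ^ 2) ^ 2) * trV χ (a n) x ^ 2 := by positivity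
      simp only [hF, hbd]
      rw [Real.norm_eq_abs]
      refine (abs_sub _ _).trans ?_
      rw [abs_of_nonneg h4, abs_of_nonneg h5]
      exact add_le_add h1 h3
    · refine Filter.Eventually.of_forall fun x => ?_
      have h1 : Filter.Tendsto (fun n => χ (a n • x)) Filter.atTop (nhds 1) := by
        have h2 : Filter.Tendsto (fun n => a n • x) Filter.atTop (nhds (0 : E3)) := by
          have := halim.smul_const x
          rwa [zero_smul] at this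
        have := (hχ.continuous.tendsto 0).comp h2
        rwa [hχ0] at this
      have h3 : Filter.Tendsto (fun n => a n • fderiv ℝ χ (a n • x)) Filter.atTop (nhds 0) := by
        rw [tendsto_zero_iff_norm_tendsto_zero]
        have h4 : Filter.Tendsto (fun n => a n * C) Filter.atTop (nhds 0) := by
          have := halim.mul_const C
          rwa [zero_mul] at this
        refine squeeze_zero (fun n => norm_nonneg _) (fun n => ?_) h4
        rw [norm_smul, Real.norm_of_nonneg (ha0 n).le]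
        exact mul_le_mul_of_nonneg_left (hC _) (ha0 n).le
      have h5 : Filter.Tendsto (fun n => fderiv ℝ (trV χ (a n)) x) Filter.atTop
          (nhds (fderiv ℝ trU x)) := by
        have h6 : ∀ n, fderiv ℝ (trV χ (a n)) x =
            χ (a n • x) • fderiv ℝ trU x + trU x • (a n • fderiv ℝ χ (a n • x)) :=
          fun n => (trV_hasFDerivAt hχ (a n) x).fderiv
        simp only [h6]
        have := (h1.smul_const (fderiv ℝ trU x)).add (h3.const_smul (trU x))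
        rwa [one_smul, smul_zero, add_zero] at this
      have h7 : Filter.Tendsto (fun n => trV χ (a n) x) Filter.atTop (nhds (trU x)) := by
        have := h1.mul_const (trU x)
        rwa [one_mul] at this
      have h8 := (h5.norm.pow 2).sub ((h7.pow 2).const_mul ((1 + ε) * (3 / (1 + ‖x‖ ^ 2) ^ 2)))
      have h9 : ‖fderiv ℝ trU x‖ ^ 2 - (1 + ε) * (3 / (1 + ‖x‖ ^ 2) ^ 2) * trU x ^ 2 = f x := by
        rw [trU_fderiv_sq, trU_sq]
        simp only [hf]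
        have : 0 < 1 + ‖x‖ ^ 2 := by positivity
        field_simp
      rw [h9] at h8
      exact h8
  have hfint : ∫ x, f x < 0 := by
    have h1 : ∫ x, f x = (∫ x : E3, ‖x‖ ^ 2 / (1 + ‖x‖ ^ 2) ^ 3) -
        (1 + ε) * 3 * ∫ x : E3, 1 / (1 + ‖x‖ ^ 2) ^ 3 := by
      simp only [hf]
      rw [integral_sub hi1 (hi2.const_mul _), integral_const_mul]
    have h2 : 0 < ∫ x : E3, 1 / (1 + ‖x‖ ^ 2) ^ 3 := by
      rw [integral_pos_iff_support_of_nonneg (fun x => by positivity) hi2]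
      have : Function.support (fun x : E3 => 1 / (1 + ‖x‖ ^ 2) ^ 3) = Set.univ := by
        ext x
        simp only [Function.mem_support, Set.mem_univ, iff_true]
        positivity
      rw [this]
      exact NeZero.pos _
    rw [h1, hi3]
    nlinarith
  obtain ⟨n, hn⟩ := (hlim.eventually (gt_mem_nhds hfint)).exists
  exact ⟨trV χ (a n), trV_contDiff hχ _, trV_hasCompactSupport hχc _ (ha0 n).ne', hn⟩

end Pool.Agent.Helper970.Rad
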