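import Pool.Agent.Helper970.Rad.Defs
import Pool.Agent.Helper970.Rad.P_const_eq
import Pool.Agent.Helper970.Rad.P_trial_int
import Pool.Agent.Helper970.Rad.P_trial

set_option autoImplicit false

open MeasureTheory Set Metric Real
open scoped RealInnerProductSpace ENNReal ContDiff

namespace Pool.Agent.Helper970.Rad



theorem sharp_step (C : ℝ)
    (hC : ∀ w : ℝ → ℝ, Measurable w → (∀ r, 0 ≤ w r) →
        Integrable (fun x : E3 => w ‖x‖ ^ (3 / 2 : ℝ)) →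
        ∀ (n : ℕ) (u : Fin n → E3 → ℝ),
          (∀ i, ContDiff ℝ ∞ (u i) ∧ HasCompactSupport (u i)) →
          (∀ c : Fin n → ℝ, c ≠ 0 →
            ∫ x, (‖fderiv ℝ (fun y => ∑ i, c i * u i y) x‖ ^ 2
                  - w ‖x‖ * (∑ i, c i * u i x) ^ 2) < 0) →
          (n : ℝ) ≤ C * ∫ x : E3, w ‖x‖ ^ (3 / 2 : ℝ)) (ε : ℝ) (hε : 0 < ε) :
    1 ≤ C * ((1 + ε) ^ (3 / 2 : ℝ) * (3 * √3 * π ^ 2 / 4)) := by
  obtain ⟨v, hv, hvc, hneg⟩ := trial ε hε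
  obtain ⟨hint, hval, -, -, -⟩ := trial_int
  have hpos : ∀ r : ℝ, 0 ≤ 3 / (1 + r ^ 2) ^ 2 := fun r => by positivity
  have hfun : (fun x : E3 => ((1 + ε) * (3 / (1 + ‖x‖ ^ 2) ^ 2)) ^ (3 / 2 : ℝ)) =
      fun x : E3 => (1 + ε) ^ (3 / 2 : ℝ) * (3 / (1 + ‖x‖ ^ 2) ^ 2) ^ (3 / 2 : ℝ) := by
    funext x
    rw [Real.mul_rpow (by linarith) (hpos _)]
  have h1 := hC (fun r => (1 + ε) * (3 / (1 + r ^ 2) ^ 2)) (by fun_prop)
    (fun r => mul_nonneg (by linarith) (hpos r)) (by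
      show Integrable (fun x : E3 => ((1 + ε) * (3 / (1 + ‖x‖ ^ 2) ^ 2)) ^ (3 / 2 : ℝ))
      rw [hfun]
      exact hint.const_mul _) 1 (fun _ => v) (fun _ => ⟨hv, hvc⟩) (by
      intro c hc
      have hc0 : c 0 ≠ 0 := by
        intro h
        apply hc
        funext i
        rw [Subsingleton.elim i 0, h]
        rfl
      have e1 : ∀ x : E3, (‖fderiv ℝ (fun y => ∑ i : Fin 1, c i * v y) x‖ ^ 2
          - (1 + ε) * (3 / (1 + ‖x‖ ^ 2) ^ 2) * (∑ i : Fin 1, c i * v x) ^ 2) =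
          c 0 ^ 2 * (‖fderiv ℝ v x‖ ^ 2 - (1 + ε) * (3 / (1 + ‖x‖ ^ 2) ^ 2) * v x ^ 2) := by
        intro x
        have hd : DifferentiableAt ℝ v x :=
          (hv.differentiable (by simp)).differentiableAt
        have e2 : fderiv ℝ (fun y => ∑ i : Fin 1, c i * v y) x = c 0 • fderiv ℝ v x := by
          have : (fun y => ∑ i : Fin 1, c i * v y) = fun y => c 0 * v y := by
            funext y
            simp
          rw [this]
          exact fderiv_const_mul hd (c 0)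
        rw [e2, norm_smul, Fin.sum_univ_one, mul_pow, mul_pow, Real.norm_eq_abs, sq_abs]
        ring
      show ∫ x : E3, (‖fderiv ℝ (fun y => ∑ i : Fin 1, c i * v y) x‖ ^ 2
          - (1 + ε) * (3 / (1 + ‖x‖ ^ 2) ^ 2) * (∑ i : Fin 1, c i * v x) ^ 2) < 0
      simp_rw [e1]
      rw [integral_const_mul]
      have : 0 < c 0 ^ 2 := by positivity
      exact mul_neg_of_pos_of_neg this hneg)
  have h2 : ∫ x : E3, ((1 + ε) * (3 / (1 + ‖x‖ ^ 2) ^ 2)) ^ (3 / 2 : ℝ) =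
      (1 + ε) ^ (3 / 2 : ℝ) * (3 * √3 * π ^ 2 / 4) := by
    rw [hfun, integral_const_mul, hval]
  have h3 : ((1 : ℕ) : ℝ) ≤ C * ∫ x : E3, ((1 + ε) * (3 / (1 + ‖x‖ ^ 2) ^ 2)) ^ (3 / 2 : ℝ) := h1
  rw [h2] at h3
  simpa using h3

theorem sharp (C : ℝ)
    (hC : ∀ w : ℝ → ℝ, Measurable w → (∀ r, 0 ≤ w r) →
        Integrable (fun x : E3 => w ‖x‖ ^ (3 / 2 : ℝ)) →
        ∀ (n : ℕ) (u : Fin n → E3 → ℝ),
          (∀ i, ContDiff ℝ ∞ (u i) ∧ HasCompactSupport (u i)) →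
          (∀ c : Fin n → ℝ, c ≠ 0 →
            ∫ x, (‖fderiv ℝ (fun y => ∑ i, c i * u i y) x‖ ^ 2
                  - w ‖x‖ * (∑ i, c i * u i x) ^ 2) < 0) →
          (n : ℝ) ≤ C * ∫ x : E3, w ‖x‖ ^ (3 / 2 : ℝ)) :
    (3 * π) ^ (-(3 / 2 : ℝ)) * Real.Gamma 3 / Real.Gamma (3 / 2) ≤ C := by
  have hstep := sharp_step C hC
  have hlim : Filter.Tendsto (fun ε : ℝ => C * ((1 + ε) ^ (3 / 2 : ℝ) * (3 * √3 * π ^ 2 / 4)))
      (nhdsWithin 0 (Ioi 0)) (nhds (C * ((1 + 0) ^ (3 / 2 : ℝ) * (3 * √3 * π ^ 2 / 4)))) := by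
    apply Filter.Tendsto.mono_left _ nhdsWithin_le_nhds
    have hc : ContinuousAt (fun ε : ℝ => C * ((1 + ε) ^ (3 / 2 : ℝ) * (3 * √3 * π ^ 2 / 4))) 0 := by
      refine ContinuousAt.mul continuousAt_const (ContinuousAt.mul ?_ continuousAt_const)
      exact ContinuousAt.rpow_const (by fun_prop) (Or.inl (by norm_num))
    exact hc
  have h1 : 1 ≤ C * ((1 + 0) ^ (3 / 2 : ℝ) * (3 * √3 * π ^ 2 / 4)) := by
    apply ge_of_tendsto hlim
    filter_upwards [self_mem_nhdsWithin] with ε hε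
    exact hstep ε hε
  rw [add_zero, Real.one_rpow, one_mul] at h1
  rw [const_eq, cLT]
  have h3 : 0 < √3 := Real.sqrt_pos.mpr (by norm_num)
  have hpi := Real.pi_pos
  have hD : 0 < 3 * √3 * π ^ 2 / 4 := by positivity
  have h4 : 1 / (3 * √3 * π ^ 2 / 4) ≤ C := by
    rw [div_le_iff₀ hD]
    exact h1
  have h5 : 4 * (4 / (3 * √3 * π)) / (4 * π) = 1 / (3 * √3 * π ^ 2 / 4) := by
    field_simp
  rw [h5]
  exact h4

end Pool.Agent.Helper970.Rad
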