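import Pool.Agent.Helper970.Rad.Defs
import Pool.Agent.Helper970.Rad.P_PLt_contDiff
import Pool.Agent.Helper970.Rad.P_harm
import Pool.Agent.Helper970.Rad.P_bessel
import Pool.Agent.Helper970.Rad.P_parseval

set_option autoImplicit false

open MeasureTheory Set Metric Real
open scoped RealInnerProductSpace ENNReal ContDiff

namespace Pool.Agent.Helper970.Rad



theorem B_comm' (f g : E3 → ℝ) : B f g = B g f := by
  unfold B
  refine integral_congr_ae (Filter.Eventually.of_forall fun ξ => ?_)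
  beta_reduce
  ring

theorem PLt_mono' {m n : ℕ} (h : m ≤ n) : PLt m ≤ PLt n := by
  unfold PLt
  refine Submodule.span_mono (Set.image_mono ?_)
  intro a ha
  exact lt_of_lt_of_le ha h

theorem sum_ineq (a : ℕ → ℝ) (ha : ∀ l, 0 ≤ a l) (K M : ℕ) (hKM : K ≤ M) :
    (∑ l ∈ Finset.range K, (l : ℝ) * (l + 1) * a l) +
      (K : ℝ) * (K + 1) * (∑ l ∈ Finset.range M, a l - ∑ l ∈ Finset.range K, a l) ≤
    ∑ l ∈ Finset.range M, (l : ℝ) * (l + 1) * a l := by
  rw [← Finset.sum_range_add_sum_Ico _ hKM,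
    ← Finset.sum_range_add_sum_Ico (fun l : ℕ => (l : ℝ) * (l + 1) * a l) hKM]
  have h1 : (K : ℝ) * (K + 1) * ∑ l ∈ Finset.Ico K M, a l ≤
      ∑ l ∈ Finset.Ico K M, (l : ℝ) * (l + 1) * a l := by
    rw [Finset.mul_sum]
    refine Finset.sum_le_sum fun l hl => ?_
    refine mul_le_mul_of_nonneg_right ?_ (ha l)
    have h2 : (K : ℝ) ≤ l := by exact_mod_cast (Finset.mem_Ico.1 hl).1
    have h3 : (0 : ℝ) ≤ K := Nat.cast_nonneg K
    nlinarith
  linarith

theorem sphere_system : ∃ (d : ℕ → ℕ) (Y : (l : ℕ) → Fin (d l) → E3 → ℝ),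
    (∀ l, d l ≤ 2 * l + 1) ∧
    (∀ l j, ContDiff ℝ ∞ (Y l j)) ∧
    (∀ l i j, B (Y l i) (Y l j) = if i = j then 1 else 0) ∧
    (∀ l l' i j, l ≠ l' → B (Y l i) (Y l' j) = 0) ∧
    ∀ (K : ℕ) (f : E3 → ℝ), ContDiff ℝ ∞ f →
      (∑ l ∈ Finset.range K, (l : ℝ) * (l + 1) * ∑ j, B f (Y l j) ^ 2) +
        (K : ℝ) * (K + 1) * (B f f - ∑ l ∈ Finset.range K, ∑ j, B f (Y l j) ^ 2) ≤
      ∑ k, B (Lk k f) (Lk k f) := by
  choose d Y hd hY ho ho' hs using harm
  have hlev : ∀ l l' : ℕ, ∀ (i : Fin (d l)) (j : Fin (d l')), l < l' →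
      B (Y l i) (Y l' j) = 0 := by
    intro l l' i j hll
    rw [B_comm']
    exact ho' l' j _ (PLt_mono' hll (hY l i))
  refine ⟨d, Y, hd, fun l j => PLt_contDiff _ _ (hY l j), ho, ?_, ?_⟩
  · intro l l' i j hne
    rcases lt_or_gt_of_ne hne with h | h
    · exact hlev l l' i j h
    · rw [B_comm']
      exact hlev l' l j i h
  · intro K f hf
    obtain ⟨a, ha⟩ : ∃ a : ℕ → ℝ, a = fun l => ∑ j, B f (Y l j) ^ 2 := ⟨_, rfl⟩
    have ha0 : ∀ l, 0 ≤ a l := by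
      intro l
      rw [ha]
      exact Finset.sum_nonneg fun j _ => sq_nonneg _
    have hbes : ∀ M, ∑ l ∈ Finset.range M, (l : ℝ) * (l + 1) * a l ≤
        ∑ k, B (Lk k f) (Lk k f) := by
      intro M
      rw [ha]
      exact bessel d Y hY ho ho' M f hf
    have hpar : ∀ ε : ℝ, 0 < ε → ∃ M₀ : ℕ, ∀ M ≥ M₀, B f f - ε ≤
        ∑ l ∈ Finset.range M, a l := by
      intro ε hε
      rw [ha]
      exact parseval d Y hY ho ho' hs f hf.continuous ε hε
    have hgoal : (∑ l ∈ Finset.range K, (l : ℝ) * (l + 1) * a l) +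
        (K : ℝ) * (K + 1) * (B f f - ∑ l ∈ Finset.range K, a l) ≤
        ∑ k, B (Lk k f) (Lk k f) := by
      refine le_of_forall_pos_le_add fun ε hε => ?_
      have hK0 : (0 : ℝ) ≤ (K : ℝ) * (K + 1) := by positivity
      have hK1 : (0 : ℝ) < (K : ℝ) * (K + 1) + 1 := by positivity
      obtain ⟨M₀, hM₀⟩ := hpar (ε / ((K : ℝ) * (K + 1) + 1)) (div_pos hε hK1)
      have h1 := hM₀ (max M₀ K) (le_max_left _ _)
      have h2 := sum_ineq a ha0 K (max M₀ K) (le_max_right _ _)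
      have h3 := hbes (max M₀ K)
      have h4 : (K : ℝ) * (K + 1) * (ε / ((K : ℝ) * (K + 1) + 1)) ≤ ε := by
        rw [← mul_div_assoc, div_le_iff₀ hK1]
        nlinarith
      have h5 : (K : ℝ) * (K + 1) * (B f f - ε / ((K : ℝ) * (K + 1) + 1)) ≤
          (K : ℝ) * (K + 1) * ∑ l ∈ Finset.range (max M₀ K), a l :=
        mul_le_mul_of_nonneg_left h1 hK0
      nlinarith
    rw [ha] at hgoal
    exact hgoal

end Pool.Agent.Helper970.Rad
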